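import Pool.Agent.SymM.Targets

set_option autoImplicit false

/-!
# The extension of an integrable function is continuous
-/

noncomputable section

open MeasureTheory Set
open scoped ENNReal RealInnerProductSpace

namespace Pool.Agent.SymM

open Pool.Agent.ExpMax

namespace CONT_

theorem dot_cont1 {d : ℕ} (y : Pt d) : Continuous fun ζ : Pt d => dot ζ y := by
  unfold dot
  fun_prop

theorem dot_cont2 {d : ℕ} (ζ : Pt d) : Continuous fun y : Pt d => dot ζ y := by
  unfold dot
  fun_prop

theorem norm_exp (r : ℝ) : ‖Complex.exp (-(Complex.I * (r : ℂ)))‖ = 1 := by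
  have h : -(Complex.I * (r : ℂ)) = ((-r : ℝ) : ℂ) * Complex.I := by
    push_cast
    ring
  rw [h, Complex.norm_exp_ofReal_mul_I]

end CONT_

open CONT_ in
theorem p_CONT : T_CONT := by
  intro d α β γ f hf
  unfold extension
  refine continuous_of_dominated (bound := fun ζ => ‖f ζ‖) ?_ ?_ hf.norm ?_
  · intro y
    refine hf.aestronglyMeasurable.mul ?_
    exact (Complex.continuous_exp.comp ((continuous_const.mul
      (Complex.continuous_ofReal.comp (dot_cont1 y))).neg)).aestronglyMeasurable
  · intro y
    filter_upwards with ζ
    rw [norm_mul, norm_exp, mul_one]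
  · filter_upwards with ζ
    exact continuous_const.mul (Complex.continuous_exp.comp ((continuous_const.mul
      (Complex.continuous_ofReal.comp (dot_cont2 ζ))).neg))

end Pool.Agent.SymM
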