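import Pool.Agent.SymM.Targets

set_option autoImplicit false

/-!
# The equality case
-/

noncomputable section

open MeasureTheory Set Filter
open scoped ENNReal RealInnerProductSpace Topology ComplexConjugate

namespace Pool.Agent.SymM

open Pool.Agent.ExpMax

namespace EQ_

theorem conv_le {q θ x z : ℝ} (hq : 1 < q) (h0 : 0 < θ) (h1 : θ < 1) (hx : 0 ≤ x) (hz : 0 ≤ z) :
    (θ * x + (1 - θ) * z) ^ q ≤ θ * x ^ q + (1 - θ) * z ^ q := by
  have h := (strictConvexOn_rpow hq).convexOn.2 (show x ∈ Ici (0 : ℝ) from hx)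
    (show z ∈ Ici (0 : ℝ) from hz) h0.le (by linarith : (0 : ℝ) ≤ 1 - θ) (by ring)
  simpa only [smul_eq_mul] using h

theorem conv_eq {q θ x z : ℝ} (hq : 1 < q) (h0 : 0 < θ) (h1 : θ < 1) (hx : 0 ≤ x) (hz : 0 ≤ z)
    (h : (θ * x + (1 - θ) * z) ^ q = θ * x ^ q + (1 - θ) * z ^ q) : x = z := by
  by_contra hne
  have h' := (strictConvexOn_rpow hq).2 (show x ∈ Ici (0 : ℝ) from hx)
    (show z ∈ Ici (0 : ℝ) from hz) hne h0 (by linarith : (0 : ℝ) < 1 - θ) (by ring)
  simp only [smul_eq_mul] at h'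
  linarith

theorem sq_rpow_half (u p : ℝ) : (u ^ 2) ^ (p / 2) = |u| ^ p := by
  rw [← sq_abs, ← Real.rpow_natCast, ← Real.rpow_mul (abs_nonneg u)]
  congr 1
  push_cast
  ring

theorem enorm_rpow (u p : ℝ) (hp : 0 ≤ p) : ‖u‖ₑ ^ p = ENNReal.ofReal (|u| ^ p) := by
  rw [Real.enorm_eq_ofReal_abs, ENNReal.ofReal_rpow_of_nonneg (abs_nonneg u) hp]

theorem ae_eq_real {Y : Type*} [MeasurableSpace Y] (ν : Measure Y) (f g : Y → ℝ)
    (hf0 : ∀ y, 0 ≤ f y) (hfg : ∀ y, f y ≤ g y) (hg : Measurable g)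
    (hfin : ∫⁻ y, ENNReal.ofReal (f y) ∂ν ≠ ∞)
    (hle : ∫⁻ y, ENNReal.ofReal (g y) ∂ν ≤ ∫⁻ y, ENNReal.ofReal (f y) ∂ν) :
    ∀ᵐ y ∂ν, f y = g y := by
  have h := ae_eq_of_ae_le_of_lintegral_le (μ := ν) (f := fun y => ENNReal.ofReal (f y))
    (g := fun y => ENNReal.ofReal (g y))
    (Eventually.of_forall fun y => ENNReal.ofReal_le_ofReal (hfg y)) hfin
    hg.ennreal_ofReal.aemeasurable hle
  filter_upwards [h] with y hy
  exact (ENNReal.ofReal_eq_ofReal_iff (hf0 y) ((hf0 y).trans (hfg y))).1 hy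

end EQ_

open EQ_ in
theorem p_EQ : T_EQ := by
  intro Y _ ν p a b M U V hU hV hp ha hb hM h1 h2 h3 h4 h5
  have hq : 1 < p / 2 := by linarith
  have hp0 : 0 ≤ p := by linarith
  set q := p / 2 with hqd
  set θ := a / (a + b) with hθ
  have hab : 0 < a + b := by linarith
  have hθ0 : 0 < θ := div_pos ha hab
  have hθ1 : θ < 1 := by rw [hθ, div_lt_one hab]; linarith
  have hθ' : 1 - θ = b / (a + b) := by
    rw [hθ]
    field_simp
    ring
  have hJ : ∫⁻ y, ENNReal.ofReal ((U y ^ 2 + V y ^ 2) ^ q) ∂ν ≠ ∞ := by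
    rw [h5]
    exact (ENNReal.mul_lt_top hM ENNReal.ofReal_lt_top).ne
  have hf0 : ∀ y, 0 ≤ (U y ^ 2 + V y ^ 2) ^ q := fun y => by positivity
  -- first comparison
  have e1 : ∀ y, U y ^ 2 + V y ^ 2 = θ * (U y ^ 2 / θ) + (1 - θ) * (V y ^ 2 / (1 - θ)) := by
    intro y
    have : (1 : ℝ) - θ ≠ 0 := by linarith
    field_simp
  have e2 : ∀ x : ℝ, θ * (x ^ 2 / θ) ^ q = θ ^ (1 - q) * |x| ^ p := by
    intro x
    rw [Real.div_rpow (sq_nonneg x) hθ0.le, hqd, sq_rpow_half, ← hqd, Real.rpow_sub hθ0,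
      Real.rpow_one]
    ring
  have e3 : ∀ x : ℝ, (1 - θ) * (x ^ 2 / (1 - θ)) ^ q = (1 - θ) ^ (1 - q) * |x| ^ p := by
    intro x
    have h0 : (0 : ℝ) < 1 - θ := by linarith
    rw [Real.div_rpow (sq_nonneg x) h0.le, hqd, sq_rpow_half, ← hqd, Real.rpow_sub h0,
      Real.rpow_one]
    ring
  have h10 : (0 : ℝ) < 1 - θ := by linarith
  have A1 : ∀ᵐ y ∂ν, (U y ^ 2 + V y ^ 2) ^ q =
      θ ^ (1 - q) * |U y| ^ p + (1 - θ) ^ (1 - q) * |V y| ^ p := by
    apply ae_eq_real ν _ _ hf0 _ _ hJ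
    · -- integral
      have s1 : ∫⁻ y, ENNReal.ofReal (θ ^ (1 - q) * |U y| ^ p + (1 - θ) ^ (1 - q) * |V y| ^ p) ∂ν
          = ENNReal.ofReal (θ ^ (1 - q)) * ∫⁻ y, ‖U y‖ₑ ^ p ∂ν +
            ENNReal.ofReal ((1 - θ) ^ (1 - q)) * ∫⁻ y, ‖V y‖ₑ ^ p ∂ν := by
        rw [← lintegral_const_mul _ (hU.enorm.pow_const p),
          ← lintegral_const_mul _ (hV.enorm.pow_const p),
          ← lintegral_add_left ((hU.enorm.pow_const p).const_mul _)]
        apply lintegral_congr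
        intro y
        rw [ENNReal.ofReal_add (by positivity) (by positivity), ENNReal.ofReal_mul (by positivity),
          ENNReal.ofReal_mul (by positivity), enorm_rpow _ _ hp0, enorm_rpow _ _ hp0]
      rw [s1, h5]
      calc ENNReal.ofReal (θ ^ (1 - q)) * ∫⁻ y, ‖U y‖ₑ ^ p ∂ν +
            ENNReal.ofReal ((1 - θ) ^ (1 - q)) * ∫⁻ y, ‖V y‖ₑ ^ p ∂ν
          ≤ ENNReal.ofReal (θ ^ (1 - q)) * (M * ENNReal.ofReal (a ^ q)) +
            ENNReal.ofReal ((1 - θ) ^ (1 - q)) * (M * ENNReal.ofReal (b ^ q)) := by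
            gcongr
        _ = M * (ENNReal.ofReal (θ ^ (1 - q)) * ENNReal.ofReal (a ^ q) +
            ENNReal.ofReal ((1 - θ) ^ (1 - q)) * ENNReal.ofReal (b ^ q)) := by ring
        _ = M * ENNReal.ofReal ((a + b) ^ q) := by
            rw [← ENNReal.ofReal_mul (by positivity), ← ENNReal.ofReal_mul (by positivity),
              ← ENNReal.ofReal_add (by positivity) (by positivity)]
            congr 2
            rw [hθ', hθ, Real.div_rpow ha.le hab.le, Real.div_rpow hb.le hab.le]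
            rw [Real.rpow_sub ha, Real.rpow_sub hb, Real.rpow_sub hab, Real.rpow_one,
              Real.rpow_one, Real.rpow_one]
            have ha' : 0 < a ^ q := Real.rpow_pos_of_pos ha q
            have hb' : 0 < b ^ q := Real.rpow_pos_of_pos hb q
            have hab' : 0 < (a + b) ^ q := Real.rpow_pos_of_pos hab q
            field_simp
        _ ≤ _ := le_rfl
    · intro y
      rw [← e2, ← e3]
      conv_lhs => rw [e1 y]
      exact conv_le hq hθ0 hθ1 (by positivity) (by positivity)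
    · have m1 : Measurable fun y => |U y| ^ p := (hU.abs).pow_const p
      have m2 : Measurable fun y => |V y| ^ p := (hV.abs).pow_const p
      exact (m1.const_mul _).add (m2.const_mul _)
  -- second comparison
  have A2 : ∀ᵐ y ∂ν, 2 * (U y ^ 2 + V y ^ 2) ^ q = |U y + V y| ^ p + |U y - V y| ^ p := by
    have hJ2 : ∫⁻ y, ENNReal.ofReal (2 * (U y ^ 2 + V y ^ 2) ^ q) ∂ν =
        2 * (M * ENNReal.ofReal ((a + b) ^ q)) := by
      rw [← h5, ← lintegral_const_mul]
      · apply lintegral_congr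
        intro y
        rw [ENNReal.ofReal_mul (by norm_num)]
        simp
      · exact (((hU.pow_const 2).add (hV.pow_const 2)).pow_const q).ennreal_ofReal
    apply ae_eq_real ν _ _ (fun y => by positivity)
    · intro y
      have t := conv_le hq (show (0 : ℝ) < 1 / 2 by norm_num) (show (1 / 2 : ℝ) < 1 by norm_num)
        (sq_nonneg (U y + V y)) (sq_nonneg (U y - V y))
      have t2 : (1 / 2 : ℝ) * (U y + V y) ^ 2 + (1 - 1 / 2) * (U y - V y) ^ 2 =
          U y ^ 2 + V y ^ 2 := by ring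
      rw [t2, hqd, sq_rpow_half, sq_rpow_half] at t
      rw [hqd]
      linarith
    · exact (((hU.add hV).abs).pow_const p).add (((hU.sub hV).abs).pow_const p)
    · rw [hJ2]
      exact (ENNReal.mul_lt_top (by simp) (ENNReal.mul_lt_top hM ENNReal.ofReal_lt_top)).ne
    · rw [hJ2]
      have s1 : ∫⁻ y, ENNReal.ofReal (|U y + V y| ^ p + |U y - V y| ^ p) ∂ν
          = ∫⁻ y, ‖U y + V y‖ₑ ^ p ∂ν + ∫⁻ y, ‖U y - V y‖ₑ ^ p ∂ν := by
        have m3 : Measurable fun y => ‖U y + V y‖ₑ ^ p := (hU.add hV).enorm.pow_const p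
        rw [← lintegral_add_left m3]
        apply lintegral_congr
        intro y
        rw [ENNReal.ofReal_add (by positivity) (by positivity), enorm_rpow _ _ hp0,
          enorm_rpow _ _ hp0]
      rw [s1, two_mul]
      exact add_le_add h3 h4
  have A3 : ∀ᵐ y ∂ν, ENNReal.ofReal ((U y ^ 2 + V y ^ 2) ^ q) = 0 := by
    filter_upwards [A1, A2] with y hy1 hy2
    have c1 : U y ^ 2 / θ = V y ^ 2 / (1 - θ) := by
      apply conv_eq hq hθ0 hθ1 (by positivity) (by positivity)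
      rw [e2, e3, ← e1 y, hy1]
    have c2 : (U y + V y) ^ 2 = (U y - V y) ^ 2 := by
      apply conv_eq hq (show (0 : ℝ) < 1 / 2 by norm_num) (show (1 / 2 : ℝ) < 1 by norm_num)
        (sq_nonneg _) (sq_nonneg _)
      have t2 : (1 / 2 : ℝ) * (U y + V y) ^ 2 + (1 - 1 / 2) * (U y - V y) ^ 2 =
          U y ^ 2 + V y ^ 2 := by ring
      rw [t2, hqd, sq_rpow_half, sq_rpow_half]
      rw [hqd] at hy2
      linarith
    have c3 : U y * V y = 0 := by nlinarith only [c2]
    have c4 : U y = 0 ∧ V y = 0 := by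
      rcases mul_eq_zero.1 c3 with h | h
      · refine ⟨h, ?_⟩
        rw [h] at c1
        have : V y ^ 2 / (1 - θ) = 0 := by rw [← c1]; simp
        rcases div_eq_zero_iff.1 this with h' | h'
        · exact pow_eq_zero_iff (two_ne_zero) |>.1 h'
        · exact absurd h' h10.ne'
      · refine ⟨?_, h⟩
        rw [h] at c1
        have : U y ^ 2 / θ = 0 := by rw [c1]; simp
        rcases div_eq_zero_iff.1 this with h' | h'
        · exact pow_eq_zero_iff (two_ne_zero) |>.1 h'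
        · exact absurd h' hθ0.ne'
    rw [c4.1, c4.2]
    have : ((0 : ℝ) ^ 2 + 0 ^ 2) ^ q = 0 := by
      rw [show ((0 : ℝ) ^ 2 + 0 ^ 2) = 0 by norm_num]
      exact Real.zero_rpow (by linarith)
    rw [this, ENNReal.ofReal_zero]
  have hz : ∫⁻ y, ENNReal.ofReal ((U y ^ 2 + V y ^ 2) ^ q) ∂ν = 0 := by
    rw [lintegral_congr_ae A3]
    simp
  rw [h5] at hz
  rcases mul_eq_zero.1 hz with h | h
  · exact h
  · exfalso
    rw [ENNReal.ofReal_eq_zero] at h
    exact absurd (Real.rpow_pos_of_pos hab q) (not_lt.2 h)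

end Pool.Agent.SymM
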