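import Pool.Agent.SymM.Targets

set_option autoImplicit false

noncomputable section

open MeasureTheory Set Filter
open scoped ENNReal RealInnerProductSpace Topology

namespace Pool.Agent.SymM
namespace LONE_

open Pool.Agent.ExpMax

/-- the comparison function -/
def psi (k x : ℝ) : ℝ := |x| ^ (-(1 / 2) : ℝ) * Real.exp (-(k * |x|))

theorem psi_nonneg (k x : ℝ) : 0 ≤ psi k x := by
  unfold psi; positivity

theorem psi_integrable (k : ℝ) (hk : 0 < k) : Integrable (psi k) := by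
  have h1 : IntegrableOn (fun x : ℝ => x ^ (-(1 / 2) : ℝ) * Real.exp (-k * x ^ (1 : ℝ)))
      (Ioi 0) := integrableOn_rpow_mul_exp_neg_mul_rpow (by norm_num) (by norm_num) hk
  have h2 : IntegrableOn (psi k) (Ioi 0) := by
    refine h1.congr_fun ?_ measurableSet_Ioi
    intro x hx
    have hx0 : (0 : ℝ) < x := hx
    simp only [psi, Real.rpow_one, abs_of_pos hx0]
    congr 2
    ring
  have h3 : Integrable (indicator (Ioi 0) (psi k)) := (integrable_indicator_iff measurableSet_Ioi).2 h2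
  have h4 := h3.comp_neg
  have h5 : psi k = fun x => indicator (Ioi 0) (psi k) x + indicator (Ioi 0) (psi k) (-x) := by
    funext x
    rcases lt_trichotomy x 0 with h | h | h
    · have ha : x ∉ Ioi (0 : ℝ) := by simp [h.le]
      have hb : -x ∈ Ioi (0 : ℝ) := by simp [h]
      rw [indicator_of_notMem ha, indicator_of_mem hb]
      simp [psi]
    · subst h
      have h0 : psi k 0 = 0 := by
        unfold psi
        rw [abs_zero, Real.zero_rpow (by norm_num)]; ring
      simp [h0]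
    · have ha : x ∈ Ioi (0 : ℝ) := by simp [h]
      have hb : -x ∉ Ioi (0 : ℝ) := by simp [h.le]
      rw [indicator_of_mem ha, indicator_of_notMem hb]
      simp
  rw [h5]
  exact h3.add h4

/-- the sum of the two translates -/
def psi2 (k s₀ R s : ℝ) : ℝ := psi k (s - (s₀ + R)) + psi k (s - (s₀ - R))

theorem psi2_integrable (k s₀ R : ℝ) (hk : 0 < k) : Integrable (psi2 k s₀ R) := by
  have h := psi_integrable k hk
  exact (h.comp_sub_right (s₀ + R)).add (h.comp_sub_right (s₀ - R))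

theorem psi_le_psi2 (k s₀ R s : ℝ) : psi k (|s - s₀| - R) ≤ psi2 k s₀ R s := by
  unfold psi2
  rcases le_total 0 (s - s₀) with h | h
  · rw [abs_of_nonneg h]
    have : s - (s₀ + R) = s - s₀ - R := by ring
    rw [this]
    linarith [psi_nonneg k (s - (s₀ - R))]
  · rw [abs_of_nonpos h]
    have h1 : psi k (-(s - s₀) - R) = psi k (s - (s₀ - R)) := by
      unfold psi
      have : -(s - s₀) - R = -(s - (s₀ - R)) := by ring
      rw [this, abs_neg]
    rw [h1]
    linarith [psi_nonneg k (s - (s₀ + R))]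

/-- the first coordinate -/
def tau (α β γ s : ℝ) : ℝ := -(γ * α) / (α ^ 2 + β ^ 2) - s * β / √(α ^ 2 + β ^ 2)

theorem Q_formula (α β γ s n D : ℝ) (hn : n = √(α ^ 2 + β ^ 2)) (hD : D = α ^ 2 - β ^ 2)
    (hn0 : 0 < n) (hD0 : D ≠ 0) :
    Q α β γ s = D / n ^ 2 * ((γ * n / D) ^ 2 - (s - 2 * γ * α * β / (n * D)) ^ 2) := by
  have hn2 : α ^ 2 + β ^ 2 = n ^ 2 := by
    rw [hn, Real.sq_sqrt (by positivity)]
  unfold Q
  rw [← hn, hn2]
  have hne : n ≠ 0 := hn0.ne'
  field_simp
  subst hD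
  have h4 : n ^ 4 = (α ^ 2 + β ^ 2) ^ 2 := by rw [hn2]; ring
  have h2 : n ^ 2 = α ^ 2 + β ^ 2 := hn2.symm
  ring_nf
  nlinarith [h4, h2]

theorem key (α β γ κ n D s₀ R : ℝ) (m : ℕ) (hn : n = √(α ^ 2 + β ^ 2)) (hD : D = α ^ 2 - β ^ 2)
    (hn0 : 0 < n) (hD0 : D ≠ 0) (hκ : 0 < κ) (hs₀ : s₀ = 2 * γ * α * β / (n * D))
    (hR : R = |γ * n / D|) (hR0 : 0 < R) :
    ∃ C k : ℝ, 0 ≤ C ∧ 0 < k ∧ ∀ s, 0 < Q α β γ s →
      (|s - s₀| + R) ^ m * Real.exp (-(κ * |tau α β γ s|)) ≤ C * Real.exp (-(k * |s - s₀|)) := by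
  rcases lt_or_gt_of_ne hD0 with hD1 | hD1
  · -- D < 0
    have hβ : 0 < |β| := by
      rw [abs_pos]; intro h; subst h
      rw [hD] at hD1; nlinarith [sq_nonneg α]
    set c : ℝ := |β| / n with hc
    have hc0 : 0 < c := div_pos hβ hn0
    set C₁ : ℝ := c * |s₀| + |γ * α / (α ^ 2 + β ^ 2)| with hC₁
    have hτ : ∀ s, c * |s - s₀| - C₁ ≤ |tau α β γ s| := by
      intro s
      have h1 : |s * β / n| ≤ |tau α β γ s| + |γ * α / (α ^ 2 + β ^ 2)| := by
        have : s * β / n = -(tau α β γ s) - γ * α / (α ^ 2 + β ^ 2) := by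
          unfold tau; rw [← hn]; ring
        rw [this]
        calc |-(tau α β γ s) - γ * α / (α ^ 2 + β ^ 2)|
            ≤ |-(tau α β γ s)| + |γ * α / (α ^ 2 + β ^ 2)| := abs_sub _ _
          _ = _ := by rw [abs_neg]
      have h2 : |s * β / n| = c * |s| := by
        rw [abs_div, abs_mul, abs_of_pos hn0, hc]; ring
      have h3 : |s - s₀| ≤ |s| + |s₀| := abs_sub _ _
      have h4 : c * |s - s₀| ≤ c * |s| + c * |s₀| := by
        rw [← mul_add]; exact mul_le_mul_of_nonneg_left h3 hc0.le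
      rw [hC₁]; linarith
    set k : ℝ := κ * c / 2 with hk
    have hk0 : 0 < k := by positivity
    refine ⟨Real.exp (κ * C₁) * ((m.factorial : ℝ) / k ^ m * Real.exp (k * R)), k, by positivity,
      hk0, ?_⟩
    intro s _
    set h : ℝ := |s - s₀| with hh
    have hh0 : 0 ≤ h := abs_nonneg _
    have e1 : (h + R) ^ m ≤ (m.factorial : ℝ) / k ^ m * Real.exp (k * (h + R)) := by
      have := Real.pow_div_factorial_le_exp (k * (h + R)) (by positivity) m
      rw [div_le_iff₀ (by positivity), mul_pow] at this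
      have hkm : 0 < k ^ m := by positivity
      rw [div_mul_eq_mul_div, le_div_iff₀ hkm]
      nlinarith
    have e2 : Real.exp (-(κ * |tau α β γ s|)) ≤ Real.exp (κ * C₁) * Real.exp (-(2 * k * h)) := by
      rw [← Real.exp_add]
      apply Real.exp_le_exp.2
      have := mul_le_mul_of_nonneg_left (hτ s) hκ.le
      have h5 : 2 * k * h = κ * (c * h) := by rw [hk]; ring
      rw [h5]
      nlinarith
    calc (h + R) ^ m * Real.exp (-(κ * |tau α β γ s|))
        ≤ ((m.factorial : ℝ) / k ^ m * Real.exp (k * (h + R))) *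
          (Real.exp (κ * C₁) * Real.exp (-(2 * k * h))) :=
          mul_le_mul e1 e2 (Real.exp_nonneg _) (by positivity)
      _ = Real.exp (κ * C₁) * ((m.factorial : ℝ) / k ^ m * Real.exp (k * R)) *
          Real.exp (-(k * h)) := by
          have : Real.exp (k * (h + R)) * Real.exp (-(2 * k * h)) =
              Real.exp (k * R) * Real.exp (-(k * h)) := by
            rw [← Real.exp_add, ← Real.exp_add]; congr 1; ring
          calc _ = Real.exp (κ * C₁) * ((m.factorial : ℝ) / k ^ m) *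
                (Real.exp (k * (h + R)) * Real.exp (-(2 * k * h))) := by ring
            _ = _ := by rw [this]; ring
  · -- D > 0
    refine ⟨(2 * R) ^ m * Real.exp R, 1, by positivity, one_pos, ?_⟩
    intro s hs
    rw [Q_formula α β γ s n D hn hD hn0 hD0, ← hs₀] at hs
    have hpos : 0 < D / n ^ 2 := by positivity
    have h1 : 0 < (γ * n / D) ^ 2 - (s - s₀) ^ 2 := by
      by_contra hcon
      push Not at hcon
      nlinarith [mul_nonneg hpos.le (sub_nonneg.2 hcon)]
    have h2 : |s - s₀| < R := by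
      rw [hR]; exact sq_lt_sq.1 (by linarith)
    have h0 : 0 ≤ |s - s₀| := abs_nonneg _
    have e1 : (|s - s₀| + R) ^ m ≤ (2 * R) ^ m := by
      apply pow_le_pow_left₀ (by positivity); linarith
    have e2 : Real.exp (-(κ * |tau α β γ s|)) ≤ 1 := by
      rw [Real.exp_le_one_iff]
      have : 0 ≤ κ * |tau α β γ s| := by positivity
      linarith
    have e3 : 1 ≤ Real.exp R * Real.exp (-(1 * |s - s₀|)) := by
      rw [← Real.exp_add]
      apply Real.one_le_exp
      linarith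
    calc (|s - s₀| + R) ^ m * Real.exp (-(κ * |tau α β γ s|))
        ≤ (2 * R) ^ m * 1 := mul_le_mul e1 e2 (Real.exp_nonneg _) (by positivity)
      _ ≤ (2 * R) ^ m * (Real.exp R * Real.exp (-(1 * |s - s₀|))) :=
          mul_le_mul_of_nonneg_left e3 (by positivity)
      _ = _ := by ring

theorem bound (d : ℕ) (α β γ κ n D s₀ R : ℝ) (hd : 1 ≤ d) (hn : n = √(α ^ 2 + β ^ 2))
    (hD : D = α ^ 2 - β ^ 2)
    (hn0 : 0 < n) (hD0 : D ≠ 0) (hκ : 0 < κ) (hs₀ : s₀ = 2 * γ * α * β / (n * D))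
    (hR : R = |γ * n / D|) (hR0 : 0 < R) :
    ∃ C k : ℝ, 0 ≤ C ∧ 0 < k ∧ ∀ s, 0 < Q α β γ s →
      Q α β γ s ^ (((d : ℝ) - 2) / 2) * Real.exp (-(κ * |tau α β γ s|)) ≤
        C * psi2 k s₀ R s := by
  obtain ⟨C, k, hC, hk, hkey⟩ := key α β γ κ n D s₀ R (d - 1) hn hD hn0 hD0 hκ hs₀ hR hR0
  set b : ℝ := |D / n ^ 2| with hb
  have hb0 : 0 < b := by
    rw [hb, abs_pos]; positivity
  refine ⟨b ^ (((d : ℝ) - 1) / 2) * (b * R) ^ (-(1 / 2) : ℝ) * (C * Real.exp (k * R)), k,
    by positivity, hk, ?_⟩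
  intro s hs
  set h : ℝ := |s - s₀| with hh
  have hh0 : 0 ≤ h := abs_nonneg _
  set u : ℝ := |h - R| with hu
  have hu0 : 0 ≤ u := abs_nonneg _
  have hQ : Q α β γ s = b * (u * (h + R)) := by
    have h1 : Q α β γ s = |Q α β γ s| := (abs_of_pos hs).symm
    rw [h1, Q_formula α β γ s n D hn hD hn0 hD0, ← hs₀, abs_mul, ← hb]
    congr 1
    have h2 : (γ * n / D) ^ 2 - (s - s₀) ^ 2 = -((h - R) * (h + R)) := by
      have h3 : (γ * n / D) ^ 2 = R ^ 2 := by rw [hR, sq_abs]
      have h4 : (s - s₀) ^ 2 = h ^ 2 := by rw [hh, sq_abs]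
      rw [h3, h4]; ring
    rw [h2, abs_neg, abs_mul, abs_of_nonneg (by positivity : 0 ≤ h + R)]
  have hu1 : 0 < u := by
    rcases hu0.lt_or_eq with h1 | h1
    · exact h1
    · rw [hQ, ← h1] at hs; simp at hs
  have huh : u ≤ h + R := by
    rw [hu, abs_le]; constructor <;> linarith
  have hpow : Q α β γ s ^ (((d : ℝ) - 2) / 2) =
      Q α β γ s ^ (-(1 / 2) : ℝ) * Q α β γ s ^ (((d : ℝ) - 1) / 2) := by
    rw [← Real.rpow_add hs]; congr 1; ring
  have e1 : Q α β γ s ^ (-(1 / 2) : ℝ) ≤ (b * R) ^ (-(1 / 2) : ℝ) * u ^ (-(1 / 2) : ℝ) := by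
    rw [← Real.mul_rpow (by positivity) hu0]
    apply Real.rpow_le_rpow_of_nonpos (by positivity) _ (by norm_num)
    rw [hQ]
    have : R ≤ h + R := by linarith
    have h6 : 0 ≤ b * u := by positivity
    nlinarith [mul_le_mul_of_nonneg_left this h6]
  have hd1 : (0 : ℝ) ≤ ((d : ℝ) - 1) / 2 := by
    have : (1 : ℝ) ≤ (d : ℝ) := by exact_mod_cast hd
    linarith
  have e2 : Q α β γ s ^ (((d : ℝ) - 1) / 2) ≤ b ^ (((d : ℝ) - 1) / 2) * (h + R) ^ (d - 1) := by
    have h7 : Q α β γ s ≤ b * ((h + R) ^ 2) := by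
      rw [hQ]
      have : u * (h + R) ≤ (h + R) ^ 2 := by nlinarith
      exact mul_le_mul_of_nonneg_left this hb0.le
    have h8 : ((h + R) ^ 2) ^ (((d : ℝ) - 1) / 2) = (h + R) ^ (d - 1) := by
      rw [← Real.rpow_natCast (h + R) 2, ← Real.rpow_mul (by positivity),
        ← Real.rpow_natCast (h + R) (d - 1), Nat.cast_sub hd]
      congr 1
      push_cast
      ring
    calc Q α β γ s ^ (((d : ℝ) - 1) / 2) ≤ (b * ((h + R) ^ 2)) ^ (((d : ℝ) - 1) / 2) :=
          Real.rpow_le_rpow hs.le h7 hd1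
      _ = b ^ (((d : ℝ) - 1) / 2) * (h + R) ^ (d - 1) := by
          rw [Real.mul_rpow hb0.le (by positivity), h8]
  have e3 : Real.exp (-(k * h)) ≤ Real.exp (k * R) * Real.exp (-(k * u)) := by
    rw [← Real.exp_add]
    apply Real.exp_le_exp.2
    nlinarith
  have e4 : u ^ (-(1 / 2) : ℝ) * Real.exp (-(k * u)) ≤ psi2 k s₀ R s := by
    have h9 := psi_le_psi2 k s₀ R s
    unfold psi at h9
    rw [← hh, ← hu] at h9
    exact h9
  have hk1 := hkey s hs
  calc Q α β γ s ^ (((d : ℝ) - 2) / 2) * Real.exp (-(κ * |tau α β γ s|))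
      = Q α β γ s ^ (-(1 / 2) : ℝ) * Q α β γ s ^ (((d : ℝ) - 1) / 2) *
          Real.exp (-(κ * |tau α β γ s|)) := by rw [hpow]
    _ ≤ ((b * R) ^ (-(1 / 2) : ℝ) * u ^ (-(1 / 2) : ℝ)) *
          (b ^ (((d : ℝ) - 1) / 2) * (h + R) ^ (d - 1)) * Real.exp (-(κ * |tau α β γ s|)) := by
          gcongr
    _ = b ^ (((d : ℝ) - 1) / 2) * (b * R) ^ (-(1 / 2) : ℝ) * u ^ (-(1 / 2) : ℝ) *
          ((h + R) ^ (d - 1) * Real.exp (-(κ * |tau α β γ s|))) := by ring
    _ ≤ b ^ (((d : ℝ) - 1) / 2) * (b * R) ^ (-(1 / 2) : ℝ) * u ^ (-(1 / 2) : ℝ) *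
          (C * (Real.exp (k * R) * Real.exp (-(k * u)))) := by
          apply mul_le_mul_of_nonneg_left _ (by positivity)
          exact hk1.trans (mul_le_mul_of_nonneg_left e3 hC)
    _ = b ^ (((d : ℝ) - 1) / 2) * (b * R) ^ (-(1 / 2) : ℝ) * (C * Real.exp (k * R)) *
          (u ^ (-(1 / 2) : ℝ) * Real.exp (-(k * u))) := by ring
    _ ≤ _ := mul_le_mul_of_nonneg_left e4 (by positivity)

theorem continuous_tau (α β γ : ℝ) : Continuous (tau α β γ) := by
  unfold tau; fun_prop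

theorem continuous_Q (α β γ : ℝ) : Continuous (Q α β γ) := by
  unfold Q; fun_prop

theorem measurable_conePt (α β γ : ℝ) (d : ℕ) :
    Measurable (fun x : ℝ × Metric.sphere (0 : Ed d) 1 => conePt α β γ x.1 x.2) := by
  apply Continuous.measurable
  unfold conePt planePt
  have hQ := continuous_Q α β γ
  fun_prop

end LONE_

open Pool.Agent.ExpMax in
theorem p_LONE : T_LONE := by
  intro d α β γ κ hd hαβ hγ hκ
  have hne : α ^ 2 + β ^ 2 ≠ 0 := by
    intro h
    have h1 : α = 0 := by nlinarith [sq_nonneg α, sq_nonneg β]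
    have h2 : β = 0 := by nlinarith [sq_nonneg α, sq_nonneg β]
    subst h1; subst h2; exact hαβ rfl
  have hpos : 0 < α ^ 2 + β ^ 2 := lt_of_le_of_ne (by positivity) hne.symm
  set n : ℝ := √(α ^ 2 + β ^ 2) with hn
  have hn0 : 0 < n := Real.sqrt_pos.2 hpos
  set D : ℝ := α ^ 2 - β ^ 2 with hD
  have hD0 : D ≠ 0 := by
    intro h
    exact hαβ ((sq_eq_sq_iff_abs_eq_abs α β).1 (by linarith))
  obtain ⟨C, k, hC, hk, hbd⟩ := LONE_.bound d α β γ κ n D (2 * γ * α * β / (n * D))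
    |γ * n / D| hd hn hD hn0 hD0 hκ rfl rfl (by rw [abs_pos]; positivity)
  unfold sectionMeasure
  refine Integrable.smul_measure ?_ ENNReal.ofReal_ne_top
  have hmeas : AEStronglyMeasurable (fun ζ : Pt d => Real.exp (-(κ * |ζ.1|)))
      (Measure.map (fun x : ℝ × Metric.sphere (0 : Ed d) 1 => conePt α β γ x.1 x.2)
      (((volume.restrict {s : ℝ | 0 < Q α β γ s}).withDensity
        (fun s => ENNReal.ofReal (Q α β γ s ^ (((d : ℝ) - 2) / 2)))).prod
        (volume : Measure (Ed d)).toSphere)) := by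
    apply Continuous.aestronglyMeasurable; fun_prop
  rw [integrable_map_measure hmeas (LONE_.measurable_conePt α β γ d).aemeasurable]
  have hcomp : ((fun ζ : Pt d => Real.exp (-(κ * |ζ.1|))) ∘
      fun x : ℝ × Metric.sphere (0 : Ed d) 1 => conePt α β γ x.1 x.2) =
      fun x => (fun s => Real.exp (-(κ * |LONE_.tau α β γ s|))) x.1 := by
    funext x; rfl
  rw [hcomp]
  refine Integrable.comp_fst (f := fun s => Real.exp (-(κ * |LONE_.tau α β γ s|))) ?_ _
  have hQm : Measurable (fun s => ENNReal.ofReal (Q α β γ s ^ (((d : ℝ) - 2) / 2))) := by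
    have := (LONE_.continuous_Q α β γ).measurable
    fun_prop
  rw [integrable_withDensity_iff_integrable_smul' hQm
    (Eventually.of_forall fun _ => ENNReal.ofReal_lt_top)]
  have hset : MeasurableSet {s : ℝ | 0 < Q α β γ s} :=
    measurableSet_lt measurable_const (LONE_.continuous_Q α β γ).measurable
  have hdom : Integrable (fun s => C * LONE_.psi2 k (2 * γ * α * β / (n * D)) |γ * n / D| s)
      (volume.restrict {s : ℝ | 0 < Q α β γ s}) :=
    ((LONE_.psi2_integrable k _ _ hk).const_mul C).restrict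
  refine hdom.mono' ?_ ?_
  · apply Measurable.aestronglyMeasurable
    have h1 := (LONE_.continuous_tau α β γ).measurable
    exact (hQm.ennreal_toReal).smul (by fun_prop)
  · refine (ae_restrict_iff' hset).2 (Eventually.of_forall ?_)
    intro s hs
    have hs' : 0 < Q α β γ s := hs
    rw [ENNReal.toReal_ofReal (by positivity), smul_eq_mul, Real.norm_eq_abs,
      abs_of_nonneg (by positivity)]
    exact hbd s hs'

end Pool.Agent.SymM
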