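import Pool.Agent.SymM.Targets

set_option autoImplicit false

/-! OBL: no maximizer on the oblique sections. -/

noncomputable section

open MeasureTheory Set Filter
open scoped ENNReal RealInnerProductSpace Topology ComplexConjugate

namespace Pool.Agent.SymM

open Pool.Agent.ExpMax

namespace OBL_

/-- The set where `τ` has a given value is a null set. -/
lemma null_set (d : ℕ) (α β γ k : ℝ) (hβ : β ≠ 0) :
    sectionMeasure α β γ d {ζ : Pt d | ζ.1 = k} = 0 := by
  have hn : 0 < √(α ^ 2 + β ^ 2) := Real.sqrt_pos.mpr (by positivity)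
  have hmeas : MeasurableSet {ζ : Pt d | ζ.1 = k} :=
    measurableSet_eq_fun measurable_fst measurable_const
  unfold sectionMeasure
  rw [Measure.smul_apply, smul_eq_mul]
  apply mul_eq_zero_of_right
  by_cases hm : AEMeasurable (fun x : ℝ × Metric.sphere (0 : Ed d) 1 => conePt α β γ x.1 x.2)
      (((volume.restrict {s : ℝ | 0 < Q α β γ s}).withDensity
        (fun s => ENNReal.ofReal (Q α β γ s ^ (((d : ℝ) - 2) / 2)))).prod
        (volume : Measure (Ed d)).toSphere)
  · rw [Measure.map_apply_of_aemeasurable hm hmeas]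
    set s1 : ℝ := (-(γ * α) / (α ^ 2 + β ^ 2) - k) * √(α ^ 2 + β ^ 2) / β with hs1
    have hsub : (fun x : ℝ × Metric.sphere (0 : Ed d) 1 => conePt α β γ x.1 x.2) ⁻¹'
        {ζ : Pt d | ζ.1 = k} ⊆ {s1} ×ˢ univ := by
      rintro ⟨s, ω⟩ h
      have h1 : -(γ * α) / (α ^ 2 + β ^ 2) - s * β / √(α ^ 2 + β ^ 2) = k := h
      refine ⟨?_, mem_univ _⟩
      show s = s1
      rw [hs1, ← h1]
      field_simp
      ring
    refine measure_mono_null hsub ?_
    rw [Measure.prod_prod]
    apply mul_eq_zero_of_left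
    apply withDensity_absolutelyContinuous
    apply Measure.absolutelyContinuous_of_le Measure.restrict_le_self
    simp
  · rw [Measure.map_of_not_aemeasurable hm]
    simp

end OBL_

open OBL_ in
theorem p_OBL (h1 : T_SYM) (h2 : T_LONE) : T_OBL := by
  intro d α β γ p hd hα hβ hγ hne hp hmax
  have hint : Integrable (expTau : Pt d → ℂ) (sectionMeasure α β γ d) := by
    have h := (h2 d α β γ 1 hd hne hγ one_pos).ofReal (𝕜 := ℂ)
    refine h.congr (Eventually.of_forall fun ζ => ?_)
    simp [expTau]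
  obtain ⟨θ, hθ, hae⟩ := h1 d α β γ p hd hne hp _ hint hmax
  have hdiff : α ^ 2 - β ^ 2 ≠ 0 := by
    intro h
    apply hne
    exact (sq_eq_sq_iff_abs_eq_abs α β).mp (by linarith)
  set K : ℝ := -(2 * (γ * α)) / (α ^ 2 - β ^ 2) with hK
  have hK0 : K ≠ 0 := by
    rw [hK]
    refine div_ne_zero ?_ hdiff
    simp [hα, hγ]
  have hval : ∀ᵐ ζ ∂(sectionMeasure α β γ d), ζ.1 = K / 2 := by
    filter_upwards [hae] with ζ hζ
    have h3 : ‖conj (expTau (refl α β γ ζ))‖ = ‖θ * expTau ζ‖ := by rw [hζ]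
    rw [norm_mul, hθ, one_mul, RCLike.norm_conj] at h3
    simp only [expTau, Complex.norm_real, Real.norm_eq_abs, Real.abs_exp] at h3
    have h4 : |(refl α β γ ζ).1| = |ζ.1| := by
      have := Real.exp_injective h3
      linarith
    have h5 : (refl α β γ ζ).1 = K - ζ.1 := rfl
    rw [h5, abs_eq_abs] at h4
    rcases h4 with h4 | h4
    · linarith
    · exact absurd (by linarith : K = 0) hK0
  have hnull : sectionMeasure α β γ d {ζ : Pt d | ζ.1 = K / 2} = 0 := null_set d α β γ _ hβ
  have hnot : ∀ᵐ ζ ∂(sectionMeasure α β γ d), ¬ ζ.1 = K / 2 := by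
    rw [ae_iff]
    simpa using hnull
  apply hmax.2.1
  filter_upwards [hval, hnot] with ζ h3 h4
  exact absurd h3 h4

end Pool.Agent.SymM
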