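import Pool.Agent.SymM.Targets

set_option autoImplicit false

/-!
# The best constant is positive
-/

noncomputable section

open MeasureTheory Set Filter
open scoped ENNReal RealInnerProductSpace Topology ComplexConjugate

namespace Pool.Agent.SymM

open Pool.Agent.ExpMax

namespace POS_

theorem cont_planePt (α β γ : ℝ) (d : ℕ) :
    Continuous (fun x : ℝ × Ed d => planePt α β γ x.1 x.2) := by
  unfold planePt
  fun_prop

theorem exists_set {X : Type*} [MeasurableSpace X] (μ : Measure X) (f : X → ℂ)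
    (hf : MemLp f 2 μ) (h0 : ¬ f =ᵐ[μ] 0) :
    ∃ B : Set X, MeasurableSet B ∧ 0 < μ B ∧ μ B < ∞ := by
  obtain ⟨g, hgm, hfg⟩ := hf.1
  have hg2 : MemLp g 2 μ := hf.ae_eq hfg
  have hg0 : ¬ g =ᵐ[μ] 0 := fun h => h0 (hfg.trans h)
  have hB : ∀ k : ℕ, MeasurableSet {x | ((1 / ((k : NNReal) + 1) : NNReal) : ℝ≥0∞) ≤ ‖g x‖ₑ} :=
    fun k => measurableSet_le measurable_const hgm.enorm
  have hU : {x | g x ≠ 0} ⊆ ⋃ k : ℕ, {x | ((1 / ((k : NNReal) + 1) : NNReal) : ℝ≥0∞) ≤ ‖g x‖ₑ} := by
    intro x hx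
    have hx' : (0 : ℝ) < ‖g x‖ := norm_pos_iff.2 hx
    obtain ⟨k, hk⟩ := exists_nat_one_div_lt hx'
    refine mem_iUnion.2 ⟨k, ?_⟩
    show ((1 / ((k : NNReal) + 1) : NNReal) : ℝ≥0∞) ≤ ‖g x‖ₑ
    rw [enorm_eq_nnnorm, ENNReal.coe_le_coe, ← NNReal.coe_le_coe]
    push_cast
    exact hk.le
  by_contra hcon
  push Not at hcon
  apply hg0
  have h1 : μ {x | g x ≠ 0} = 0 := by
    refine measure_mono_null hU ?_
    refine measure_iUnion_null fun k => ?_
    by_contra hk
    have h2 := hcon _ (hB k) (pos_iff_ne_zero.2 hk)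
    have h3 : μ {x | ((1 / ((k : NNReal) + 1) : NNReal) : ℝ≥0∞) ≤ ‖g x‖ₑ} < ∞ :=
      hg2.meas_ge_lt_top_enorm (by norm_num) (by norm_num) (by positivity)
    exact absurd h3 (not_lt.2 h2)
  exact h1

end POS_

open POS_ in
theorem p_POS (h : T_CONT) : T_POS := by
  intro d α β γ p hab hp f hf hf0
  set σ := sectionMeasure α β γ d with hσ
  obtain ⟨B, hBm, hB0, hB1⟩ := exists_set σ f hf hf0
  set y₀ : Pt d := planePt α β γ 0 0 with hy₀
  set e : Pt d → ℂ := fun ζ => Complex.exp (Complex.I * ((dot ζ y₀ : ℝ) : ℂ)) with he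
  have hen : ∀ ζ, ‖e ζ‖ = 1 := by
    intro ζ
    simp only [he]
    rw [mul_comm]
    exact Complex.norm_exp_ofReal_mul_I _
  have hec : Continuous e := by
    simp only [he, dot]
    fun_prop
  set g : Pt d → ℂ := B.indicator e with hg
  have : IsFiniteMeasure (σ.restrict B) := ⟨by rw [Measure.restrict_apply_univ]; exact hB1⟩
  have hg2 : MemLp g 2 σ := by
    rw [hg, memLp_indicator_iff_restrict hBm]
    exact MemLp.of_bound hec.aestronglyMeasurable 1 (Eventually.of_forall fun ζ => (hen ζ).le)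
  have hg1 : Integrable g σ := by
    rw [hg, integrable_indicator_iff hBm]
    exact Integrable.of_bound hec.aestronglyMeasurable 1 (Eventually.of_forall fun ζ => (hen ζ).le)
  have hext : extension α β γ g y₀ = ((σ.real B : ℝ) : ℂ) := by
    unfold extension
    have h1 : ∀ ζ : Pt d, g ζ * Complex.exp (-(Complex.I * ((dot ζ y₀ : ℝ) : ℂ))) =
        B.indicator (fun _ => (1 : ℂ)) ζ := by
      intro ζ
      by_cases hζ : ζ ∈ B
      · rw [hg, indicator_of_mem hζ, indicator_of_mem hζ]
        simp only [he]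
        rw [← Complex.exp_add]
        simp
      · rw [hg, indicator_of_notMem hζ, indicator_of_notMem hζ, zero_mul]
    rw [integral_congr_ae (Eventually.of_forall h1), integral_indicator hBm]
    rw [setIntegral_const, ← hσ]
    simp
  have hBr : 0 < σ.real B := by
    rw [Measure.real]
    exact ENNReal.toReal_pos hB0.ne' hB1.ne
  have hgne : ¬ g =ᵐ[σ] 0 := by
    intro h0
    have h1 : extension α β γ g y₀ = 0 := by
      unfold extension
      rw [← hσ]
      have h2 : (fun ζ : Pt d => g ζ * Complex.exp (-(Complex.I * ((dot ζ y₀ : ℝ) : ℂ))))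
          =ᵐ[σ] fun _ => 0 := by
        filter_upwards [h0] with ζ hζ
        rw [hζ]
        simp
      rw [integral_congr_ae h2]
      simp
    rw [hext] at h1
    exact hBr.ne' (by exact_mod_cast h1)
  set U : Set (Pt d) := {y | σ.real B / 2 < ‖extension α β γ g y‖} with hU
  have hΦ : Continuous (extension α β γ g) := h d α β γ g hg1
  have hUo : IsOpen U := isOpen_lt continuous_const hΦ.norm
  have hyU : y₀ ∈ U := by
    show σ.real B / 2 < ‖extension α β γ g y₀‖
    rw [hext, Complex.norm_real, Real.norm_eq_abs, abs_of_pos hBr]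
    linarith
  have hn0 : 0 < √(α ^ 2 + β ^ 2) := by
    apply Real.sqrt_pos.2
    by_cases hα : α = 0
    · have hβ : β ≠ 0 := by
        intro hβ
        exact hab (by rw [hα, hβ])
      positivity
    · positivity
  have hUpos : 0 < planeMeasure α β γ d U := by
    unfold planeMeasure
    rw [Measure.smul_apply, Measure.map_apply (cont_planePt α β γ d).measurable hUo.measurableSet,
      smul_eq_mul]
    refine ENNReal.mul_pos ?_ ?_
    · rw [Ne, ENNReal.ofReal_eq_zero, not_le]
      positivity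
    · have ho : IsOpen ((fun x : ℝ × Ed d => planePt α β γ x.1 x.2) ⁻¹' U) :=
        hUo.preimage (cont_planePt α β γ d)
      exact (ho.measure_pos volume ⟨(0, 0), hyU⟩).ne'
  have hnum : 0 < ∫⁻ y, ‖extension α β γ g y‖ₑ ^ p ∂(planeMeasure α β γ d) := by
    have h1 : ENNReal.ofReal (σ.real B / 2) ^ p * planeMeasure α β γ d U ≤
        ∫⁻ y, ‖extension α β γ g y‖ₑ ^ p ∂(planeMeasure α β γ d) := by
      calc ENNReal.ofReal (σ.real B / 2) ^ p * planeMeasure α β γ d U
          = ∫⁻ y in U, ENNReal.ofReal (σ.real B / 2) ^ p ∂(planeMeasure α β γ d) := by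
            rw [setLIntegral_const]
        _ ≤ ∫⁻ y in U, ‖extension α β γ g y‖ₑ ^ p ∂(planeMeasure α β γ d) := by
            apply setLIntegral_mono' hUo.measurableSet
            intro y hy
            apply ENNReal.rpow_le_rpow _ hp.le
            rw [← ofReal_norm]
            exact ENNReal.ofReal_le_ofReal (le_of_lt hy)
        _ ≤ _ := setLIntegral_le_lintegral _ _
    refine lt_of_lt_of_le (ENNReal.mul_pos ?_ hUpos.ne') h1
    have h2 : 0 < ENNReal.ofReal (σ.real B / 2) := by
      rw [ENNReal.ofReal_pos]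
      linarith
    exact (ENNReal.rpow_pos h2 ENNReal.ofReal_ne_top).ne'
  have hden : (∫⁻ ζ, ‖g ζ‖ₑ ^ (2 : ℝ) ∂σ) ^ (p / 2) ≠ ∞ := by
    apply ENNReal.rpow_ne_top_of_nonneg (by positivity)
    have h1 : ∫⁻ ζ, ‖g ζ‖ₑ ^ (2 : ℝ) ∂σ ≤ ∫⁻ ζ, B.indicator (fun _ => (1 : ℝ≥0∞)) ζ ∂σ := by
      apply lintegral_mono
      intro ζ
      by_cases hζ : ζ ∈ B
      · simp only [hg, indicator_of_mem hζ]
        rw [← ofReal_norm, hen]
        simp
      · simp only [hg, indicator_of_notMem hζ]
        simp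
    rw [lintegral_indicator_const hBm, one_mul] at h1
    exact (lt_of_le_of_lt h1 hB1).ne
  have hq : 0 < quotient α β γ p g := by
    unfold quotient
    exact ENNReal.div_pos hnum.ne' hden
  refine lt_of_lt_of_le hq ?_
  unfold bestConst
  exact le_iSup_of_le g (le_iSup_of_le hg2 (le_iSup_of_le hg1 (le_iSup_of_le hgne le_rfl)))

end Pool.Agent.SymM
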