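import Pool.Agent.SymM.Targets

set_option autoImplicit false

/-!
# The measure of a section is invariant under the point reflection in the center (job SymM-REFL)
-/

noncomputable section

open MeasureTheory Set Filter
open scoped ENNReal RealInnerProductSpace Topology ComplexConjugate Pointwise

namespace Pool.Agent.SymM

open Pool.Agent.ExpMax

namespace REFL_

theorem alg1 {n E α β γ s : ℝ} (hn : n ≠ 0) (hE : E ≠ 0) (h : E + 2 * β ^ 2 = n ^ 2) :
    -(2 * (γ * α)) / E - (-(γ * α) / n ^ 2 - s * β / n) =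
    -(γ * α) / n ^ 2 - (2 * (2 * (γ * α * β) / (n * E)) - s) * β / n := by
  field_simp
  linear_combination (2 * γ * α) * h

theorem alg2 {n E α β γ s : ℝ} (hn : n ≠ 0) (hE : E ≠ 0) (h : n ^ 2 + E = 2 * α ^ 2) :
    2 * (γ * β) / E - (-(γ * β) / n ^ 2 + s * α / n) =
    -(γ * β) / n ^ 2 + (2 * (2 * (γ * α * β) / (n * E)) - s) * α / n := by
  field_simp
  linear_combination (2 * γ * β) * h

theorem alg3 {n E α β γ s : ℝ} (hn : n ≠ 0) (hE : E ≠ 0) (h : E = α ^ 2 - β ^ 2)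
    (h' : n ^ 2 = α ^ 2 + β ^ 2) :
    (-(2 * (γ * α)) / E - (-(γ * α) / n ^ 2 - s * β / n)) ^ 2 -
    (2 * (γ * β) / E - (-(γ * β) / n ^ 2 + s * α / n)) ^ 2 =
    (-(γ * α) / n ^ 2 - s * β / n) ^ 2 - (-(γ * β) / n ^ 2 + s * α / n) ^ 2 := by
  have e1 : α * (-(γ * α) / n ^ 2 - s * β / n) + β * (-(γ * β) / n ^ 2 + s * α / n) = -γ := by
    field_simp
    linear_combination γ * h'
  have e2 : (-(2 * (γ * α)) / E) ^ 2 - (2 * (γ * β) / E) ^ 2 = 4 * γ ^ 2 / E := by
    field_simp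
    linear_combination (-4 * γ ^ 2) * h
  have e5 : 4 * γ ^ 2 / E = 2 * γ * (2 * γ / E) := by ring
  rw [e5] at e2
  linear_combination e2 + (4 * γ / E) * e1

/-- The parameter of the center. -/
def s0 (α β γ : ℝ) : ℝ := 2 * (γ * α * β) / (√(α ^ 2 + β ^ 2) * (α ^ 2 - β ^ 2))

theorem sq_ne {α β : ℝ} (h : |α| ≠ |β|) : α ^ 2 - β ^ 2 ≠ 0 := by
  intro h0
  exact h ((sq_eq_sq_iff_abs_eq_abs α β).1 (by linarith))

theorem n_pos {α β : ℝ} (h : |α| ≠ |β|) : 0 < α ^ 2 + β ^ 2 := by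
  have h1 := sq_ne h
  rcases lt_or_gt_of_ne h1 with h2 | h2
  · nlinarith [sq_nonneg α, sq_nonneg β]
  · nlinarith [sq_nonneg α, sq_nonneg β]

theorem refl_plane {α β : ℝ} (h : |α| ≠ |β|) (γ s : ℝ) {d : ℕ} (ξ : Ed d) :
    refl α β γ (planePt α β γ s ξ) = planePt α β γ (2 * s0 α β γ - s) (-ξ) := by
  have h1 := sq_ne h
  have h2 := n_pos h
  have h3 : √(α ^ 2 + β ^ 2) ≠ 0 := (Real.sqrt_pos.2 h2).ne'
  have h4 : √(α ^ 2 + β ^ 2) ^ 2 = α ^ 2 + β ^ 2 := Real.sq_sqrt h2.le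
  unfold refl cen2 planePt s0
  refine Prod.ext ?_ (Prod.ext ?_ ?_)
  · have := alg1 (γ := γ) (s := s) (α := α) (β := β) h3 h1 (by rw [h4]; ring)
    rw [h4] at this
    exact this
  · have := alg2 (γ := γ) (s := s) (α := α) (β := β) h3 h1 (by rw [h4]; ring)
    rw [h4] at this
    exact this
  · change (0 : Ed d) - ξ = -ξ
    rw [zero_sub]

theorem Q_refl {α β : ℝ} (h : |α| ≠ |β|) (γ s : ℝ) :
    Q α β γ (2 * s0 α β γ - s) = Q α β γ s := by
  have h1 := sq_ne h
  have h2 := n_pos h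
  have h3 : √(α ^ 2 + β ^ 2) ≠ 0 := (Real.sqrt_pos.2 h2).ne'
  have h4 : √(α ^ 2 + β ^ 2) ^ 2 = α ^ 2 + β ^ 2 := Real.sq_sqrt h2.le
  have e1 := alg1 (γ := γ) (s := s) (α := α) (β := β) h3 h1 (by rw [h4]; ring)
  have e2 := alg2 (γ := γ) (s := s) (α := α) (β := β) h3 h1 (by rw [h4]; ring)
  have e3 := alg3 (γ := γ) (s := s) (α := α) (β := β) h3 h1 rfl h4
  rw [e1, e2] at e3
  rw [h4] at e3
  exact e3

theorem refl_cone {α β : ℝ} (h : |α| ≠ |β|) (γ s : ℝ) {d : ℕ}
    (ω : Metric.sphere (0 : Ed d) 1) :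
    refl α β γ (conePt α β γ s ω) = conePt α β γ (2 * s0 α β γ - s) (-ω) := by
  unfold conePt
  rw [refl_plane h, Q_refl h]
  congr 1
  simp

theorem cont_refl (α β γ : ℝ) (d : ℕ) : Continuous (refl α β γ : Pt d → Pt d) :=
  continuous_const.sub continuous_id

theorem cont_cone (α β γ : ℝ) (d : ℕ) :
    Continuous (fun x : ℝ × Metric.sphere (0 : Ed d) 1 => conePt α β γ x.1 x.2) := by
  unfold conePt planePt Q
  fun_prop

/-- The antipodal map preserves the surface measure. -/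
theorem neg_toSphere (d : ℕ) : MeasurePreserving (fun ω : Metric.sphere (0 : Ed d) 1 => -ω)
    (volume : Measure (Ed d)).toSphere (volume : Measure (Ed d)).toSphere := by
  have hm : Measurable (fun ω : Metric.sphere (0 : Ed d) 1 => -ω) := continuous_neg.measurable
  refine ⟨hm, ?_⟩
  refine Measure.ext fun s hs => ?_
  rw [Measure.map_apply hm hs, Measure.toSphere_apply' _ (hm hs), Measure.toSphere_apply' _ hs]
  congr 1
  have h1 : Ioo (0 : ℝ) 1 • (Subtype.val '' ((fun ω : Metric.sphere (0 : Ed d) 1 => -ω) ⁻¹' s)) =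
      (fun x : Ed d => -x) ⁻¹' (Ioo (0 : ℝ) 1 • (Subtype.val '' s)) := by
    ext x
    simp only [Set.mem_smul, mem_preimage, mem_image]
    constructor
    · rintro ⟨a, ha, _, ⟨ω, hω, rfl⟩, rfl⟩
      exact ⟨a, ha, _, ⟨-ω, hω, rfl⟩, by simp⟩
    · rintro ⟨a, ha, _, ⟨ω, hω, rfl⟩, hx⟩
      refine ⟨a, ha, _, ⟨-ω, by rw [neg_neg]; exact hω, rfl⟩, ?_⟩
      rw [← neg_neg x, ← hx]
      simp
  rw [h1]
  exact (Measure.measurePreserving_neg (volume : Measure (Ed d))).measure_preimage_emb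
    (Homeomorph.neg (Ed d)).measurableEmbedding _

/-- The measure on the parameters is preserved. -/
theorem param {α β : ℝ} (h : |α| ≠ |β|) (γ : ℝ) (r : ℝ) :
    MeasurePreserving (fun s : ℝ => 2 * s0 α β γ - s)
      ((volume.restrict {s : ℝ | 0 < Q α β γ s}).withDensity
        (fun s => ENNReal.ofReal (Q α β γ s ^ r)))
      ((volume.restrict {s : ℝ | 0 < Q α β γ s}).withDensity
        (fun s => ENNReal.ofReal (Q α β γ s ^ r))) := by
  have hQ : Continuous (Q α β γ) := by unfold Q; fun_prop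
  have hset : MeasurableSet {s : ℝ | 0 < Q α β γ s} := measurableSet_lt measurable_const hQ.measurable
  have h1 : MeasurePreserving (fun s : ℝ => 2 * s0 α β γ - s) volume volume :=
    Measure.measurePreserving_sub_left volume _
  have h2 := h1.restrict_preimage hset
  have h3 : (fun s : ℝ => 2 * s0 α β γ - s) ⁻¹' {s : ℝ | 0 < Q α β γ s} =
      {s : ℝ | 0 < Q α β γ s} := by
    ext s
    simp only [mem_preimage, mem_ofPred_eq, Q_refl h]
  rw [h3] at h2
  refine ⟨h1.measurable, Measure.ext fun s hs => ?_⟩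
  have hg : Measurable (fun s => ENNReal.ofReal (Q α β γ s ^ r)) :=
    (hQ.measurable.pow_const r).ennreal_ofReal
  rw [Measure.map_apply h1.measurable hs, withDensity_apply _ (h1.measurable hs),
    withDensity_apply _ hs, ← h2.setLIntegral_comp_preimage hs hg]
  simp only [Q_refl h]

end REFL_

open REFL_ in
theorem p_REFL : T_REFL := by
  intro d α β γ _ h
  refine ⟨(cont_refl α β γ d).measurable, ?_⟩
  unfold sectionMeasure
  rw [Measure.map_smul]
  congr 1
  have hc := (cont_cone α β γ d).measurable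
  rw [Measure.map_map (cont_refl α β γ d).measurable hc]
  have hT := (param h γ (((d : ℝ) - 2) / 2)).prod (neg_toSphere d)
  have h1 : (refl α β γ ∘ fun x : ℝ × Metric.sphere (0 : Ed d) 1 => conePt α β γ x.1 x.2) =
      (fun x : ℝ × Metric.sphere (0 : Ed d) 1 => conePt α β γ x.1 x.2) ∘
        Prod.map (fun s : ℝ => 2 * s0 α β γ - s) (fun ω : Metric.sphere (0 : Ed d) 1 => -ω) := by
    funext x
    exact refl_cone h γ x.1 x.2
  rw [h1, ← Measure.map_map hc hT.measurable, hT.map_eq]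

end Pool.Agent.SymM
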