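import Pool.Agent.SymM.Targets

set_option autoImplicit false

noncomputable section

open MeasureTheory Set Filter
open scoped ENNReal RealInnerProductSpace Topology ComplexConjugate

namespace Pool.Agent.SymM

open Pool.Agent.ExpMax

namespace STAR_

/-- The reflection as a homeomorphism. -/
private def rH (α β γ : ℝ) (d : ℕ) : Pt d ≃ₜ Pt d where
  toFun := refl α β γ
  invFun := refl α β γ
  left_inv := fun ζ => by simp [refl]
  right_inv := fun ζ => by simp [refl]
  continuous_toFun := by unfold refl; exact continuous_const.sub continuous_id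
  continuous_invFun := by unfold refl; exact continuous_const.sub continuous_id

private theorem dot_refl (α β γ : ℝ) {d : ℕ} (ζ y : Pt d) :
    dot (refl α β γ ζ) y = dot (cen2 α β γ d) y - dot ζ y := by
  unfold refl dot
  simp only [Prod.fst_sub, Prod.snd_sub, inner_sub_left]
  ring

end STAR_

open STAR_ in
/-- STAR (from REFL) -/
theorem p_STAR (h : T_REFL) : T_STAR := by
  intro d α β γ hd hab f
  have hmp : MeasurePreserving (rH α β γ d) (sectionMeasure α β γ d) (sectionMeasure α β γ d) :=
    h d α β γ hd hab
  have hemb : MeasurableEmbedding (rH α β γ d) := (rH α β γ d).measurableEmbedding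
  refine ⟨?_, ?_, ?_, ?_⟩
  · intro hf
    have h1 : Integrable (f ∘ rH α β γ d) (sectionMeasure α β γ d) :=
      (hmp.integrable_comp_emb hemb).mpr hf
    exact (Complex.conjCLE.toContinuousLinearMap.integrable_comp h1)
  · intro hf
    have h1 : MemLp (f ∘ rH α β γ d) 2 (sectionMeasure α β γ d) :=
      hf.comp_measurePreserving hmp
    exact (Complex.conjCLE.toContinuousLinearMap.comp_memLp' h1)
  · have h1 := hmp.lintegral_comp_emb hemb (fun ζ => ‖f ζ‖ₑ ^ (2 : ℝ))
    rw [← h1]
    apply lintegral_congr
    intro ζ
    unfold star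
    have : ‖(conj (f (refl α β γ ζ)) : ℂ)‖ₑ = ‖f (refl α β γ ζ)‖ₑ := by
      rw [enorm_eq_iff_norm_eq]
      exact Complex.norm_conj _
    rw [this]
    rfl
  · intro y
    unfold extension
    have h1 := hmp.integral_comp hemb
      (fun ζ => conj (f ζ) * Complex.exp (-(Complex.I * ((dot (refl α β γ ζ) y : ℝ) : ℂ))))
    have h2 : (fun ζ => star α β γ f ζ * Complex.exp (-(Complex.I * ((dot ζ y : ℝ) : ℂ)))) =
        fun ζ => (fun ζ => conj (f ζ) *
          Complex.exp (-(Complex.I * ((dot (refl α β γ ζ) y : ℝ) : ℂ)))) (rH α β γ d ζ) := by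
      funext ζ
      have e1 : refl α β γ (refl α β γ ζ) = ζ := by simp [refl]
      show conj (f (refl α β γ ζ)) * _ = conj (f (refl α β γ ζ)) *
        Complex.exp (-(Complex.I * ((dot (refl α β γ (refl α β γ ζ)) y : ℝ) : ℂ)))
      rw [e1]
    rw [h2, h1, ← integral_conj, ← integral_const_mul]
    apply integral_congr_ae
    filter_upwards with ζ
    rw [map_mul, ← Complex.exp_conj, dot_refl, mul_left_comm]
    congr 1
    rw [← Complex.exp_add]
    congr 1
    simp only [map_neg, map_mul, Complex.conj_I, Complex.conj_ofReal]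
    push_cast
    ring

end Pool.Agent.SymM
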