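import Pool.Agent.SymM.Targets

set_option autoImplicit false

/-!
# Every maximizer is symmetric
-/

noncomputable section

open MeasureTheory Set Filter
open scoped ENNReal RealInnerProductSpace Topology ComplexConjugate

namespace Pool.Agent.SymM

open Pool.Agent.ExpMax

namespace SYM_

theorem n1 (z w : ℂ) : ‖(1 / 2 : ℂ) * (z + w)‖ ^ 2 =
    (‖z‖ ^ 2 + ‖w‖ ^ 2) / 4 + (z * conj w).re / 2 := by
  simp only [Complex.sq_norm, Complex.normSq_apply]
  simp
  ring

theorem n2 (z w : ℂ) : ‖(-(Complex.I) / 2 : ℂ) * (z - w)‖ ^ 2 =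
    (‖z‖ ^ 2 + ‖w‖ ^ 2) / 4 - (z * conj w).re / 2 := by
  simp only [Complex.sq_norm, Complex.normSq_apply]
  simp
  ring

theorem n3 (z w : ℂ) : ‖(1 / 2 : ℂ) * (z + w) + (-(Complex.I) / 2 : ℂ) * (z - w)‖ ^ 2 =
    (‖z‖ ^ 2 + ‖w‖ ^ 2) / 2 + (z * conj w).im := by
  simp only [Complex.sq_norm, Complex.normSq_apply]
  simp
  ring

theorem n4 (z w : ℂ) : ‖(1 / 2 : ℂ) * (z + w) - (-(Complex.I) / 2 : ℂ) * (z - w)‖ ^ 2 =
    (‖z‖ ^ 2 + ‖w‖ ^ 2) / 2 - (z * conj w).im := by
  simp only [Complex.sq_norm, Complex.normSq_apply]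
  simp
  ring

/-- The lintegral of the square of the norm. -/
theorem lint_sq {X : Type*} [MeasurableSpace X] (μ : Measure X) (g : X → ℂ) (hg : MemLp g 2 μ) :
    ∫⁻ x, ‖g x‖ₑ ^ (2 : ℝ) ∂μ = ENNReal.ofReal (∫ x, ‖g x‖ ^ 2 ∂μ) := by
  rw [ofReal_integral_eq_lintegral_ofReal ((memLp_two_iff_integrable_sq_norm hg.1).1 hg)
    (Eventually.of_forall fun x => by positivity)]
  apply lintegral_congr
  intro x
  rw [← ofReal_norm, ENNReal.ofReal_rpow_of_nonneg (norm_nonneg _) (by norm_num)]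
  congr 1
  exact Real.rpow_natCast _ 2

theorem quot_bound {d : ℕ} (α β γ p c : ℝ) (hp : 0 < p) (g : Pt d → ℂ)
    (hg2 : MemLp g 2 (sectionMeasure α β γ d)) (hg1 : Integrable g (sectionMeasure α β γ d))
    (hc : 0 < c) (hn : ∫ ζ, ‖g ζ‖ ^ 2 ∂(sectionMeasure α β γ d) = c) :
    ∫⁻ y, ‖extension α β γ g y‖ₑ ^ p ∂(planeMeasure α β γ d) ≤
      bestConst α β γ d p * ENNReal.ofReal (c ^ (p / 2)) := by
  have hne : ¬ g =ᵐ[sectionMeasure α β γ d] 0 := by
    intro h0
    have h1 : ∫ ζ, ‖g ζ‖ ^ 2 ∂(sectionMeasure α β γ d) = 0 := by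
      have h2 : (fun ζ => ‖g ζ‖ ^ 2) =ᵐ[sectionMeasure α β γ d] fun _ => 0 := by
        filter_upwards [h0] with ζ hζ
        rw [hζ]
        simp
      rw [integral_congr_ae h2]
      simp
    rw [h1] at hn
    exact hc.ne hn
  have h1 : quotient α β γ p g ≤ bestConst α β γ d p := by
    unfold bestConst
    exact le_iSup_of_le g (le_iSup_of_le hg2 (le_iSup_of_le hg1 (le_iSup_of_le hne le_rfl)))
  have h2 : (∫⁻ ζ, ‖g ζ‖ₑ ^ (2 : ℝ) ∂(sectionMeasure α β γ d)) ^ (p / 2) =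
      ENNReal.ofReal (c ^ (p / 2)) := by
    rw [lint_sq _ g hg2, hn, ENNReal.ofReal_rpow_of_nonneg hc.le (by positivity)]
  unfold quotient at h1
  rw [h2] at h1
  rwa [ENNReal.div_le_iff (by
    rw [Ne, ENNReal.ofReal_eq_zero, not_le]
    positivity) ENNReal.ofReal_ne_top] at h1

theorem ext_smul {d : ℕ} (α β γ : ℝ) (c : ℂ) (g : Pt d → ℂ) (y : Pt d) :
    extension α β γ (fun ζ => c * g ζ) y = c * extension α β γ g y := by
  unfold extension
  rw [← integral_const_mul]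
  congr 1
  funext ζ
  ring

theorem ext_int {d : ℕ} (α β γ : ℝ) (g : Pt d → ℂ) (y : Pt d)
    (hg : Integrable g (sectionMeasure α β γ d)) :
    Integrable (fun ζ => g ζ * Complex.exp (-(Complex.I * ((dot ζ y : ℝ) : ℂ))))
      (sectionMeasure α β γ d) := by
  have hc : Continuous fun ζ : Pt d => Complex.exp (-(Complex.I * ((dot ζ y : ℝ) : ℂ))) := by
    simp only [dot]
    fun_prop
  refine hg.mul_bdd (c := 1) hc.aestronglyMeasurable (Eventually.of_forall fun ζ => ?_)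
  rw [show -(Complex.I * ((dot ζ y : ℝ) : ℂ)) = ((-(dot ζ y) : ℝ) : ℂ) * Complex.I by
    push_cast; ring]
  exact (Complex.norm_exp_ofReal_mul_I _).le

theorem ext_add {d : ℕ} (α β γ : ℝ) (g h : Pt d → ℂ) (y : Pt d)
    (hg : Integrable g (sectionMeasure α β γ d)) (hh : Integrable h (sectionMeasure α β γ d)) :
    extension α β γ (fun ζ => g ζ + h ζ) y = extension α β γ g y + extension α β γ h y := by
  unfold extension
  rw [← integral_add (ext_int α β γ g y hg) (ext_int α β γ h y hh)]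
  congr 1
  funext ζ
  ring

theorem ext_sub {d : ℕ} (α β γ : ℝ) (g h : Pt d → ℂ) (y : Pt d)
    (hg : Integrable g (sectionMeasure α β γ d)) (hh : Integrable h (sectionMeasure α β γ d)) :
    extension α β γ (fun ζ => g ζ - h ζ) y = extension α β γ g y - extension α β γ h y := by
  unfold extension
  rw [← integral_sub (ext_int α β γ g y hg) (ext_int α β γ h y hh)]
  congr 1
  funext ζ
  ring

/-- A unimodular square root. -/
theorem exists_unit (J : ℂ) : ∃ e : ℂ, ‖e‖ = 1 ∧ e ^ 2 * J = ((‖J‖ : ℝ) : ℂ) := by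
  refine ⟨Complex.exp (((-(Complex.arg J) / 2 : ℝ) : ℂ) * Complex.I),
    Complex.norm_exp_ofReal_mul_I _, ?_⟩
  have this : ((2 : ℕ) : ℂ) * (((-(Complex.arg J) / 2 : ℝ) : ℂ) * Complex.I) +
      (Complex.arg J : ℂ) * Complex.I = 0 := by
    push_cast
    ring
  calc Complex.exp (((-(Complex.arg J) / 2 : ℝ) : ℂ) * Complex.I) ^ 2 * J
      = Complex.exp (((-(Complex.arg J) / 2 : ℝ) : ℂ) * Complex.I) ^ 2 *
        (((‖J‖ : ℝ) : ℂ) * Complex.exp ((Complex.arg J : ℂ) * Complex.I)) := by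
        rw [Complex.norm_mul_exp_arg_mul_I]
    _ = ((‖J‖ : ℝ) : ℂ) := by
        rw [← Complex.exp_nat_mul, mul_left_comm, ← Complex.exp_add, this, Complex.exp_zero,
          mul_one]

end SYM_

open SYM_ in
theorem p_SYM (h1 : T_STAR) (h2 : T_CONT) (h3 : T_POS) (h4 : T_EQ) : T_SYM := by
  intro d α β γ p hd hab hp f hf1 hmax
  obtain ⟨hf2, hf0, hMfin, hfM⟩ := hmax
  obtain ⟨st1, st2, st3, st4⟩ := h1 d α β γ hd hab f
  have hs1 := st1 hf1
  have hs2 := st2 hf2
  have hab0 : (α, β) ≠ (0, 0) := by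
    intro h
    rw [Prod.mk.injEq] at h
    exact hab (by rw [h.1, h.2])
  have hp0 : 0 < p := by linarith
  have hMpos : 0 < bestConst α β γ d p := h3 d α β γ p hab0 hp0 f hf2 hf0
  set σ := sectionMeasure α β γ d with hσ
  set fs : Pt d → ℂ := star α β γ f with hfs
  have hcf : MemLp (fun ζ => conj (fs ζ)) 2 σ :=
    (memLp_congr_norm (Complex.continuous_conj.comp_aestronglyMeasurable hs2.1) hs2.1
      (Eventually.of_forall fun ζ => by simp)).2 hs2
  have hJi : Integrable (fun ζ => f ζ * conj (fs ζ)) σ := hf2.integrable_mul hcf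
  obtain ⟨e, he1, he2⟩ := exists_unit (∫ ζ, f ζ * conj (fs ζ) ∂σ)
  set J := ∫ ζ, f ζ * conj (fs ζ) ∂σ with hJ
  have hec : conj e * e = 1 := by
    rw [← Complex.normSq_eq_conj_mul_self, Complex.normSq_eq_norm_sq, he1]
    simp
  have hce1 : ‖conj e‖ = 1 := by rw [RCLike.norm_conj]; exact he1
  set z : Pt d → ℂ := fun ζ => e * f ζ with hz
  set w : Pt d → ℂ := fun ζ => conj e * fs ζ with hw
  have hz1 : Integrable z σ := hf1.const_mul e
  have hw1 : Integrable w σ := hs1.const_mul _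
  have hz2 : MemLp z 2 σ := hf2.const_mul e
  have hw2 : MemLp w 2 σ := hs2.const_mul _
  have hzn : ∀ ζ, ‖z ζ‖ = ‖f ζ‖ := fun ζ => by simp only [hz, norm_mul, he1, one_mul]
  have hwn : ∀ ζ, ‖w ζ‖ = ‖fs ζ‖ := fun ζ => by simp only [hw, norm_mul, hce1, one_mul]
  have hzw : ∀ ζ, z ζ * conj (w ζ) = e ^ 2 * (f ζ * conj (fs ζ)) := by
    intro ζ
    simp only [hz, hw, map_mul, Complex.conj_conj]
    ring
  set n : ℝ := ∫ ζ, ‖f ζ‖ ^ 2 ∂σ with hn
  have hfi : Integrable (fun ζ => ‖f ζ‖ ^ 2) σ := (memLp_two_iff_integrable_sq_norm hf2.1).1 hf2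
  have hsi : Integrable (fun ζ => ‖fs ζ‖ ^ 2) σ := (memLp_two_iff_integrable_sq_norm hs2.1).1 hs2
  have hn0 : 0 ≤ n := integral_nonneg fun ζ => by positivity
  have hnpos : 0 < n := by
    rcases hn0.lt_or_eq with h | h
    · exact h
    · exfalso
      apply hf0
      have h5 := (integral_eq_zero_iff_of_nonneg (μ := σ) (f := fun ζ => ‖f ζ‖ ^ 2)
        (fun ζ => by positivity) hfi).1 h.symm
      filter_upwards [h5] with ζ hζ
      have : ‖f ζ‖ ^ 2 = 0 := hζ
      rw [pow_eq_zero_iff two_ne_zero, norm_eq_zero] at this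
      exact this
  have hns : ∫ ζ, ‖fs ζ‖ ^ 2 ∂σ = n := by
    rw [lint_sq σ fs hs2, lint_sq σ f hf2] at st3
    exact (ENNReal.ofReal_eq_ofReal_iff (integral_nonneg fun ζ => by positivity) hn0).1 st3
  have hzwi : Integrable (fun ζ => z ζ * conj (w ζ)) σ := by
    simp only [hzw]
    exact hJi.const_mul _
  have hzwI : ∫ ζ, z ζ * conj (w ζ) ∂σ = ((‖J‖ : ℝ) : ℂ) := by
    simp only [hzw]
    rw [integral_const_mul, ← he2]
  have hre : ∫ ζ, (z ζ * conj (w ζ)).re ∂σ = ‖J‖ := by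
    have := integral_re hzwi
    simp only [RCLike.re_to_complex] at this
    rw [this, hzwI, Complex.ofReal_re]
  have him : ∫ ζ, (z ζ * conj (w ζ)).im ∂σ = 0 := by
    have := integral_im hzwi
    simp only [RCLike.im_to_complex] at this
    rw [this, hzwI, Complex.ofReal_im]
  have hrei : Integrable (fun ζ => (z ζ * conj (w ζ)).re) σ := hzwi.re
  have himi : Integrable (fun ζ => (z ζ * conj (w ζ)).im) σ := hzwi.im
  set f1 : Pt d → ℂ := fun ζ => (1 / 2 : ℂ) * (z ζ + w ζ) with hf1d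
  set f2 : Pt d → ℂ := fun ζ => (-(Complex.I) / 2 : ℂ) * (z ζ - w ζ) with hf2d
  have i1 : Integrable f1 σ := (hz1.add hw1).const_mul _
  have i2 : Integrable f2 σ := (hz1.sub hw1).const_mul _
  have m1 : MemLp f1 2 σ := (hz2.add hw2).const_mul _
  have m2 : MemLp f2 2 σ := (hz2.sub hw2).const_mul _
  have q0 : ∫ ζ, (‖f ζ‖ ^ 2 + ‖fs ζ‖ ^ 2) ∂σ = n + n := by
    rw [integral_add hfi hsi, hns]
  have q4 : Integrable (fun ζ => (‖f ζ‖ ^ 2 + ‖fs ζ‖ ^ 2) / 4) σ := (hfi.add hsi).div_const 4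
  have q2 : Integrable (fun ζ => (‖f ζ‖ ^ 2 + ‖fs ζ‖ ^ 2) / 2) σ := (hfi.add hsi).div_const 2
  have q2' : Integrable (fun ζ => (z ζ * conj (w ζ)).re / 2) σ := hrei.div_const 2
  have N1 : ∫ ζ, ‖f1 ζ‖ ^ 2 ∂σ = (n + ‖J‖) / 2 := by
    have : ∀ ζ, ‖f1 ζ‖ ^ 2 = (‖f ζ‖ ^ 2 + ‖fs ζ‖ ^ 2) / 4 + (z ζ * conj (w ζ)).re / 2 := by
      intro ζ
      simp only [hf1d]
      rw [n1, hzn, hwn]
    simp only [this]
    rw [integral_add q4 q2', integral_div, integral_div, q0, hre]
    ring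
  have N2 : ∫ ζ, ‖f2 ζ‖ ^ 2 ∂σ = (n - ‖J‖) / 2 := by
    have : ∀ ζ, ‖f2 ζ‖ ^ 2 = (‖f ζ‖ ^ 2 + ‖fs ζ‖ ^ 2) / 4 - (z ζ * conj (w ζ)).re / 2 := by
      intro ζ
      simp only [hf2d]
      rw [n2, hzn, hwn]
    simp only [this]
    rw [integral_sub q4 q2', integral_div, integral_div, q0, hre]
    ring
  have N3 : ∫ ζ, ‖f1 ζ + f2 ζ‖ ^ 2 ∂σ = n := by
    have : ∀ ζ, ‖f1 ζ + f2 ζ‖ ^ 2 = (‖f ζ‖ ^ 2 + ‖fs ζ‖ ^ 2) / 2 + (z ζ * conj (w ζ)).im := by
      intro ζ
      simp only [hf1d, hf2d]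
      rw [n3, hzn, hwn]
    simp only [this]
    rw [integral_add q2 himi, integral_div, q0, him]
    ring
  have N4 : ∫ ζ, ‖f1 ζ - f2 ζ‖ ^ 2 ∂σ = n := by
    have : ∀ ζ, ‖f1 ζ - f2 ζ‖ ^ 2 = (‖f ζ‖ ^ 2 + ‖fs ζ‖ ^ 2) / 2 - (z ζ * conj (w ζ)).im := by
      intro ζ
      simp only [hf1d, hf2d]
      rw [n4, hzn, hwn]
    simp only [this]
    rw [integral_sub q2 himi, integral_div, q0, him]
    ring
  have hb0 : 0 ≤ (n - ‖J‖) / 2 := by
    rw [← N2]
    exact integral_nonneg fun ζ => by positivity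
  rcases hb0.lt_or_eq with hb | hb
  · -- the impossible case
    exfalso
    have ha : 0 < (n + ‖J‖) / 2 := by
      have := norm_nonneg J
      linarith
    set k : Pt d → ℂ := fun y => Complex.exp (((dot (cen2 α β γ d) y / 2 : ℝ) : ℂ) * Complex.I)
      with hk
    have hkn : ∀ y, ‖k y‖ = 1 := fun y => Complex.norm_exp_ofReal_mul_I _
    have hkc : Continuous k := by
      simp only [hk, dot]
      fun_prop
    set E : Pt d → ℂ := extension α β γ f with hE
    have hEc : Continuous E := h2 d α β γ f hf1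
    set g : Pt d → ℂ := fun y => k y * (e * E y) with hg
    have hgc : Continuous g := hkc.mul (continuous_const.mul hEc)
    have hkz : ∀ y, k y * extension α β γ z y = g y := by
      intro y
      simp only [hz, hg]
      rw [ext_smul]
    have hkw : ∀ y, k y * extension α β γ w y = conj (g y) := by
      intro y
      simp only [hw, hg]
      rw [ext_smul, hfs, st4 y]
      simp only [map_mul]
      have hkk : k y * Complex.exp (-(Complex.I * ((dot (cen2 α β γ d) y : ℝ) : ℂ))) =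
          conj (k y) := by
        simp only [hk]
        rw [← Complex.exp_conj, ← Complex.exp_add]
        congr 1
        simp only [map_mul, Complex.conj_ofReal, Complex.conj_I]
        push_cast
        ring
      rw [← hkk]
      ring
    set U : Pt d → ℝ := fun y => (g y).re with hU
    set V : Pt d → ℝ := fun y => (g y).im with hV
    have hUm : Measurable U := (Complex.continuous_re.comp hgc).measurable
    have hVm : Measurable V := (Complex.continuous_im.comp hgc).measurable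
    have E1 : ∀ y, k y * extension α β γ f1 y = ((U y : ℝ) : ℂ) := by
      intro y
      simp only [hf1d]
      rw [ext_smul, ext_add _ _ _ _ _ _ hz1 hw1, mul_left_comm, mul_add, hkz, hkw,
        Complex.add_conj]
      simp only [hU]
      push_cast
      ring
    have E2 : ∀ y, k y * extension α β γ f2 y = ((V y : ℝ) : ℂ) := by
      intro y
      simp only [hf2d]
      rw [ext_smul, ext_sub _ _ _ _ _ _ hz1 hw1, mul_left_comm, mul_sub, hkz, hkw,
        Complex.sub_conj]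
      simp only [hV]
      push_cast
      have hI : Complex.I * Complex.I = -1 := Complex.I_mul_I
      linear_combination (-((g y).im : ℂ)) * hI
    have kn : ∀ (y : Pt d) (x : ℂ), ‖x‖ₑ = ‖k y * x‖ₑ := by
      intro y x
      rw [← ofReal_norm, ← ofReal_norm, norm_mul, hkn, one_mul]
    have enr : ∀ r : ℝ, ‖((r : ℝ) : ℂ)‖ₑ = ‖r‖ₑ := by
      intro r
      rw [← ofReal_norm, ← ofReal_norm, Complex.norm_real]
    have B1 : ∫⁻ y, ‖U y‖ₑ ^ p ∂(planeMeasure α β γ d) ≤
        bestConst α β γ d p * ENNReal.ofReal (((n + ‖J‖) / 2) ^ (p / 2)) := by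
      have := quot_bound α β γ p _ hp0 f1 m1 i1 ha N1
      refine le_trans (le_of_eq ?_) this
      apply lintegral_congr
      intro y
      rw [kn y (extension α β γ f1 y), E1, enr]
    have B2 : ∫⁻ y, ‖V y‖ₑ ^ p ∂(planeMeasure α β γ d) ≤
        bestConst α β γ d p * ENNReal.ofReal (((n - ‖J‖) / 2) ^ (p / 2)) := by
      have := quot_bound α β γ p _ hp0 f2 m2 i2 hb N2
      refine le_trans (le_of_eq ?_) this
      apply lintegral_congr
      intro y
      rw [kn y (extension α β γ f2 y), E2, enr]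
    have hsum : (n + ‖J‖) / 2 + (n - ‖J‖) / 2 = n := by ring
    have B3 : ∫⁻ y, ‖U y + V y‖ₑ ^ p ∂(planeMeasure α β γ d) ≤
        bestConst α β γ d p * ENNReal.ofReal (((n + ‖J‖) / 2 + (n - ‖J‖) / 2) ^ (p / 2)) := by
      rw [hsum]
      have := quot_bound α β γ p _ hp0 (fun ζ => f1 ζ + f2 ζ) (m1.add m2) (i1.add i2) hnpos N3
      refine le_trans (le_of_eq ?_) this
      apply lintegral_congr
      intro y
      rw [kn y (extension α β γ (fun ζ => f1 ζ + f2 ζ) y), ext_add _ _ _ _ _ _ i1 i2, mul_add,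
        E1, E2, ← Complex.ofReal_add, enr]
    have B4 : ∫⁻ y, ‖U y - V y‖ₑ ^ p ∂(planeMeasure α β γ d) ≤
        bestConst α β γ d p * ENNReal.ofReal (((n + ‖J‖) / 2 + (n - ‖J‖) / 2) ^ (p / 2)) := by
      rw [hsum]
      have := quot_bound α β γ p _ hp0 (fun ζ => f1 ζ - f2 ζ) (m1.sub m2) (i1.sub i2) hnpos N4
      refine le_trans (le_of_eq ?_) this
      apply lintegral_congr
      intro y
      rw [kn y (extension α β γ (fun ζ => f1 ζ - f2 ζ) y), ext_sub _ _ _ _ _ _ i1 i2, mul_sub,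
        E1, E2, ← Complex.ofReal_sub, enr]
    have B5 : ∫⁻ y, ENNReal.ofReal ((U y ^ 2 + V y ^ 2) ^ (p / 2)) ∂(planeMeasure α β γ d) =
        bestConst α β γ d p * ENNReal.ofReal (((n + ‖J‖) / 2 + (n - ‖J‖) / 2) ^ (p / 2)) := by
      rw [hsum]
      have hq : (∫⁻ ζ, ‖f ζ‖ₑ ^ (2 : ℝ) ∂σ) ^ (p / 2) = ENNReal.ofReal (n ^ (p / 2)) := by
        rw [lint_sq _ f hf2, ENNReal.ofReal_rpow_of_nonneg hn0 (by positivity)]
      have h5 : (∫⁻ y, ‖E y‖ₑ ^ p ∂(planeMeasure α β γ d)) / ENNReal.ofReal (n ^ (p / 2)) =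
          bestConst α β γ d p := by
        rw [← hq]
        exact hfM
      rw [← h5, ENNReal.div_mul_cancel]
      · apply lintegral_congr
        intro y
        have h6 : U y ^ 2 + V y ^ 2 = ‖g y‖ ^ 2 := by
          rw [Complex.sq_norm, Complex.normSq_apply]
          simp only [hU, hV]
          ring
        have h7 : ‖g y‖ = ‖E y‖ := by
          simp only [hg, norm_mul, hkn, he1, one_mul]
        rw [h6, h7, ← ofReal_norm, ENNReal.ofReal_rpow_of_nonneg (norm_nonneg _) hp0.le,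
          ← Real.rpow_natCast, ← Real.rpow_mul (norm_nonneg _)]
        congr 2
        push_cast
        ring
      · rw [Ne, ENNReal.ofReal_eq_zero, not_le]
        positivity
      · exact ENNReal.ofReal_ne_top
    exact hMpos.ne' (h4 (Pt d) (planeMeasure α β γ d) p _ _ (bestConst α β γ d p) U V hUm hVm hp
      ha hb hMfin B1 B2 B3 B4 B5)
  · -- the symmetric case
    refine ⟨e ^ 2, by rw [norm_pow, he1, one_pow], ?_⟩
    rw [← hb] at N2
    have hi : Integrable (fun ζ => ‖f2 ζ‖ ^ 2) σ := (memLp_two_iff_integrable_sq_norm m2.1).1 m2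
    have h5 := (integral_eq_zero_iff_of_nonneg (μ := σ) (f := fun ζ => ‖f2 ζ‖ ^ 2)
        (fun ζ => by positivity) hi).1 N2
    filter_upwards [h5] with ζ hζ
    have h6 : ‖f2 ζ‖ ^ 2 = 0 := hζ
    rw [pow_eq_zero_iff two_ne_zero, norm_eq_zero] at h6
    simp only [hf2d] at h6
    have h7 : z ζ - w ζ = 0 := by
      rcases mul_eq_zero.1 h6 with h | h
      · exfalso
        rw [div_eq_zero_iff] at h
        rcases h with h | h
        · exact Complex.I_ne_zero (neg_eq_zero.1 h)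
        · exact two_ne_zero h
      · exact h
    have h8 : e * f ζ = conj e * fs ζ := sub_eq_zero.1 h7
    show fs ζ = e ^ 2 * f ζ
    calc fs ζ = (conj e * e) * fs ζ := by rw [hec, one_mul]
      _ = e * (conj e * fs ζ) := by ring
      _ = e * (e * f ζ) := by rw [h8]
      _ = e ^ 2 * f ζ := by ring

end Pool.Agent.SymM
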