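import Pool.Agent.SymM.Targets

set_option autoImplicit false

/-!
# SYM-CV: light cone coordinates
-/

noncomputable section

open MeasureTheory Set Filter
open scoped ENNReal Topology

namespace Pool.Agent.SymM

open Pool.Agent.ExpMax

namespace CV_

/-- The coordinate of index `0` and the rest. -/
def sp {n : ℕ} (ξ : Ed (n + 1)) : ℝ × Ed n := (ξ 0, tl ξ)

theorem sp_mp (n : ℕ) : MeasurePreserving (sp : Ed (n + 1) → ℝ × Ed n) volume volume := by
  have h1 := PiLp.volume_preserving_ofLp (Fin (n + 1))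
  have h2 := volume_preserving_piFinSuccAbove (fun _ : Fin (n + 1) => ℝ) 0
  have h3 := (MeasurePreserving.id (volume : Measure ℝ)).prod
    (PiLp.volume_preserving_toLp (Fin n))
  exact h3.comp (h2.comp h1)

theorem norm_sq {n : ℕ} (ξ : Ed (n + 1)) : ‖ξ‖ ^ 2 = (ξ 0) ^ 2 + ‖tl ξ‖ ^ 2 := by
  rw [EuclideanSpace.norm_sq_eq, EuclideanSpace.norm_sq_eq, Fin.sum_univ_succ]
  simp [tl]

/-- The one dimensional substitution. -/
theorem oneD (K : ℝ) (hK : 0 < K) (G : ℝ → ℝ≥0∞) :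
    ∫⁻ s : ℝ, ENNReal.ofReal (1 / √(K + s ^ 2)) * G (√(K + s ^ 2) + s) =
      ∫⁻ a in Ioi (0 : ℝ), ENNReal.ofReal (1 / a) * G a := by
  set f : ℝ → ℝ := fun s => √(K + s ^ 2) + s with hf
  have hpos : ∀ s : ℝ, 0 < K + s ^ 2 := fun s => by positivity
  have hr : ∀ s : ℝ, 0 < √(K + s ^ 2) := fun s => Real.sqrt_pos.2 (hpos s)
  have habs : ∀ s : ℝ, |s| < √(K + s ^ 2) := fun s => by
    apply Real.lt_sqrt_of_sq_lt
    rw [sq_abs]; linarith
  have hfp : ∀ s : ℝ, 0 < f s := fun s => by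
    have := habs s
    have h2 := neg_abs_le s
    simp only [hf]; linarith
  have hder : ∀ s : ℝ, HasDerivAt f (f s / √(K + s ^ 2)) s := fun s => by
    have h1 : HasDerivAt (fun s : ℝ => K + s ^ 2) (2 * s) s := by
      simpa using ((hasDerivAt_id s).pow 2).const_add K
    have h2 : HasDerivAt f (2 * s / (2 * √(K + s ^ 2)) + 1) s :=
      (h1.sqrt (hpos s).ne').add (hasDerivAt_id s)
    have h3 := (hr s).ne'
    have h4 : 2 * s / (2 * √(K + s ^ 2)) + 1 = f s / √(K + s ^ 2) := by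
      change _ = (√(K + s ^ 2) + s) / √(K + s ^ 2)
      field_simp
      ring
    rwa [h4] at h2
  have hinv : ∀ s : ℝ, f s - K / f s = 2 * s := fun s => by
    have h1 := (hfp s).ne'
    have h2 : (√(K + s ^ 2)) ^ 2 = K + s ^ 2 := Real.sq_sqrt (hpos s).le
    have h3 : K = f s * (√(K + s ^ 2) - s) := by
      simp only [hf]; nlinarith
    have h4 : K / f s = √(K + s ^ 2) - s := by
      rw [div_eq_iff h1]; linarith
    rw [h4]; simp only [hf]; ring
  have hinj : InjOn f univ := fun s _ t _ h => by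
    have h1 := hinv s
    have h2 := hinv t
    rw [h] at h1
    linarith
  have himg : f '' univ = Ioi (0 : ℝ) := by
    ext a
    constructor
    · rintro ⟨s, _, rfl⟩
      exact hfp s
    · intro ha
      have ha : 0 < a := ha
      refine ⟨(a - K / a) / 2, mem_univ _, ?_⟩
      have h1 : K + ((a - K / a) / 2) ^ 2 = ((a + K / a) / 2) ^ 2 := by
        field_simp
        ring
      have h2 : 0 ≤ (a + K / a) / 2 := by positivity
      simp only [hf]
      rw [h1, Real.sqrt_sq h2]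
      ring
  have key := lintegral_image_eq_lintegral_abs_deriv_mul MeasurableSet.univ
    (fun s _ => (hder s).hasDerivWithinAt) hinj (fun a => ENNReal.ofReal (1 / a) * G a)
  rw [himg] at key
  rw [key, Measure.restrict_univ]
  refine lintegral_congr fun s => ?_
  rw [← mul_assoc, ← ENNReal.ofReal_mul (abs_nonneg _)]
  congr 2
  have h1 := (hfp s).ne'
  rw [abs_of_pos (div_pos (hfp s) (hr s))]
  field_simp

end CV_

open CV_ in
theorem p_CV : T_CV := by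
  intro n m hm
  have hmsp : Measurable (sp : Ed (n + 1) → ℝ × Ed n) := (sp_mp n).measurable
  -- the map factors through the splitting
  have hfac : (fun ξ : Ed (n + 1) => (√(m ^ 2 + ‖ξ‖ ^ 2) + ξ 0, tl ξ)) =
      (fun z : ℝ × Ed n => (√((m ^ 2 + ‖z.2‖ ^ 2) + z.1 ^ 2) + z.1, z.2)) ∘ sp := by
    funext ξ
    have h : m ^ 2 + ‖ξ‖ ^ 2 = m ^ 2 + ‖tl ξ‖ ^ 2 + (ξ 0) ^ 2 := by rw [norm_sq]; ring
    simp only [Function.comp, sp]
    rw [h]
  have hmg : Measurable (fun z : ℝ × Ed n =>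
      (√((m ^ 2 + ‖z.2‖ ^ 2) + z.1 ^ 2) + z.1, z.2)) := by fun_prop
  have hmf : Measurable (fun ξ : Ed (n + 1) => (√(m ^ 2 + ‖ξ‖ ^ 2) + ξ 0, tl ξ)) := by
    rw [hfac]; exact hmg.comp hmsp
  have hmd : Measurable (fun ξ : Ed (n + 1) => ENNReal.ofReal (1 / √(m ^ 2 + ‖ξ‖ ^ 2))) := by
    fun_prop
  have hmi : Measurable (fun a : ℝ => ENNReal.ofReal (1 / a)) := by fun_prop
  refine Measure.ext_of_lintegral _ fun F hF => ?_
  rw [lintegral_map hF hmf]
  have hW : ∫⁻ a : Ed (n + 1), F (√(m ^ 2 + ‖a‖ ^ 2) + a 0, tl a)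
      ∂(volume.withDensity fun ξ : Ed (n + 1) => ENNReal.ofReal (1 / √(m ^ 2 + ‖ξ‖ ^ 2))) = _ :=
    lintegral_withDensity_eq_lintegral_mul _ hmd (hF.comp hmf)
  rw [hW, lintegral_prod_symm' F hF]
  -- left side on the product
  have hL : ∫⁻ ξ : Ed (n + 1), ((fun ξ : Ed (n + 1) => ENNReal.ofReal (1 / √(m ^ 2 + ‖ξ‖ ^ 2))) *
      (F ∘ fun ξ : Ed (n + 1) => (√(m ^ 2 + ‖ξ‖ ^ 2) + ξ 0, tl ξ))) ξ =
      ∫⁻ z : ℝ × Ed n, ENNReal.ofReal (1 / √((m ^ 2 + ‖z.2‖ ^ 2) + z.1 ^ 2)) *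
        F (√((m ^ 2 + ‖z.2‖ ^ 2) + z.1 ^ 2) + z.1, z.2) := by
    rw [← (sp_mp n).lintegral_comp (f := fun z : ℝ × Ed n =>
      ENNReal.ofReal (1 / √((m ^ 2 + ‖z.2‖ ^ 2) + z.1 ^ 2)) *
        F (√((m ^ 2 + ‖z.2‖ ^ 2) + z.1 ^ 2) + z.1, z.2)) (by
          refine Measurable.mul (by fun_prop) (hF.comp hmg))]
    refine lintegral_congr fun ξ => ?_
    have h : m ^ 2 + ‖ξ‖ ^ 2 = m ^ 2 + ‖tl ξ‖ ^ 2 + (ξ 0) ^ 2 := by rw [norm_sq]; ring
    simp only [Pi.mul_apply, Function.comp, sp]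
    rw [h]
  have hmz : Measurable (fun z : ℝ × Ed n =>
      ENNReal.ofReal (1 / √((m ^ 2 + ‖z.2‖ ^ 2) + z.1 ^ 2)) *
        F (√((m ^ 2 + ‖z.2‖ ^ 2) + z.1 ^ 2) + z.1, z.2)) :=
    Measurable.mul (by fun_prop) (hF.comp hmg)
  refine hL.trans ?_
  rw [show (volume : Measure (ℝ × Ed n)) = (volume : Measure ℝ).prod (volume : Measure (Ed n)) from
    rfl, lintegral_prod_symm' _ hmz]
  refine lintegral_congr fun y => ?_
  have hW2 : ∫⁻ a : ℝ, F (a, y)
      ∂((volume.restrict (Ioi (0 : ℝ))).withDensity fun a => ENNReal.ofReal (1 / a)) = _ :=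
    lintegral_withDensity_eq_lintegral_mul _ hmi
      (hF.comp (measurable_prodMk_right (y := y)))
  rw [hW2]
  exact oneD (m ^ 2 + ‖y‖ ^ 2) (by positivity) fun a => F (a, y)

end Pool.Agent.SymM
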