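import Pool.Agent.SymM.Targets

set_option autoImplicit false

noncomputable section

open MeasureTheory Set Filter
open scoped ENNReal RealInnerProductSpace Topology ComplexConjugate

namespace Pool.Agent.SymM

open Pool.Agent.ExpMax

namespace EL_

theorem tangent {p : ℝ} (hp : 2 < p) (a h : ℝ) :
    |a| ^ p + p * (|a| ^ (p - 2) * a * h) ≤ |a + h| ^ p := by
  by_cases ha : a = 0
  · subst ha
    rw [abs_zero, Real.zero_rpow (by linarith), mul_zero, zero_mul, mul_zero, add_zero]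
    positivity
  have ha' : 0 < |a| := abs_pos.mpr ha
  have e1 : |a + h| ^ p = |a| ^ p * |1 + h / a| ^ p := by
    rw [← Real.mul_rpow (abs_nonneg _) (abs_nonneg _), ← abs_mul, mul_add, mul_one,
      mul_div_cancel₀ _ ha]
  have e2 : |a| ^ p = |a| ^ (p - 2) * (a * a) := by
    have h2 : a * a = |a| ^ (2 : ℝ) := by
      rw [Real.rpow_two, sq_abs, sq]
    rw [h2, ← Real.rpow_add ha']
    congr 1
    ring
  have e3 : |a| ^ p + p * (|a| ^ (p - 2) * a * h) = |a| ^ p * (1 + p * (h / a)) := by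
    rw [e2]
    field_simp
  rw [e1, e3]
  apply mul_le_mul_of_nonneg_left _ (by positivity)
  by_cases ht : -1 ≤ h / a
  · have h1 := one_add_mul_self_le_rpow_one_add ht (by linarith : (1 : ℝ) ≤ p)
    rwa [abs_of_nonneg (by linarith)]
  · push Not at ht
    have h1 : 1 + p * (h / a) ≤ 0 := by nlinarith
    exact h1.trans (by positivity)

theorem young {p : ℝ} (hp : 2 < p) (a b : ℝ) : |a| ^ (p - 1) * |b| ≤ |a| ^ p + |b| ^ p := by
  have key : ∀ c : ℝ, 0 ≤ c → c ^ (p - 1) * c = c ^ p := by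
    intro c hc
    rcases hc.eq_or_lt with h | h
    · rw [← h, mul_zero, Real.zero_rpow (by linarith)]
    · nth_rewrite 2 [← Real.rpow_one c]
      rw [← Real.rpow_add h]
      congr 1
      ring
  rcases le_total |b| |a| with h | h
  · calc |a| ^ (p - 1) * |b| ≤ |a| ^ (p - 1) * |a| :=
          mul_le_mul_of_nonneg_left h (by positivity)
      _ = |a| ^ p := key _ (abs_nonneg _)
      _ ≤ _ := le_add_of_nonneg_right (by positivity)
  · calc |a| ^ (p - 1) * |b| ≤ |b| ^ (p - 1) * |b| :=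
          mul_le_mul_of_nonneg_right (Real.rpow_le_rpow (abs_nonneg _) h (by linarith))
            (abs_nonneg _)
      _ = |b| ^ p := key _ (abs_nonneg _)
      _ ≤ _ := le_add_of_nonneg_left (by positivity)

theorem triangle {p : ℝ} (hp : 2 < p) (a b : ℝ) :
    |b| ^ p ≤ 2 ^ p * (|a + b| ^ p + |a| ^ p) := by
  have h1 : |b| ≤ 2 * max |a + b| |a| := by
    have h2 : |b| ≤ |a + b| + |a| := by
      have h3 := abs_sub (a + b) a
      rwa [add_sub_cancel_left] at h3
    have h3 := le_max_left |a + b| |a|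
    have h4 := le_max_right |a + b| |a|
    linarith
  have h5 : |b| ^ p ≤ (2 * max |a + b| |a|) ^ p :=
    Real.rpow_le_rpow (abs_nonneg _) h1 (by linarith)
  rw [Real.mul_rpow (by norm_num) (le_max_of_le_left (abs_nonneg _))] at h5
  refine h5.trans (mul_le_mul_of_nonneg_left ?_ (by positivity))
  rcases le_total |a + b| |a| with h | h
  · rw [max_eq_right h]
    exact le_add_of_nonneg_left (by positivity)
  · rw [max_eq_left h]
    exact le_add_of_nonneg_right (by positivity)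

/-- the multiplier criterion: a nonnegative function vanishing at `0` -/
theorem deriv_zero {p D G C E : ℝ} (hp : 2 < p)
    (h : ∀ e : ℝ, p * (e * E) ≤ C * ((D + e ^ 2 * G) ^ (p / 2) - D ^ (p / 2))) : E = 0 := by
  have h1 : HasDerivAt (fun e : ℝ => C * ((D + e ^ 2 * G) ^ (p / 2) - D ^ (p / 2)) -
      p * (e * E)) (C * (0 * (p / 2) * (D + 0 ^ 2 * G) ^ (p / 2 - 1)) - p * (1 * E)) 0 := by
    have h2 : HasDerivAt (fun e : ℝ => D + e ^ 2 * G) 0 0 := by
      have h3 := (((hasDerivAt_id (0 : ℝ)).pow 2).mul_const G).const_add D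
      simpa using h3
    have h4 := h2.rpow_const (p := p / 2) (Or.inr (by linarith))
    have h5 := ((h4.sub_const (D ^ (p / 2))).const_mul C).sub
      ((((hasDerivAt_id (0 : ℝ)).mul_const E)).const_mul p)
    exact h5
  have hmin : IsLocalMin (fun e : ℝ => C * ((D + e ^ 2 * G) ^ (p / 2) - D ^ (p / 2)) -
      p * (e * E)) 0 := by
    apply Filter.Eventually.of_forall
    intro e
    have h2 := h e
    simp only
    rw [zero_mul, mul_zero, sub_zero, zero_pow two_ne_zero, zero_mul, add_zero, sub_self,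
      mul_zero]
    linarith
  have h6 := hmin.hasDerivAt_eq_zero h1
  have h7 : p * E = 0 := by linarith
  rcases mul_eq_zero.mp h7 with h8 | h8
  · linarith
  · exact h8

variable {d : ℕ} {β γ : ℝ}

theorem cos_meas (z : ℝ × Ed d) :
    Continuous (fun ζ : Pt d => Real.cos (ζ.1 * z.1 + ⟪ζ.2.2, z.2⟫)) := by
  fun_prop

theorem int_cos {g : Pt d → ℝ} (hg : Integrable g (sectionMeasure 0 β γ d)) (z : ℝ × Ed d) :
    Integrable (fun ζ => g ζ * Real.cos (ζ.1 * z.1 + ⟪ζ.2.2, z.2⟫))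
      (sectionMeasure 0 β γ d) := by
  refine hg.mono (hg.aestronglyMeasurable.mul (cos_meas z).aestronglyMeasurable) ?_
  filter_upwards with ζ
  rw [norm_mul]
  have h1 : ‖Real.cos (ζ.1 * z.1 + ⟪ζ.2.2, z.2⟫)‖ ≤ 1 := Real.abs_cos_le_one _
  calc ‖g ζ‖ * _ ≤ ‖g ζ‖ * 1 := mul_le_mul_of_nonneg_left h1 (norm_nonneg _)
    _ = ‖g ζ‖ := mul_one _

theorem rx_cont {g : Pt d → ℝ} (hg : Integrable g (sectionMeasure 0 β γ d)) :
    Continuous (rx β γ g) := by
  unfold rx
  apply continuous_of_dominated (bound := fun ζ => ‖g ζ‖)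
  · intro z
    exact (int_cos hg z).aestronglyMeasurable
  · intro z
    filter_upwards with ζ
    rw [norm_mul]
    have h1 : ‖Real.cos (ζ.1 * z.1 + ⟪ζ.2.2, z.2⟫)‖ ≤ 1 := Real.abs_cos_le_one _
    calc ‖g ζ‖ * _ ≤ ‖g ζ‖ * 1 := mul_le_mul_of_nonneg_left h1 (norm_nonneg _)
      _ = ‖g ζ‖ := mul_one _
  · exact hg.norm
  · filter_upwards with ζ
    fun_prop

theorem rx_add {g h : Pt d → ℝ} (hg : Integrable g (sectionMeasure 0 β γ d))
    (hh : Integrable h (sectionMeasure 0 β γ d)) (e : ℝ) (z : ℝ × Ed d) :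
    rx β γ (fun ζ => g ζ + e * h ζ) z = rx β γ g z + e * rx β γ h z := by
  unfold rx
  rw [← integral_const_mul, ← integral_add (int_cos hg z) ((int_cos hh z).const_mul e)]
  congr 1
  ext ζ
  ring

theorem lint_sq {f : Pt d → ℝ} {μ : Measure (Pt d)} (hf : MemLp f 2 μ) :
    ∫⁻ ζ, ‖((f ζ : ℝ) : ℂ)‖ₑ ^ (2 : ℝ) ∂μ = ENNReal.ofReal (∫ ζ, f ζ ^ 2 ∂μ) := by
  rw [ofReal_integral_eq_lintegral_ofReal hf.integrable_sq (by
    filter_upwards with ζ
    exact sq_nonneg _)]
  congr 1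
  ext ζ
  rw [← ofReal_norm, Complex.norm_real, ENNReal.ofReal_rpow_of_nonneg (norm_nonneg _) (by norm_num)]
  congr 1
  rw [Real.rpow_two, Real.norm_eq_abs, sq_abs]

theorem lint_fin {X : Type*} [MeasurableSpace X] {μ : Measure X} {p : ℝ} (hp : 0 < p)
    {f : X → ℝ} (hf : AEStronglyMeasurable f μ) (h : ∫⁻ x, ‖f x‖ₑ ^ p ∂μ < ∞) :
    Integrable (fun x => |f x| ^ p) μ ∧
      ∫⁻ x, ‖f x‖ₑ ^ p ∂μ = ENNReal.ofReal (∫ x, |f x| ^ p ∂μ) := by
  have e1 : ∀ x, ‖f x‖ₑ ^ p = ENNReal.ofReal (|f x| ^ p) := by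
    intro x
    rw [← ofReal_norm, ENNReal.ofReal_rpow_of_nonneg (norm_nonneg _) hp.le, Real.norm_eq_abs]
  have hm : AEStronglyMeasurable (fun x => |f x| ^ p) μ := by
    have h1 : AEMeasurable (fun x => |f x| ^ p) μ := by
      have h2 := hf.aemeasurable.norm
      exact h2.pow_const p
    exact h1.aestronglyMeasurable
  have hi : Integrable (fun x => |f x| ^ p) μ := by
    refine ⟨hm, ?_⟩
    rw [hasFiniteIntegral_iff_ofReal (by filter_upwards with x; positivity)]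
    calc ∫⁻ x, ENNReal.ofReal (|f x| ^ p) ∂μ = ∫⁻ x, ‖f x‖ₑ ^ p ∂μ := by
          congr 1; ext x; exact (e1 x).symm
      _ < ∞ := h
  refine ⟨hi, ?_⟩
  rw [ofReal_integral_eq_lintegral_ofReal hi (by filter_upwards with x; positivity)]
  congr 1
  ext x
  exact e1 x

end EL_

theorem p_EL (h1 : T_NRM) (h2 : T_LONE) : T_EL := by
  intro d β γ p g hd hβ hγ hp hev hgi hg2 horth hmax
  have hβ' : |(0 : ℝ)| ≠ |β| := by
    rw [abs_zero]
    exact (abs_pos.mpr hβ).ne
  have hez : Integrable (ez : Pt d → ℝ) (sectionMeasure 0 β γ d) := by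
    have h := h2 d 0 β γ 1 hd hβ' hγ one_pos
    have e : (fun ζ : Pt d => Real.exp (-(1 * |ζ.1|))) = ez := by
      ext ζ
      unfold ez
      rw [one_mul]
    rwa [e] at h
  obtain ⟨hmem, hne, hfin, hq⟩ := hmax
  have hcast : (expTau : Pt d → ℂ) = fun ζ => ((ez ζ : ℝ) : ℂ) := rfl
  have hez2 : MemLp (ez : Pt d → ℝ) 2 (sectionMeasure 0 β γ d) := by
    have h := hmem.norm
    have e : (fun ζ : Pt d => ‖(expTau ζ : ℂ)‖) = ez := by
      ext ζ
      rw [hcast]
      simp only [Complex.norm_real, Real.norm_eq_abs]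
      exact abs_of_pos (Real.exp_pos _)
    rwa [e] at h
  obtain ⟨D, hD⟩ : ∃ D, D = ∫ ζ, ez ζ ^ 2 ∂(sectionMeasure 0 β γ d) := ⟨_, rfl⟩
  obtain ⟨G, hG⟩ : ∃ G, G = ∫ ζ, g ζ ^ 2 ∂(sectionMeasure 0 β γ d) := ⟨_, rfl⟩
  have hG0 : 0 ≤ G := hG ▸ integral_nonneg fun ζ => sq_nonneg _
  have hD0 : 0 < D := by
    have h3 : 0 ≤ D := hD ▸ integral_nonneg fun ζ => sq_nonneg _
    rcases h3.eq_or_lt with h4 | h4
    · exfalso
      apply hne
      have h5 := (integral_eq_zero_iff_of_nonneg (fun ζ => sq_nonneg _)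
        hez2.integrable_sq).mp (hD.symm.trans h4.symm)
      filter_upwards [h5] with ζ hζ
      rw [hcast]
      have h6 : ez ζ = 0 := by
        have h7 : ez ζ ^ 2 = 0 := hζ
        exact pow_eq_zero_iff two_ne_zero |>.mp h7
      simp [h6]
    · exact h4
  have hp0 : 0 < p := by linarith
  -- the perturbations
  have ff : ∀ e : ℝ, Integrable (fun ζ => ez ζ + e * g ζ) (sectionMeasure 0 β γ d) :=
    fun e => hez.add (hgi.const_mul e)
  have ff2 : ∀ e : ℝ, MemLp (fun ζ => ez ζ + e * g ζ) 2 (sectionMeasure 0 β γ d) :=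
    fun e => hez2.add (hg2.const_mul e)
  have fev : ∀ e : ℝ, Ev (fun ζ : Pt d => ez ζ + e * g ζ) := by
    intro e τ ρ ξ
    have h3 := hev τ ρ ξ
    simp only [h3]
    unfold ez
    simp
  have hezg : Integrable (fun ζ => ez ζ * g ζ) (sectionMeasure 0 β γ d) := by
    exact hez2.integrable_mul hg2
  have fsq : ∀ e : ℝ, ∫ ζ, (ez ζ + e * g ζ) ^ 2 ∂(sectionMeasure 0 β γ d) = D + e ^ 2 * G := by
    intro e
    have h3 : ∀ ζ : Pt d, (ez ζ + e * g ζ) ^ 2 = (ez ζ ^ 2 + 2 * e * (ez ζ * g ζ)) +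
      e ^ 2 * g ζ ^ 2 := fun ζ => by ring
    simp only [h3]
    have A := hez2.integrable_sq
    have B := hezg.const_mul (2 * e)
    have C := hg2.integrable_sq.const_mul (e ^ 2)
    rw [integral_add (f := fun ζ => ez ζ ^ 2 + 2 * e * (ez ζ * g ζ)) (A.add B) C,
      integral_add A B, integral_const_mul, integral_const_mul, horth, ← hD, ← hG]
    ring
  have hM : ∀ e : ℝ, quotient 0 β γ p (fun ζ : Pt d => ((ez ζ + e * g ζ : ℝ) : ℂ)) ≤
      bestConst 0 β γ d p := by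
    intro e
    unfold bestConst
    refine le_iSup_of_le _ (le_iSup_of_le ?_ (le_iSup_of_le ?_ (le_iSup_of_le ?_ le_rfl)))
    · exact (ff2 e).ofReal
    · exact (ff e).ofReal
    · intro h3
      have h4 : ∫ ζ, (ez ζ + e * g ζ) ^ 2 ∂(sectionMeasure 0 β γ d) = 0 := by
        rw [integral_eq_zero_of_ae]
        filter_upwards [h3] with ζ hζ
        have h6 : ((ez ζ + e * g ζ : ℝ) : ℂ) = 0 := hζ
        have h5 : ez ζ + e * g ζ = 0 := by exact_mod_cast h6
        simp [h5]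
      rw [fsq e] at h4
      have h5 : 0 ≤ e ^ 2 * G := by positivity
      linarith
  have hpos : ∀ e : ℝ, 0 < D + e ^ 2 * G := by
    intro e
    have h5 : 0 ≤ e ^ 2 * G := by positivity
    linarith
  -- the continuous functions
  obtain ⟨u, hu⟩ : ∃ u, u = rx β γ (ez : Pt d → ℝ) := ⟨_, rfl⟩
  obtain ⟨w, hw⟩ : ∃ w, w = rx β γ g := ⟨_, rfl⟩
  have uc : Continuous u := hu ▸ EL_.rx_cont hez
  have wc : Continuous w := hw ▸ EL_.rx_cont hgi
  obtain ⟨M, hMd⟩ : ∃ M, M = bestConst 0 β γ d p := ⟨_, rfl⟩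
  have hq2 : ∀ e : ℝ, quotient 0 β γ p (fun ζ : Pt d => ((ez ζ + e * g ζ : ℝ) : ℂ)) =
      (ENNReal.ofReal (1 / |β|) * ∫⁻ z : ℝ × Ed d, ‖u z + e * w z‖ₑ ^ p) /
        ENNReal.ofReal ((D + e ^ 2 * G) ^ (p / 2)) := by
    intro e
    unfold quotient
    rw [h1 d β γ p _ hd hβ hγ hp0 (fev e) (ff e), EL_.lint_sq (ff2 e), fsq e,
      ENNReal.ofReal_rpow_of_pos (hpos e)]
    congr 3
    ext z
    rw [EL_.rx_add hez hgi e z, hu, hw]
  have hB0 : ∀ e : ℝ, ENNReal.ofReal ((D + e ^ 2 * G) ^ (p / 2)) ≠ 0 := by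
    intro e
    rw [Ne, ENNReal.ofReal_eq_zero, not_le]
    exact Real.rpow_pos_of_pos (hpos e) _
  have hle : ∀ e : ℝ, ENNReal.ofReal (1 / |β|) * ∫⁻ z : ℝ × Ed d, ‖u z + e * w z‖ₑ ^ p ≤
      M * ENNReal.ofReal ((D + e ^ 2 * G) ^ (p / 2)) := by
    intro e
    have h3 := hM e
    rw [hq2 e, ← hMd, ENNReal.div_le_iff (hB0 e) ENNReal.ofReal_ne_top] at h3
    exact h3
  have heq : ENNReal.ofReal (1 / |β|) * ∫⁻ z : ℝ × Ed d, ‖u z + 0 * w z‖ₑ ^ p =
      M * ENNReal.ofReal ((D + 0 ^ 2 * G) ^ (p / 2)) := by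
    have h3 := hq2 0
    have h4 : (fun ζ : Pt d => ((ez ζ + 0 * g ζ : ℝ) : ℂ)) = expTau := by
      rw [hcast]
      ext ζ
      simp
    rw [h4, hq, ← hMd] at h3
    rw [h3, ENNReal.div_mul_cancel (hB0 0) ENNReal.ofReal_ne_top]
  have hβ0 : 0 < 1 / |β| := by positivity
  have hMt : M ≠ ∞ := by rw [hMd]; exact hfin.ne
  have hL : ∀ e : ℝ, ∫⁻ z : ℝ × Ed d, ‖u z + e * w z‖ₑ ^ p < ∞ := by
    intro e
    rw [lt_top_iff_ne_top]
    intro h3
    have h4 := hle e
    rw [h3, ENNReal.mul_top (by simpa using hβ)] at h4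
    exact (ENNReal.mul_lt_top hMt.lt_top ENNReal.ofReal_lt_top).ne (top_le_iff.mp h4)
  have hN := fun e : ℝ => EL_.lint_fin (μ := (volume : Measure (ℝ × Ed d))) hp0
    (f := fun z => u z + e * w z) (uc.add (wc.const_mul e)).aestronglyMeasurable (hL e)
  have hup : Integrable (fun z : ℝ × Ed d => |u z| ^ p) := by
    have h3 := (hN 0).1
    simpa using h3
  have hwp : Integrable (fun z : ℝ × Ed d => |w z| ^ p) := by
    have h3 := (hN 1).1
    simp only [one_mul] at h3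
    refine ((h3.add hup).const_mul (2 ^ p)).mono'
      (wc.abs.rpow_const fun z => Or.inr hp0.le).aestronglyMeasurable ?_
    filter_upwards with z
    rw [Real.norm_eq_abs, abs_of_nonneg (by positivity)]
    exact EL_.triangle hp (u z) (w z)
  have hcpow : Continuous fun z : ℝ × Ed d => |u z| ^ (p - 1) :=
    uc.abs.rpow_const fun z => Or.inr (by linarith)
  have hcpow2 : Continuous fun z : ℝ × Ed d => |u z| ^ (p - 2) :=
    uc.abs.rpow_const fun z => Or.inr (by linarith)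
  have huw : Integrable (fun z : ℝ × Ed d => |u z| ^ (p - 1) * |w z|) := by
    refine (hup.add hwp).mono' (hcpow.mul wc.abs).aestronglyMeasurable ?_
    filter_upwards with z
    rw [Real.norm_eq_abs, abs_of_nonneg (by positivity)]
    exact EL_.young hp (u z) (w z)
  have huw2 : Integrable (fun z : ℝ × Ed d => |u z| ^ (p - 2) * u z * w z) := by
    refine huw.mono ((hcpow2.mul uc).mul wc).aestronglyMeasurable ?_
    filter_upwards with z
    rw [Real.norm_eq_abs, Real.norm_eq_abs, abs_mul, abs_mul, abs_mul, abs_abs,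
      abs_of_nonneg (by positivity : (0 : ℝ) ≤ |u z| ^ (p - 2)),
      abs_of_nonneg (by positivity : (0 : ℝ) ≤ |u z| ^ (p - 1))]
    apply le_of_eq
    congr 1
    rcases (abs_nonneg (u z)).eq_or_lt with h | h
    · rw [← h, mul_zero, Real.zero_rpow (by linarith)]
    · nth_rewrite 2 [← Real.rpow_one |u z|]
      rw [← Real.rpow_add h]
      congr 1
      ring
  subst hu hw
  refine ⟨hup, huw, ?_⟩
  apply EL_.deriv_zero (p := p) (D := D) (G := G) (C := |β| * M.toReal) hp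
  intro e
  have hβa : 0 < |β| := abs_pos.mpr hβ
  have r1 : 1 / |β| * ∫ z : ℝ × Ed d, |rx β γ ez z + e * rx β γ g z| ^ p ≤
      M.toReal * (D + e ^ 2 * G) ^ (p / 2) := by
    have h3 := hle e
    rw [(hN e).2, ← ENNReal.ofReal_mul hβ0.le] at h3
    have h4 := ENNReal.toReal_mono (ENNReal.mul_ne_top hMt ENNReal.ofReal_ne_top) h3
    rwa [ENNReal.toReal_mul, ENNReal.toReal_ofReal (by
      have := hpos e
      positivity), ENNReal.toReal_ofReal (by positivity)] at h4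
  have r2 : 1 / |β| * ∫ z : ℝ × Ed d, |rx β γ ez z| ^ p = M.toReal * D ^ (p / 2) := by
    have h3 := heq
    rw [(hN 0).2, ← ENNReal.ofReal_mul hβ0.le] at h3
    have h4 := congrArg ENNReal.toReal h3
    rw [ENNReal.toReal_mul, ENNReal.toReal_ofReal (by
      have := hpos 0
      positivity), ENNReal.toReal_ofReal (by positivity)] at h4
    simpa using h4
  have r3 : (∫ z : ℝ × Ed d, |rx β γ ez z| ^ p) +
      p * (e * ∫ z : ℝ × Ed d, |rx β γ ez z| ^ (p - 2) * rx β γ ez z * rx β γ g z) ≤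
      ∫ z : ℝ × Ed d, |rx β γ ez z + e * rx β γ g z| ^ p := by
    rw [← integral_const_mul, ← integral_const_mul, ← integral_add hup
      ((huw2.const_mul e).const_mul p)]
    apply integral_mono (hup.add ((huw2.const_mul e).const_mul p)) (hN e).1
    intro z
    have h3 := EL_.tangent hp (rx β γ ez z) (e * rx β γ g z)
    simp only
    have h4 : p * (|rx β γ ez z| ^ (p - 2) * rx β γ ez z * (e * rx β γ g z)) =
      p * (e * (|rx β γ ez z| ^ (p - 2) * rx β γ ez z * rx β γ g z)) := by ring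
    rw [h4] at h3
    exact h3
  have r4 : (1 / |β|) * (p * (e * ∫ z : ℝ × Ed d,
      |rx β γ ez z| ^ (p - 2) * rx β γ ez z * rx β γ g z)) ≤
      M.toReal * ((D + e ^ 2 * G) ^ (p / 2) - D ^ (p / 2)) := by
    have h5 := mul_le_mul_of_nonneg_left r3 hβ0.le
    rw [mul_add, r2] at h5
    linarith
  have h6 := mul_le_mul_of_nonneg_left r4 hβa.le
  have h7 : |β| * (1 / |β| * (p * (e * ∫ z : ℝ × Ed d,
      |rx β γ ez z| ^ (p - 2) * rx β γ ez z * rx β γ g z))) = p * (e * ∫ z : ℝ × Ed d,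
      |rx β γ ez z| ^ (p - 2) * rx β γ ez z * rx β γ g z) := by
    field_simp
  rw [h7, ← mul_assoc |β|] at h6
  exact h6

end Pool.Agent.SymM
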