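import Pool.Agent.SymM.Targets

set_option autoImplicit false

/-!
# The finiteness theorem for the hyperboloids: assembly
-/

noncomputable section

open MeasureTheory Set Filter
open scoped ENNReal RealInnerProductSpace Topology

namespace Pool.Agent.SymM

open Pool.Agent.ExpMax

namespace FIN_

theorem cont_rx {d : ℕ} (β γ : ℝ) (g : Pt d → ℝ) (hg : Integrable g (sectionMeasure 0 β γ d)) :
    Continuous (rx β γ g) := by
  unfold rx
  refine continuous_of_dominated (bound := fun ζ => ‖g ζ‖) ?_ ?_ hg.norm ?_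
  · intro z
    refine hg.aestronglyMeasurable.mul (Continuous.aestronglyMeasurable ?_)
    fun_prop
  · intro z
    refine Eventually.of_forall fun ζ => ?_
    rw [norm_mul]
    refine mul_le_of_le_one_right (norm_nonneg _) ?_
    rw [Real.norm_eq_abs]
    exact Real.abs_cos_le_one _
  · refine Eventually.of_forall fun ζ => ?_
    fun_prop

theorem ez_mul_gt {n : ℕ} (c : ℝ) (ζ : Pt (n + 1)) : ez ζ * gt c ζ = gt (c + 1) ζ := by
  unfold ez gt
  rw [mul_left_comm, ← Real.exp_add]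
  congr 2
  ring

end FIN_

open FIN_ in
theorem p_FIN (hEL : T_EL) (hUPR : T_UPR) (hGT : T_GT) (hLRHO : T_LRHO) (hMEL : T_MEL)
    (hLARGE : T_LARGE) (hKN : T_KNAPP) (hLONE : T_LONE) : T_FIN := by
  intro d β γ hd hβ hγ
  obtain ⟨n, rfl⟩ : ∃ n, d = n + 1 := ⟨d - 1, by omega⟩
  set σ := sectionMeasure 0 β γ (n + 1) with hσ
  have hm : 0 < |γ / β| := abs_pos.mpr (div_ne_zero hγ hβ)
  set m : ℝ := |γ / β| with hmdef
  have hD : (0 : ℝ) < (n : ℝ) + 1 := by positivity
  have hcast : ((n + 1 : ℕ) : ℝ) = (n : ℝ) + 1 := by push_cast; ring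
  -- integrability of the exponential
  have hez : Integrable (ez : Pt (n + 1) → ℝ) σ := by
    have h1 := hLONE (n + 1) 0 β γ 1 hd (by rw [abs_zero]; exact (abs_pos.mpr hβ).ne) hγ one_pos
    refine h1.congr (Eventually.of_forall fun ζ => ?_)
    simp only [ez, one_mul]
  obtain ⟨hucont, hu0, hult, L, hL⟩ := hUPR (n + 1) β γ hd hβ hγ
  set u : ℝ × Ed (n + 1) → ℝ := rx β γ ez with hu
  obtain ⟨K, hK, hgt⟩ := hGT n β γ hβ hγ
  -- the masses
  set F : ℝ → ℝ := fun c => ∫ ζ, gt c ζ ∂σ with hF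
  have hFc : ∀ c : ℝ, 0 < c → F c = K * (c ^ (-(((n : ℝ) + 1) / 2)) * Real.exp (-(c * m))) :=
    fun c hc => (hgt c hc).2.2.2.1
  have hFpos : ∀ c : ℝ, 0 < c → 0 < F c := by
    intro c hc
    rw [hFc c hc]
    positivity
  set g : Pt (n + 1) → ℝ := fun ζ => F 3 * gt 1 ζ - F 2 * gt 2 ζ with hg
  have hg1 : Integrable g σ :=
    ((hgt 1 one_pos).2.1.const_mul _).sub ((hgt 2 two_pos).2.1.const_mul _)
  have hg2 : MemLp g 2 σ :=
    ((hgt 1 one_pos).2.2.1.const_mul _).sub ((hgt 2 two_pos).2.2.1.const_mul _)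
  have hgev : Ev g := by
    intro τ ρ ξ
    simp only [hg]
    rw [(hgt 1 one_pos).1 τ ρ ξ, (hgt 2 two_pos).1 τ ρ ξ]
  have horth : ∫ ζ, ez ζ * g ζ ∂σ = 0 := by
    have h1 : ∀ ζ : Pt (n + 1), ez ζ * g ζ = F 3 * gt 2 ζ - F 2 * gt 3 ζ := by
      intro ζ
      have e1 := ez_mul_gt 1 ζ
      have e2 := ez_mul_gt 2 ζ
      have e3 : (1 : ℝ) + 1 = 2 := by norm_num
      have e4 : (2 : ℝ) + 1 = 3 := by norm_num
      rw [e3] at e1
      rw [e4] at e2
      simp only [hg]
      rw [mul_sub, mul_left_comm, mul_left_comm (ez ζ) (F 2), e1, e2]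
    simp only [h1]
    rw [integral_sub ((hgt 2 two_pos).2.1.const_mul _) ((hgt 3 (by norm_num)).2.1.const_mul _),
      integral_const_mul, integral_const_mul]
    change F 3 * F 2 - F 2 * F 3 = 0
    ring
  have hsum : 0 < ∫ ζ, g ζ ∂σ := by
    simp only [hg]
    rw [integral_sub ((hgt 1 one_pos).2.1.const_mul _) ((hgt 2 two_pos).2.1.const_mul _),
      integral_const_mul, integral_const_mul]
    change 0 < F 3 * F 1 - F 2 * F 2
    rw [hFc 3 (by norm_num), hFc 1 one_pos, hFc 2 two_pos]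
    set e : ℝ := -(((n : ℝ) + 1) / 2) with he
    have he0 : e < 0 := by rw [he]; linarith
    have h1 : (1 : ℝ) ^ e = 1 := Real.one_rpow _
    have h2 : (2 : ℝ) ^ e * (2 : ℝ) ^ e = (4 : ℝ) ^ e := by
      rw [← Real.mul_rpow (by norm_num) (by norm_num)]
      norm_num
    have h3 : (4 : ℝ) ^ e < (3 : ℝ) ^ e := Real.rpow_lt_rpow_of_neg (by norm_num) (by norm_num) he0
    have h4 : Real.exp (-(3 * m)) * Real.exp (-(1 * m)) = Real.exp (-(4 * m)) := by
      rw [← Real.exp_add]; congr 1; ring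
    have h5 : Real.exp (-(2 * m)) * Real.exp (-(2 * m)) = Real.exp (-(4 * m)) := by
      rw [← Real.exp_add]; congr 1; ring
    have h6 : K * ((3 : ℝ) ^ e * Real.exp (-(3 * m))) * (K * ((1 : ℝ) ^ e * Real.exp (-(1 * m)))) -
        K * ((2 : ℝ) ^ e * Real.exp (-(2 * m))) * (K * ((2 : ℝ) ^ e * Real.exp (-(2 * m)))) =
        K ^ 2 * Real.exp (-(4 * m)) * ((3 : ℝ) ^ e - (4 : ℝ) ^ e) := by
      rw [← h2, h1]
      linear_combination (K ^ 2 * (3 : ℝ) ^ e) * h4 - (K ^ 2 * (2 : ℝ) ^ e * (2 : ℝ) ^ e) * h5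
    rw [h6]
    have h7 : 0 < (3 : ℝ) ^ e - (4 : ℝ) ^ e := by linarith
    positivity
  -- the extension of the test function
  set w : ℝ × Ed (n + 1) → ℝ := rx β γ g with hw
  have hwcont : Continuous w := cont_rx β γ g hg1
  have hw0 : 0 < w 0 := by
    have h1 : w 0 = ∫ ζ, g ζ ∂σ := by
      rw [hw]
      unfold rx
      apply integral_congr_ae
      refine Eventually.of_forall fun ζ => ?_
      simp
    rw [h1]
    exact hsum
  set ρ : ℝ := 2 + 3 / ((n : ℝ) + 1) with hρ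
  have hρ2 : 2 < ρ := by
    rw [hρ]
    have : 0 < 3 / ((n : ℝ) + 1) := by positivity
    linarith
  have hρ1 : 2 + 2 / ((n : ℝ) + 1) < ρ := by
    rw [hρ]
    have : 2 / ((n : ℝ) + 1) < 3 / ((n : ℝ) + 1) := div_lt_div_of_pos_right (by norm_num) hD
    linarith
  have hmem : ∀ c : ℝ, 0 < c → MemLp (rx β γ (gt c) : ℝ × Ed (n + 1) → ℝ)
      (ENNReal.ofReal ρ) volume := by
    intro c hc
    have h1 := cont_rx β γ (gt c) (hgt c hc).2.1
    have h2 := hLRHO n c m ρ hc hm hρ1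
    refine (integrable_norm_rpow_iff h1.aestronglyMeasurable
      (by simp only [ne_eq, ENNReal.ofReal_eq_zero, not_le]; linarith) ENNReal.ofReal_ne_top).mp ?_
    rw [ENNReal.toReal_ofReal (by linarith)]
    refine (h2.const_mul (K ^ ρ)).mono' ?_ ?_
    · exact (h1.norm.rpow_const fun _ => Or.inr (by linarith)).aestronglyMeasurable
    · refine Eventually.of_forall fun z => ?_
      rw [Real.norm_of_nonneg (by positivity), Real.norm_eq_abs]
      rw [← Real.mul_rpow hK.le (by positivity)]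
      exact Real.rpow_le_rpow (abs_nonneg _) ((hgt c hc).2.2.2.2 z.1 z.2) (by linarith)
  have hwsplit : w = fun z => F 3 * rx β γ (gt 1) z - F 2 * rx β γ (gt 2) z := by
    funext z
    rw [hw]
    unfold rx
    have hi : ∀ c : ℝ, 0 < c → Integrable (fun ζ : Pt (n + 1) => gt c ζ *
        Real.cos (ζ.1 * z.1 + ⟪ζ.2.2, z.2⟫)) σ := by
      intro c hc
      refine (hgt c hc).2.1.mul_bdd (c := 1) (Continuous.aestronglyMeasurable (by fun_prop)) ?_
      refine Eventually.of_forall fun ζ => ?_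
      rw [Real.norm_eq_abs]
      exact Real.abs_cos_le_one _
    rw [← integral_const_mul, ← integral_const_mul, ← integral_sub ((hi 1 one_pos).const_mul _)
      ((hi 2 two_pos).const_mul _)]
    apply integral_congr_ae
    refine Eventually.of_forall fun ζ => ?_
    simp only [hg]
    ring
  have hwmem : MemLp w (ENNReal.ofReal ρ) volume := by
    rw [hwsplit]
    exact ((hmem 1 one_pos).const_mul _).sub ((hmem 2 two_pos).const_mul _)
  have hwint : Integrable (fun z => |w z| ^ ρ) := by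
    have h1 := hwmem.integrable_norm_rpow (by simp only [ne_eq, ENNReal.ofReal_eq_zero, not_le]; linarith) ENNReal.ofReal_ne_top
    rw [ENNReal.toReal_ofReal (by linarith)] at h1
    exact h1
  -- the exceptional set
  set P : Set ℝ := {p : ℝ | 0 < p ∧ IsMaximizer 0 β γ p (expTau : Pt (n + 1) → ℂ)} with hP
  have hPmin : ∀ p ∈ P, 2 + 4 / ((n : ℝ) + 1) ≤ p := by
    intro p hp
    by_contra hlt
    rw [not_le] at hlt
    have h1 := hKN (n + 1) β γ p hd hβ hγ hp.1 (by rw [hcast]; exact hlt)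
    have h2 := hp.2.2.2.1
    rw [h1] at h2
    exact lt_irrefl _ h2
  have hPEL : ∀ p ∈ P, Integrable (fun z => |u z| ^ p) ∧
      ∫ z, |u z| ^ (p - 2) * u z * w z = 0 := by
    intro p hp
    have h2 : 2 < p := by
      have := hPmin p hp
      have h3 : 0 < 4 / ((n : ℝ) + 1) := by positivity
      linarith
    obtain ⟨h3, _, h5⟩ := hEL (n + 1) β γ p g hd hβ hγ h2 hgev hg1 hg2 horth hp.2
    exact ⟨h3, h5⟩
  -- Young's inequality
  have hcon : (ρ / (ρ - 1)).HolderConjugate ρ :=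
    (Real.HolderConjugate.conjExponent (by linarith : 1 < ρ)).symm
  have hYoung : ∀ p ∈ P, Integrable (fun z => |u z| ^ ((1 + p * (1 - 1 / ρ)) - 1) * |w z|) := by
    intro p hp
    have hp0 : 0 < p := hp.1
    have h1 : 0 < 1 - 1 / ρ := by
      have : 1 / ρ < 1 := by rw [div_lt_one (by linarith)]; linarith
      linarith
    have hb : Integrable fun z => |u z| ^ p / (ρ / (ρ - 1)) + |w z| ^ ρ / ρ :=
      ((hPEL p hp).1.div_const _).add (hwint.div_const _)
    refine hb.mono' ?_ ?_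
    · refine (Continuous.mul ?_ hwcont.abs).aestronglyMeasurable
      refine hucont.abs.rpow_const fun _ => Or.inr ?_
      have : 0 ≤ p * (1 - 1 / ρ) := by positivity
      linarith
    · refine Eventually.of_forall fun z => ?_
      rw [Real.norm_of_nonneg (by positivity)]
      have h2 := Real.young_inequality_of_nonneg
        (a := |u z| ^ ((1 + p * (1 - 1 / ρ)) - 1)) (b := |w z|) (by positivity) (abs_nonneg _) hcon
      refine h2.trans (le_of_eq ?_)
      congr 2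
      rw [← Real.rpow_mul (abs_nonneg _)]
      congr 1
      have h3 : ρ ≠ 0 := by linarith
      have h4 : ρ - 1 ≠ 0 := by linarith
      field_simp
      ring
  by_contra hfin
  have hinf : P.Infinite := hfin
  obtain ⟨p₁, hp₁⟩ := hinf.nonempty
  have hr1 : ∀ p ∈ P, 1 < 1 + p * (1 - 1 / ρ) := by
    intro p hp
    have h1 : 0 < 1 - 1 / ρ := by
      have : 1 / ρ < 1 := by rw [div_lt_one (by linarith)]; linarith
      linarith
    have := mul_pos hp.1 h1
    linarith
  have hp12 : 1 ≤ p₁ := by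
    have := hPmin p₁ hp₁
    have h3 : 0 < 4 / ((n : ℝ) + 1) := by positivity
    linarith
  obtain ⟨p₀, hp₀r, hp₀⟩ := hLARGE (n + 1) u w (1 + p₁ * (1 - 1 / ρ)) p₁ L hucont hwcont hu0 hult hL
    hp12 (hPEL p₁ hp₁).1 hw0 (hr1 p₁ hp₁) (hYoung p₁ hp₁)
  have hsub : P ⊆ Icc (2 + 4 / ((n : ℝ) + 1)) p₀ := by
    intro p hp
    refine ⟨hPmin p hp, ?_⟩
    by_contra hlt
    rw [not_le] at hlt
    have h1 := hp₀ p hlt.le
    rw [(hPEL p hp).2] at h1
    exact lt_irrefl _ h1
  obtain ⟨q, hqI, hq⟩ := hinf.exists_accPt_of_subset_isCompact isCompact_Icc hsub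
  set δ : ℝ := 1 / (2 * ((n : ℝ) + 1) + 3) with hδ
  have hδ0 : 0 < δ := by rw [hδ]; positivity
  obtain ⟨p₂, hp₂P, hp₂⟩ : ∃ p₂ ∈ P, p₂ < q + δ := by
    rw [accPt_iff_nhds] at hq
    obtain ⟨y, hy, _⟩ := hq (Iio (q + δ)) (Iio_mem_nhds (by linarith))
    exact ⟨y, hy.2, hy.1⟩
  have hrq : 1 + p₂ * (1 - 1 / ρ) < q := by
    have h1 : 1 + δ ≤ p₂ / ρ := by
      rw [le_div_iff₀ (by linarith)]
      refine le_trans (le_of_eq ?_) (hPmin p₂ hp₂P)
      rw [hδ, hρ]
      field_simp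
      ring
    have h2 : 1 + p₂ * (1 - 1 / ρ) = p₂ + (1 - p₂ / ρ) := by ring
    rw [h2]
    linarith
  have huA : ∀ z, |u z| ≤ u 0 := by
    intro z
    by_cases hz : z = 0
    · rw [hz, abs_of_pos hu0]
    · exact (hult z hz).le
  have hall := hMEL (ℝ × Ed (n + 1)) volume u w (u 0) (1 + p₂ * (1 - 1 / ρ)) P q
    hucont.measurable hwcont.measurable huA (hr1 p₂ hp₂P) (hYoung p₂ hp₂P)
    (fun p hp => (hPEL p hp).2) hrq hq
  have h1 := hall (max p₀ (1 + p₂ * (1 - 1 / ρ) + 1)) (lt_of_lt_of_le (by linarith) (le_max_right _ _))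
  have h2 := hp₀ (max p₀ (1 + p₂ * (1 - 1 / ρ) + 1)) (le_max_left _ _)
  rw [h1] at h2
  exact lt_irrefl _ h2

end Pool.Agent.SymM
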