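import Pool.Agent.SymM.Targets

set_option autoImplicit false
set_option maxHeartbeats 4000000

/-!
# GT: the test functions on the hyperboloid
-/

noncomputable section

open MeasureTheory Set Filter
open scoped ENNReal RealInnerProductSpace Topology ComplexConjugate

namespace Pool.Agent.SymM

open Pool.Agent.ExpMax

namespace GT_

/-- the first coordinate -/
def ta (β γ : ℝ) {d : ℕ} (ξ : Ed d) : ℝ := √((γ / β) ^ 2 + ‖ξ‖ ^ 2)

theorem ta_pos (β γ : ℝ) (hβ : β ≠ 0) (hγ : γ ≠ 0) {d : ℕ} (ξ : Ed d) : 0 < ta β γ ξ := by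
  have h : (γ / β) ≠ 0 := div_ne_zero hγ hβ
  unfold ta
  positivity

theorem ta_neg (β γ : ℝ) {d : ℕ} (ξ : Ed d) : ta β γ (-ξ) = ta β γ ξ := by
  simp [ta]

theorem ta_meas (β γ : ℝ) {d : ℕ} : Measurable (ta β γ : Ed d → ℝ) := by
  unfold ta
  fun_prop

theorem hpt_meas (β γ ε : ℝ) {d : ℕ} : Measurable (hpt β γ ε : Ed d → Pt d) := by
  unfold hpt
  fun_prop

theorem dens_meas (β γ : ℝ) {d : ℕ} : Measurable
    (fun ξ : Ed d => ENNReal.ofReal (1 / (2 * |β| * √((γ / β) ^ 2 + ‖ξ‖ ^ 2)))) := by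
  fun_prop

/-- integrability for `hnu` -/
theorem int_hnu (β γ : ℝ) (hβ : β ≠ 0) (hγ : γ ≠ 0) {d : ℕ} (G : Ed d → ℝ)
    (hG : Integrable (fun ξ => G ξ / ta β γ ξ)) : Integrable G (hnu β γ d) := by
  unfold hnu
  rw [integrable_withDensity_iff_integrable_smul' (dens_meas β γ)
    (Eventually.of_forall fun _ => ENNReal.ofReal_lt_top)]
  refine (hG.const_mul (1 / (2 * |β|))).congr (Eventually.of_forall fun ξ => ?_)
  have h1 : 0 < ta β γ ξ := ta_pos β γ hβ hγ ξ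
  have h2 : 0 < |β| := abs_pos.2 hβ
  have h3 : (0 : ℝ) ≤ 1 / (2 * |β| * √((γ / β) ^ 2 + ‖ξ‖ ^ 2)) := by positivity
  simp only [smul_eq_mul, ENNReal.toReal_ofReal h3]
  change 1 / (2 * |β|) * (G ξ / ta β γ ξ) = 1 / (2 * |β| * ta β γ ξ) * G ξ
  field_simp

/-- the integral for `hnu` -/
theorem integral_hnu (β γ : ℝ) (hβ : β ≠ 0) (hγ : γ ≠ 0) {d : ℕ} (G : Ed d → ℝ) :
    ∫ ξ, G ξ ∂(hnu β γ d) = 1 / (2 * |β|) * ∫ ξ, G ξ / ta β γ ξ := by
  unfold hnu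
  rw [integral_withDensity_eq_integral_toReal_smul (dens_meas β γ)
    (Eventually.of_forall fun _ => ENNReal.ofReal_lt_top), ← integral_const_mul]
  refine integral_congr_ae (Eventually.of_forall fun ξ => ?_)
  have h1 : 0 < ta β γ ξ := ta_pos β γ hβ hγ ξ
  have h2 : 0 < |β| := abs_pos.2 hβ
  have h3 : (0 : ℝ) ≤ 1 / (2 * |β| * √((γ / β) ^ 2 + ‖ξ‖ ^ 2)) := by positivity
  simp only [smul_eq_mul, ENNReal.toReal_ofReal h3]
  change 1 / (2 * |β| * ta β γ ξ) * G ξ = 1 / (2 * |β|) * (G ξ / ta β γ ξ)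
  field_simp

/-- integrability for the section -/
theorem int_sec (h1 : T_HYP) (d : ℕ) (hd : 1 ≤ d) (β γ : ℝ) (hβ : β ≠ 0) (hγ : γ ≠ 0)
    (F : Pt d → ℝ) (hF : Measurable F)
    (hs : ∀ ξ, F (hpt β γ (-1) ξ) = F (hpt β γ 1 (-ξ)))
    (hi : Integrable (fun ξ => F (hpt β γ 1 ξ) / ta β γ ξ)) :
    Integrable F (sectionMeasure 0 β γ d) ∧
    ∫ ζ, F ζ ∂(sectionMeasure 0 β γ d) = 1 / |β| * ∫ ξ, F (hpt β γ 1 ξ) / ta β γ ξ := by
  have hi' : Integrable (fun ξ => F (hpt β γ (-1) ξ) / ta β γ ξ) := by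
    refine hi.comp_neg.congr (Eventually.of_forall fun ξ => ?_)
    simp only [hs, ta_neg]
  have hc1 : Integrable (F ∘ hpt β γ 1) (hnu β γ d) := int_hnu β γ hβ hγ _ hi
  have hc2 : Integrable (F ∘ hpt β γ (-1)) (hnu β γ d) := int_hnu β γ hβ hγ _ hi'
  have hm1 : Integrable F (Measure.map (hpt β γ 1) (hnu β γ d)) := by
    rw [integrable_map_measure hF.aestronglyMeasurable (hpt_meas β γ 1).aemeasurable]
    exact hc1
  have hm2 : Integrable F (Measure.map (hpt β γ (-1)) (hnu β γ d)) := by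
    rw [integrable_map_measure hF.aestronglyMeasurable (hpt_meas β γ (-1)).aemeasurable]
    exact hc2
  rw [h1 d β γ hd hβ hγ]
  refine ⟨hm1.add_measure hm2, ?_⟩
  rw [integral_add_measure hm1 hm2, integral_map (hpt_meas β γ 1).aemeasurable
    hF.aestronglyMeasurable, integral_map (hpt_meas β γ (-1)).aemeasurable
    hF.aestronglyMeasurable, integral_hnu β γ hβ hγ, integral_hnu β γ hβ hγ]
  have h2 : ∫ ξ, F (hpt β γ (-1) ξ) / ta β γ ξ = ∫ ξ, F (hpt β γ 1 ξ) / ta β γ ξ := by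
    rw [← integral_neg_eq_self (fun ξ => F (hpt β γ 1 ξ) / ta β γ ξ)]
    refine integral_congr_ae (Eventually.of_forall fun ξ => ?_)
    simp only [hs, ta_neg]
  rw [h2]
  have h3 : 0 < |β| := abs_pos.2 hβ
  field_simp
  ring

theorem sign_meas : Measurable (fun x : ℝ => ((SignType.sign x : SignType) : ℝ)) := by
  have : (fun x : ℝ => ((SignType.sign x : SignType) : ℝ)) =
      fun x : ℝ => if 0 < x then (1 : ℝ) else if x < 0 then -1 else 0 := by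
    funext x
    rw [sign_apply]
    split_ifs <;> simp
  rw [this]
  exact Measurable.ite measurableSet_Ioi measurable_const
    (Measurable.ite measurableSet_Iio measurable_const measurable_const)

theorem gt_meas (c : ℝ) (n : ℕ) : Measurable (gt c : Pt (n + 1) → ℝ) := by
  unfold gt
  have h1 : Measurable (fun ζ : Pt (n + 1) => ((SignType.sign ζ.1 : SignType) : ℝ)) :=
    sign_meas.comp measurable_fst
  have h2 : Measurable (fun ζ : Pt (n + 1) => ζ.2.2 0) := by fun_prop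
  have h3 : Measurable (fun ζ : Pt (n + 1) => |ζ.1|) := by fun_prop
  exact (((h3.add (h1.mul h2)).pow_const _).mul (by fun_prop))

theorem gt_ev (c : ℝ) (n : ℕ) : Ev (gt c : Pt (n + 1) → ℝ) := by
  intro τ ρ ξ
  have : ((SignType.sign (-τ) : SignType) : ℝ) = - ((SignType.sign τ : SignType) : ℝ) := by
    rw [Left.sign_neg]
    simp
  simp only [gt, abs_neg, this, PiLp.neg_apply, neg_mul_neg]

/-- values on the upper sheet -/
theorem gt_hpt (c β γ : ℝ) (hβ : β ≠ 0) (hγ : γ ≠ 0) (n : ℕ) (ξ : Ed (n + 1)) :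
    gt c (hpt β γ 1 ξ) = (ta β γ ξ + ξ 0) ^ (-(((n : ℝ) + 1) / 2)) *
      Real.exp (-(c * ta β γ ξ)) := by
  have h1 : 0 < ta β γ ξ := ta_pos β γ hβ hγ ξ
  have h2 : (hpt β γ 1 ξ).1 = ta β γ ξ := by simp [hpt, ta]
  have h3 : (hpt β γ 1 ξ).2.2 = ξ := rfl
  simp only [gt, h2, h3, abs_of_pos h1, sign_pos h1, SignType.coe_one, one_mul]

theorem hpt_neg (β γ : ℝ) (n : ℕ) (ξ : Ed (n + 1)) :
    hpt β γ (-1) ξ = (-(hpt β γ 1 (-ξ)).1, (hpt β γ 1 (-ξ)).2.1, -(hpt β γ 1 (-ξ)).2.2) := by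
  simp [hpt]

theorem gt_sym (c β γ : ℝ) (n : ℕ) (ξ : Ed (n + 1)) :
    gt c (hpt β γ (-1) ξ) = gt c (hpt β γ 1 (-ξ)) := by
  rw [hpt_neg]
  exact gt_ev c n _ _ _

theorem abs_coord (n : ℕ) (ξ : Ed (n + 1)) : |ξ 0| ≤ ‖ξ‖ := by
  have := PiLp.norm_apply_le ξ 0
  simpa using this

/-- boundedness -/
theorem gt_bdd (c β γ : ℝ) (hc : 0 < c) (hβ : β ≠ 0) (hγ : γ ≠ 0) (n : ℕ) :
    ∃ C : ℝ, ∀ ξ : Ed (n + 1), 0 ≤ gt c (hpt β γ 1 ξ) ∧ gt c (hpt β γ 1 ξ) ≤ C := by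
  have hm : 0 < (γ / β) ^ 2 := by
    have h : (γ / β) ≠ 0 := div_ne_zero hγ hβ
    positivity
  set b : ℝ := 2 / (γ / β) ^ 2 with hb
  have hb0 : 0 < b := by positivity
  set c' : ℝ := c / b with hc'
  have hc0 : 0 < c' := by positivity
  obtain ⟨N, hN⟩ := exists_nat_ge (((n : ℝ) + 1) / 2)
  refine ⟨(N.factorial : ℝ) / c' ^ N * Real.exp c', fun ξ => ?_⟩
  have h1 : 0 < ta β γ ξ := ta_pos β γ hβ hγ ξ
  have hsq : ta β γ ξ ^ 2 = (γ / β) ^ 2 + ‖ξ‖ ^ 2 := by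
    unfold ta
    exact Real.sq_sqrt (by positivity)
  have hle : ‖ξ‖ < ta β γ ξ := by
    nlinarith [norm_nonneg ξ]
  have hab := abs_coord n ξ
  have h0 : |ξ 0| < ta β γ ξ := lt_of_le_of_lt hab hle
  have h2 := abs_lt.1 h0
  have hp : 0 < ta β γ ξ + ξ 0 := by linarith [h2.1]
  have hq : 0 < ta β γ ξ - ξ 0 := by linarith [h2.2]
  rw [gt_hpt c β γ hβ hγ]
  refine ⟨by positivity, ?_⟩
  have hprod : (γ / β) ^ 2 ≤ (ta β γ ξ + ξ 0) * (ta β γ ξ - ξ 0) := by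
    have : (ξ 0) ^ 2 ≤ ‖ξ‖ ^ 2 := by
      rw [← sq_abs (ξ 0)]
      exact pow_le_pow_left₀ (abs_nonneg _) hab 2
    nlinarith
  have hinv : (ta β γ ξ + ξ 0)⁻¹ ≤ b * ta β γ ξ := by
    rw [inv_le_iff_one_le_mul₀ hp, hb, div_mul_eq_mul_div, div_mul_eq_mul_div, le_div_iff₀ hm]
    nlinarith
  have hpow : (ta β γ ξ + ξ 0) ^ (-(((n : ℝ) + 1) / 2)) ≤ (1 + b * ta β γ ξ) ^ N := by
    rw [Real.rpow_neg hp.le, ← Real.inv_rpow hp.le]
    calc ((ta β γ ξ + ξ 0)⁻¹) ^ (((n : ℝ) + 1) / 2)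
        ≤ (1 + b * ta β γ ξ) ^ (((n : ℝ) + 1) / 2) :=
          Real.rpow_le_rpow (by positivity) (by linarith) (by positivity)
      _ ≤ (1 + b * ta β γ ξ) ^ (N : ℝ) :=
          Real.rpow_le_rpow_of_exponent_le (by nlinarith [mul_pos hb0 h1]) hN
      _ = (1 + b * ta β γ ξ) ^ N := Real.rpow_natCast _ _
  have hexp := Real.pow_div_factorial_le_exp (c' * (1 + b * ta β γ ξ)) (by positivity) N
  have hbig : (1 + b * ta β γ ξ) ^ N ≤
      (N.factorial : ℝ) / c' ^ N * (Real.exp c' * Real.exp (c * ta β γ ξ)) := by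
    have hcb : c' * (b * ta β γ ξ) = c * ta β γ ξ := by
      rw [hc']
      field_simp
    have he : Real.exp (c' * (1 + b * ta β γ ξ)) = Real.exp c' * Real.exp (c * ta β γ ξ) := by
      rw [← Real.exp_add, mul_add, mul_one, hcb]
    rw [he, mul_pow, div_le_iff₀ (by positivity)] at hexp
    have hr : (N.factorial : ℝ) / c' ^ N * (Real.exp c' * Real.exp (c * ta β γ ξ)) =
        ((N.factorial : ℝ) * (Real.exp c' * Real.exp (c * ta β γ ξ))) / c' ^ N := by ring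
    rw [hr, le_div_iff₀ (by positivity)]
    linarith
  calc (ta β γ ξ + ξ 0) ^ (-(((n : ℝ) + 1) / 2)) * Real.exp (-(c * ta β γ ξ))
      ≤ ((N.factorial : ℝ) / c' ^ N * (Real.exp c' * Real.exp (c * ta β γ ξ))) *
        Real.exp (-(c * ta β γ ξ)) :=
        mul_le_mul_of_nonneg_right (hpow.trans hbig) (Real.exp_pos _).le
    _ = (N.factorial : ℝ) / c' ^ N * Real.exp c' *
        (Real.exp (c * ta β γ ξ) * Real.exp (-(c * ta β γ ξ))) := by ring
    _ = (N.factorial : ℝ) / c' ^ N * Real.exp c' := by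
        rw [← Real.exp_add, add_neg_cancel, Real.exp_zero, mul_one]

end GT_

open GT_ in
theorem p_GT (h1 : T_HYP) (h2 : T_IX) : T_GT := by
  intro n β γ hβ hγ
  set m : ℝ := |γ / β| with hm
  have hm0 : 0 < m := abs_pos.2 (div_ne_zero hγ hβ)
  have hm2 : m ^ 2 = (γ / β) ^ 2 := sq_abs _
  have hb0 : 0 < |β| := abs_pos.2 hβ
  set a : ℝ := ((n : ℝ) + 1) / 2 with ha
  refine ⟨1 / |β| * (1 / m * (2 * Real.pi) ^ a), by positivity, ?_⟩
  intro c hc
  have hta : ∀ ξ : Ed (n + 1), √(m ^ 2 + ‖ξ‖ ^ 2) = ta β γ ξ := fun ξ => by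
    unfold ta
    rw [hm2]
  -- the integrals of IX
  have hIX : ∀ (t : ℝ) (x : Ed (n + 1)),
      Integrable (fun ξ : Ed (n + 1) => gt c (hpt β γ 1 ξ) / ta β γ ξ) ∧
      ∫ ξ : Ed (n + 1), ((gt c (hpt β γ 1 ξ) / ta β γ ξ : ℝ) : ℂ) *
        Complex.exp (-(Complex.I * ((ta β γ ξ * t + ⟪ξ, x⟫ : ℝ) : ℂ))) =
      (1 / m : ℝ) * ((2 * Real.pi : ℝ) / ((c : ℂ) + Complex.I * ((t - x 0 : ℝ) : ℂ))) ^
        ((a : ℝ) : ℂ) *
        Complex.exp (-(m * (((c : ℂ) + Complex.I * t) ^ 2 + ((‖x‖ ^ 2 : ℝ) : ℂ)) ^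
          (1 / 2 : ℂ))) := by
    intro t x
    have := h2 n m c hm0 hc t x
    simp only [hta] at this
    simp only [gt_hpt c β γ hβ hγ]
    exact this
  have hint := (hIX 0 0).1
  obtain ⟨hI, hV⟩ := int_sec h1 (n + 1) (by omega) β γ hβ hγ (gt c) (gt_meas c n)
    (gt_sym c β γ n) hint
  refine ⟨gt_ev c n, hI, ?_, ?_, ?_⟩
  · rw [memLp_two_iff_integrable_sq (gt_meas c n).aestronglyMeasurable]
    obtain ⟨C, hC⟩ := gt_bdd c β γ hc hβ hγ n
    refine (int_sec h1 (n + 1) (by omega) β γ hβ hγ (fun ζ => gt c ζ ^ 2)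
      ((gt_meas c n).pow_const 2) (fun ξ => by simp only [gt_sym]) ?_).1
    refine (hint.const_mul C).mono' ?_ (Eventually.of_forall fun ξ => ?_)
    · exact ((((gt_meas c n).comp (hpt_meas β γ 1)).pow_const 2).div
        (ta_meas β γ)).aestronglyMeasurable
    · have h3 := ta_pos β γ hβ hγ ξ
      have h4 := hC ξ
      rw [Real.norm_of_nonneg (by positivity), ← mul_div_assoc]
      refine div_le_div_of_nonneg_right ?_ h3.le
      nlinarith [h4.1, h4.2]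
  · rw [hV]
    have h3 := (hIX 0 0).2
    have h4 : ∫ ξ : Ed (n + 1), ((gt c (hpt β γ 1 ξ) / ta β γ ξ : ℝ) : ℂ) *
        Complex.exp (-(Complex.I * ((ta β γ ξ * 0 + ⟪ξ, (0 : Ed (n + 1))⟫ : ℝ) : ℂ))) =
        ((∫ ξ : Ed (n + 1), gt c (hpt β γ 1 ξ) / ta β γ ξ : ℝ) : ℂ) := by
      rw [← integral_complex_ofReal]
      refine integral_congr_ae (Eventually.of_forall fun ξ => ?_)
      simp
    rw [h4] at h3
    have h5 : (1 / m : ℝ) * ((2 * Real.pi : ℝ) /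
        ((c : ℂ) + Complex.I * ((0 - (0 : Ed (n + 1)) 0 : ℝ) : ℂ))) ^ ((a : ℝ) : ℂ) *
        Complex.exp (-(m * (((c : ℂ) + Complex.I * (0 : ℝ)) ^ 2 +
          ((‖(0 : Ed (n + 1))‖ ^ 2 : ℝ) : ℂ)) ^ (1 / 2 : ℂ))) =
        ((1 / m * ((2 * Real.pi) / c) ^ a * Real.exp (-(m * c)) : ℝ) : ℂ) := by
      have e1 : (c : ℂ) + Complex.I * ((0 - (0 : Ed (n + 1)) 0 : ℝ) : ℂ) = (c : ℂ) := by simp
      have e2 : ((c : ℂ) + Complex.I * (0 : ℝ)) ^ 2 + ((‖(0 : Ed (n + 1))‖ ^ 2 : ℝ) : ℂ) =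
          ((c ^ 2 : ℝ) : ℂ) := by simp
      have e3 : (1 / 2 : ℂ) = ((1 / 2 : ℝ) : ℂ) := by push_cast; ring
      rw [e1, e2, e3, ← Complex.ofReal_cpow (by positivity), ← Real.sqrt_eq_rpow,
        Real.sqrt_sq hc.le, ← Complex.ofReal_div, ← Complex.ofReal_cpow (by positivity)]
      push_cast
      ring
    rw [h5] at h3
    have h6 := Complex.ofReal_injective h3
    rw [h6, Real.div_rpow (by positivity) hc.le, Real.rpow_neg hc.le, mul_comm c m]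
    field_simp
  · intro t x
    have hF : Measurable (fun ζ : Pt (n + 1) => gt c ζ * Real.cos (ζ.1 * t + ⟪ζ.2.2, x⟫)) := by
      refine (gt_meas c n).mul ?_
      fun_prop
    have hbd : ∀ ξ : Ed (n + 1), Real.cos (ta β γ ξ * t + ⟪ξ, x⟫) =
        Real.cos ((hpt β γ 1 ξ).1 * t + ⟪(hpt β γ 1 ξ).2.2, x⟫) := fun ξ => by
      simp [hpt, ta]
    have hi2 : Integrable (fun ξ : Ed (n + 1) => (gt c (hpt β γ 1 ξ) *
        Real.cos ((hpt β γ 1 ξ).1 * t + ⟪(hpt β γ 1 ξ).2.2, x⟫)) / ta β γ ξ) := by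
      refine hint.norm.mono' ?_ (Eventually.of_forall fun ξ => ?_)
      · exact ((hF.comp (hpt_meas β γ 1)).div (ta_meas β γ)).aestronglyMeasurable
      · rw [mul_div_right_comm, norm_mul]
        exact mul_le_of_le_one_right (norm_nonneg _) (Real.abs_cos_le_one _)
    obtain ⟨-, hV2⟩ := int_sec h1 (n + 1) (by omega) β γ hβ hγ
      (fun ζ : Pt (n + 1) => gt c ζ * Real.cos (ζ.1 * t + ⟪ζ.2.2, x⟫)) hF (fun ξ => by
        rw [gt_sym, hpt_neg]
        congr 1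
        rw [← Real.cos_neg]
        congr 1
        simp only [inner_neg_left]
        ring) hi2
    have hrx : rx β γ (gt c) (t, x) = 1 / |β| * ∫ ξ : Ed (n + 1), (gt c (hpt β γ 1 ξ) *
        Real.cos ((hpt β γ 1 ξ).1 * t + ⟪(hpt β γ 1 ξ).2.2, x⟫)) / ta β γ ξ := hV2
    have h3 := (hIX t x).2
    -- integrability of the complex integrand
    have hic : Integrable (fun ξ : Ed (n + 1) => ((gt c (hpt β γ 1 ξ) / ta β γ ξ : ℝ) : ℂ) *
        Complex.exp (-(Complex.I * ((ta β γ ξ * t + ⟪ξ, x⟫ : ℝ) : ℂ)))) := by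
      refine hint.norm.mono' ?_ (Eventually.of_forall fun ξ => ?_)
      · refine Measurable.aestronglyMeasurable ?_
        have q1 := ((gt_meas c n).comp (hpt_meas β γ 1)).div (ta_meas β γ (d := n + 1))
        have q2 : Measurable fun ξ : Ed (n + 1) => ta β γ ξ * t + ⟪ξ, x⟫ :=
          ((ta_meas β γ).mul_const t).add (by fun_prop)
        exact (Complex.measurable_ofReal.comp q1).mul (Complex.measurable_exp.comp
          ((Complex.measurable_ofReal.comp q2).const_mul Complex.I).neg)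
      · rw [norm_mul, Complex.norm_real]
        refine mul_le_of_le_one_right (norm_nonneg _) (le_of_eq ?_)
        rw [Complex.norm_exp]
        simp
    have hre : ∫ ξ : Ed (n + 1), (gt c (hpt β γ 1 ξ) *
        Real.cos ((hpt β γ 1 ξ).1 * t + ⟪(hpt β γ 1 ξ).2.2, x⟫)) / ta β γ ξ =
        (∫ ξ : Ed (n + 1), ((gt c (hpt β γ 1 ξ) / ta β γ ξ : ℝ) : ℂ) *
          Complex.exp (-(Complex.I * ((ta β γ ξ * t + ⟪ξ, x⟫ : ℝ) : ℂ)))).re := by
      have q := integral_re hic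
      simp only [RCLike.re_to_complex] at q
      rw [← q]
      refine integral_congr_ae (Eventually.of_forall fun ξ => ?_)
      simp only [← hbd ξ]
      rw [Complex.re_ofReal_mul, Complex.exp_re]
      simp only [Complex.neg_re, Complex.mul_re, Complex.I_re, zero_mul, Complex.I_im,
        Complex.ofReal_im, mul_zero, sub_zero, neg_zero, Real.exp_zero, one_mul,
        Complex.neg_im, Complex.mul_im, Complex.ofReal_re, zero_add, Real.cos_neg]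
      ring
    rw [hrx, hre, h3, abs_mul, abs_of_pos (by positivity : (0 : ℝ) < 1 / |β|)]
    have hnorm : ‖(1 / m : ℝ) * ((2 * Real.pi : ℝ) /
        ((c : ℂ) + Complex.I * ((t - x 0 : ℝ) : ℂ))) ^ ((a : ℝ) : ℂ) *
        Complex.exp (-(m * (((c : ℂ) + Complex.I * t) ^ 2 + ((‖x‖ ^ 2 : ℝ) : ℂ)) ^
          (1 / 2 : ℂ)))‖ = 1 / m * (2 * Real.pi) ^ a *
        ((√(c ^ 2 + (t - x 0) ^ 2)) ^ (-a) * Real.exp (-(m *
          ((((c : ℂ) + Complex.I * t) ^ 2 + ((‖x‖ ^ 2 : ℝ) : ℂ)) ^ (1 / 2 : ℂ)).re))) := by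
      have e1 : ‖(c : ℂ) + Complex.I * ((t - x 0 : ℝ) : ℂ)‖ = √(c ^ 2 + (t - x 0) ^ 2) := by
        rw [mul_comm, Complex.norm_add_mul_I]
      rw [norm_mul, norm_mul, Complex.norm_real, Real.norm_of_nonneg (by positivity),
        Complex.norm_cpow_real, norm_div, Complex.norm_real,
        Real.norm_of_nonneg (by positivity : (0 : ℝ) ≤ 2 * Real.pi), e1, Complex.norm_exp,
        Real.div_rpow (by positivity) (Real.sqrt_nonneg _), Real.rpow_neg (Real.sqrt_nonneg _)]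
      simp only [Complex.neg_re, Complex.re_ofReal_mul]
      ring
    calc 1 / |β| * |((1 / m : ℝ) * ((2 * Real.pi : ℝ) /
        ((c : ℂ) + Complex.I * ((t - x 0 : ℝ) : ℂ))) ^ ((a : ℝ) : ℂ) *
        Complex.exp (-(m * (((c : ℂ) + Complex.I * t) ^ 2 + ((‖x‖ ^ 2 : ℝ) : ℂ)) ^
          (1 / 2 : ℂ)))).re|
        ≤ 1 / |β| * (1 / m * (2 * Real.pi) ^ a *
        ((√(c ^ 2 + (t - x 0) ^ 2)) ^ (-a) * Real.exp (-(m *
          ((((c : ℂ) + Complex.I * t) ^ 2 + ((‖x‖ ^ 2 : ℝ) : ℂ)) ^ (1 / 2 : ℂ)).re)))) := by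
          rw [← hnorm]
          exact mul_le_mul_of_nonneg_left (Complex.abs_re_le_norm _) (by positivity)
      _ = _ := by ring

end Pool.Agent.SymM
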