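import Pool.Agent.SymM.Targets
import Pool.Agent.ExpMax.SLICE

set_option autoImplicit false

/-!
# HYP: the measure of the hyperboloid
-/

noncomputable section

open MeasureTheory Set Filter
open scoped ENNReal RealInnerProductSpace Topology

namespace Pool.Agent.SymM

open Pool.Agent.ExpMax

namespace HYP_

/-- the substitution `s = √(m² + r²)` -/
lemma subst (m : ℝ) (hm : 0 < m) (H : ℝ → ℝ≥0∞) :
    ∫⁻ s in Ioi m, H s = ∫⁻ r in Ioi (0 : ℝ),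
      ENNReal.ofReal (r / √(m ^ 2 + r ^ 2)) * H (√(m ^ 2 + r ^ 2)) := by
  have hpos : ∀ r : ℝ, 0 < m ^ 2 + r ^ 2 := fun r => by positivity
  have hder : ∀ r ∈ Ioi (0 : ℝ), HasDerivWithinAt (fun r : ℝ => √(m ^ 2 + r ^ 2))
      (r / √(m ^ 2 + r ^ 2)) (Ioi 0) r := by
    intro r _
    have h1 : HasDerivAt (fun r : ℝ => m ^ 2 + r ^ 2) (2 * r) r := by
      simpa using (hasDerivAt_pow 2 r).const_add (m ^ 2)
    have h2 := h1.sqrt (hpos r).ne'
    refine (h2.congr_deriv ?_).hasDerivWithinAt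
    rw [mul_div_mul_left _ _ two_ne_zero]
  have hinj : InjOn (fun r : ℝ => √(m ^ 2 + r ^ 2)) (Ioi 0) := by
    intro a ha b hb hab
    have h1 : m ^ 2 + a ^ 2 = m ^ 2 + b ^ 2 := by
      have h2 := congrArg (fun x : ℝ => x ^ 2) hab
      simpa only [Real.sq_sqrt (hpos a).le, Real.sq_sqrt (hpos b).le] using h2
    have h3 : a ^ 2 = b ^ 2 := by linarith
    exact (pow_left_inj₀ (le_of_lt ha) (le_of_lt hb) two_ne_zero).1 h3
  have himg : (fun r : ℝ => √(m ^ 2 + r ^ 2)) '' Ioi 0 = Ioi m := by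
    ext s
    constructor
    · rintro ⟨r, hr, rfl⟩
      have hr' : 0 < r := hr
      exact (Real.lt_sqrt hm.le).2 (by nlinarith)
    · intro hs
      have hs' : m < s := hs
      have h0 : 0 < s := hm.trans hs'
      have h1 : 0 < s ^ 2 - m ^ 2 := by nlinarith
      refine ⟨√(s ^ 2 - m ^ 2), Real.sqrt_pos.2 h1, ?_⟩
      show √(m ^ 2 + √(s ^ 2 - m ^ 2) ^ 2) = s
      rw [Real.sq_sqrt h1.le, add_sub_cancel, Real.sqrt_sq h0.le]
  have h1 := lintegral_image_eq_lintegral_abs_deriv_mul measurableSet_Ioi hder hinj H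
  rw [himg] at h1
  rw [h1]
  refine setLIntegral_congr_fun measurableSet_Ioi fun r hr => ?_
  have hr' : 0 < r := hr
  have hs : 0 < √(m ^ 2 + r ^ 2) := Real.sqrt_pos.2 (hpos r)
  show ENNReal.ofReal |r / √(m ^ 2 + r ^ 2)| * H (√(m ^ 2 + r ^ 2)) = _
  rw [abs_of_nonneg (by positivity)]

/-- the contribution of one sheet -/
lemma sheet {d : ℕ} (hd : 1 ≤ d) (m ρ e : ℝ) (hm : 0 < m) (F : Pt d → ℝ≥0∞)
    (hF : Measurable F) :
    ∫⁻ s in Ioi m, ENNReal.ofReal ((s ^ 2 - m ^ 2) ^ (((d : ℝ) - 2) / 2)) *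
      ∫⁻ ω, F (e * s, ρ, √(s ^ 2 - m ^ 2) • (ω : Ed d)) ∂(volume : Measure (Ed d)).toSphere
    = ∫⁻ ξ : Ed d, ENNReal.ofReal (1 / √(m ^ 2 + ‖ξ‖ ^ 2)) *
        F (e * √(m ^ 2 + ‖ξ‖ ^ 2), ρ, ξ) := by
  rw [subst m hm]
  have hG : Measurable (fun ξ : Ed d => ENNReal.ofReal (1 / √(m ^ 2 + ‖ξ‖ ^ 2)) *
      F (e * √(m ^ 2 + ‖ξ‖ ^ 2), ρ, ξ)) := by
    refine Measurable.mul (by fun_prop) (hF.comp (by fun_prop))
  rw [SLICE_polar (by simpa using hd) hG]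
  refine setLIntegral_congr_fun measurableSet_Ioi fun r hr => ?_
  have hr' : 0 < r := hr
  have hs : 0 < √(m ^ 2 + r ^ 2) := Real.sqrt_pos.2 (by positivity)
  have hsq : √(m ^ 2 + r ^ 2) ^ 2 = m ^ 2 + r ^ 2 := Real.sq_sqrt (by positivity)
  have hfr : Module.finrank ℝ (Ed d) = d := by simp
  have hnorm : ∀ ω : Metric.sphere (0 : Ed d) 1, ‖r • (ω : Ed d)‖ = r := by
    intro ω
    rw [norm_smul, norm_eq_of_mem_sphere ω, mul_one, Real.norm_of_nonneg hr'.le]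
  show ENNReal.ofReal (r / √(m ^ 2 + r ^ 2)) *
      (ENNReal.ofReal ((√(m ^ 2 + r ^ 2) ^ 2 - m ^ 2) ^ (((d : ℝ) - 2) / 2)) *
      ∫⁻ ω, F (e * √(m ^ 2 + r ^ 2), ρ, √(√(m ^ 2 + r ^ 2) ^ 2 - m ^ 2) • (ω : Ed d))
        ∂(volume : Measure (Ed d)).toSphere) =
    ENNReal.ofReal (r ^ (Module.finrank ℝ (Ed d) - 1)) *
      ∫⁻ ω, ENNReal.ofReal (1 / √(m ^ 2 + ‖r • (ω : Ed d)‖ ^ 2)) *
        F (e * √(m ^ 2 + ‖r • (ω : Ed d)‖ ^ 2), ρ, r • (ω : Ed d))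
        ∂(volume : Measure (Ed d)).toSphere
  rw [hsq, add_sub_cancel_left, Real.sqrt_sq hr'.le, hfr]
  have e1 : ∫⁻ ω, ENNReal.ofReal (1 / √(m ^ 2 + ‖r • (ω : Ed d)‖ ^ 2)) *
        F (e * √(m ^ 2 + ‖r • (ω : Ed d)‖ ^ 2), ρ, r • (ω : Ed d))
        ∂(volume : Measure (Ed d)).toSphere =
      ENNReal.ofReal (1 / √(m ^ 2 + r ^ 2)) * ∫⁻ ω, F (e * √(m ^ 2 + r ^ 2), ρ, r • (ω : Ed d))
        ∂(volume : Measure (Ed d)).toSphere := by
    rw [← lintegral_const_mul' _ _ ENNReal.ofReal_ne_top]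
    refine lintegral_congr fun ω => ?_
    rw [hnorm ω]
  rw [e1, ← mul_assoc, ← mul_assoc, ← ENNReal.ofReal_mul (by positivity),
    ← ENNReal.ofReal_mul (by positivity)]
  congr 2
  have e2 : ((r ^ 2 : ℝ)) ^ (((d : ℝ) - 2) / 2) = r ^ ((d : ℝ) - 2) := by
    rw [← Real.rpow_natCast r 2, ← Real.rpow_mul hr'.le]
    congr 1
    push_cast
    ring
  have e3 : (r ^ (d - 1) : ℝ) = r ^ ((d : ℝ) - 2) * r := by
    rw [← Real.rpow_natCast r (d - 1), Nat.cast_sub hd]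
    nth_rewrite 3 [← Real.rpow_one r]
    rw [← Real.rpow_add hr']
    congr 1
    push_cast
    ring
  rw [e2, e3]
  ring

end HYP_

theorem p_HYP : T_HYP := by
  intro d β γ hd hβ hγ
  have hb : 0 < |β| := abs_pos.2 hβ
  set m : ℝ := |γ / β| with hmdef
  have hm : 0 < m := abs_pos.2 (div_ne_zero hγ hβ)
  have hm2 : (γ / β) ^ 2 = m ^ 2 := (sq_abs _).symm
  have hn0 : √((0 : ℝ) ^ 2 + β ^ 2) = |β| := by
    rw [zero_pow two_ne_zero, zero_add, Real.sqrt_sq_eq_abs]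
  obtain ⟨e, he, hee⟩ : ∃ e : ℝ, (e = 1 ∨ e = -1) ∧ β = -(e * |β|) := by
    rcases lt_or_gt_of_ne hβ with h | h
    · exact ⟨1, Or.inl rfl, by rw [abs_of_neg h]; ring⟩
    · exact ⟨-1, Or.inr rfl, by rw [abs_of_pos h]; ring⟩
  have he2 : e ^ 2 = 1 := by rcases he with h | h <;> rw [h] <;> norm_num
  have hplane : ∀ (s : ℝ) (ξ : Ed d), planePt 0 β γ s ξ = (e * s, -(γ / β), ξ) := by
    intro s ξ
    have h1 : s * β / |β| = -(e * s) := by
      rw [div_eq_iff hb.ne']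
      nth_rewrite 1 [hee]
      ring
    have h2 : -(γ * β) / ((0 : ℝ) ^ 2 + β ^ 2) = -(γ / β) := by
      field_simp
      ring
    simp only [planePt, hn0, h1, h2]
    simp
  have hQ : ∀ s : ℝ, Q 0 β γ s = s ^ 2 - m ^ 2 := by
    intro s
    have h1 := hplane s 0
    have h3 : (-(γ * 0) / ((0 : ℝ) ^ 2 + β ^ 2) - s * β / √((0 : ℝ) ^ 2 + β ^ 2)) = e * s :=
      congrArg (fun z : Pt d => z.1) h1
    have h4 : (-(γ * β) / ((0 : ℝ) ^ 2 + β ^ 2) + s * 0 / √((0 : ℝ) ^ 2 + β ^ 2)) = -(γ / β) :=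
      congrArg (fun z : Pt d => z.2.1) h1
    rw [Q, h3, h4, neg_sq, hm2, mul_pow, he2, one_mul]
  have hset : {s : ℝ | 0 < Q 0 β γ s} = Ioi m ∪ Iio (-m) := by
    ext s
    simp only [mem_ofPred_eq, mem_union, mem_Ioi, mem_Iio, hQ]
    constructor
    · intro h
      by_contra hc
      push Not at hc
      nlinarith
    · rintro (h | h) <;> nlinarith
  have hcone : Continuous (fun x : ℝ × Metric.sphere (0 : Ed d) 1 => conePt 0 β γ x.1 x.2) := by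
    unfold conePt planePt Q
    fun_prop
  refine Measure.ext_of_lintegral _ fun F hF => ?_
  -- the left hand side
  have hw : Measurable (fun s : ℝ => ENNReal.ofReal (Q 0 β γ s ^ (((d : ℝ) - 2) / 2))) := by
    unfold Q
    fun_prop
  have hFc : Measurable (fun x : ℝ × Metric.sphere (0 : Ed d) 1 => F (conePt 0 β γ x.1 x.2)) :=
    hF.comp hcone.measurable
  have hin : Measurable (fun s : ℝ => ∫⁻ ω, F (conePt 0 β γ s ω)
      ∂(volume : Measure (Ed d)).toSphere) := hFc.lintegral_prod_right'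
  have hL : ∫⁻ ζ, F ζ ∂(sectionMeasure 0 β γ d) = ENNReal.ofReal (1 / (2 * |β|)) *
      ∫⁻ s in Ioi m ∪ Iio (-m), ENNReal.ofReal (Q 0 β γ s ^ (((d : ℝ) - 2) / 2)) *
        ∫⁻ ω, F (conePt 0 β γ s ω) ∂(volume : Measure (Ed d)).toSphere := by
    rw [sectionMeasure, lintegral_smul_measure, lintegral_map hF hcone.measurable, hn0,
      lintegral_prod _ hFc.aemeasurable, lintegral_withDensity_eq_lintegral_mul _ hw hin, hset]
    rfl
  have hdisj : Disjoint (Ioi m) (Iio (-m)) := by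
    rw [Set.disjoint_left]
    intro x hx hx'
    have h1 : m < x := hx
    have h2 : x < -m := hx'
    linarith
  have hneg : ∀ g : ℝ → ℝ≥0∞, ∫⁻ s in Iio (-m), g s = ∫⁻ s in Ioi m, g (-s) := by
    intro g
    have h1 := (Measure.measurePreserving_neg (volume : Measure ℝ)).setLIntegral_comp_preimage_emb
      (MeasurableEquiv.neg ℝ).measurableEmbedding g (Iio (-m))
    rw [← h1]
    congr 2
    ext s
    simp
  have hcone2 : ∀ (s : ℝ) (ω : Metric.sphere (0 : Ed d) 1),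
      conePt 0 β γ s ω = (e * s, -(γ / β), √(s ^ 2 - m ^ 2) • (ω : Ed d)) := by
    intro s ω
    rw [conePt, hplane, hQ]
  have hS : ∀ e' : ℝ, ∫⁻ s in Ioi m, ENNReal.ofReal ((s ^ 2 - m ^ 2) ^ (((d : ℝ) - 2) / 2)) *
      ∫⁻ ω, F (e' * s, -(γ / β), √(s ^ 2 - m ^ 2) • (ω : Ed d))
        ∂(volume : Measure (Ed d)).toSphere =
      ∫⁻ ξ : Ed d, ENNReal.ofReal (1 / √(m ^ 2 + ‖ξ‖ ^ 2)) *
        F (e' * √(m ^ 2 + ‖ξ‖ ^ 2), -(γ / β), ξ) := fun e' => HYP_.sheet hd m _ e' hm F hF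
  have hL2 : ∫⁻ ζ, F ζ ∂(sectionMeasure 0 β γ d) = ENNReal.ofReal (1 / (2 * |β|)) *
      ((∫⁻ ξ : Ed d, ENNReal.ofReal (1 / √(m ^ 2 + ‖ξ‖ ^ 2)) *
        F (e * √(m ^ 2 + ‖ξ‖ ^ 2), -(γ / β), ξ)) +
      ∫⁻ ξ : Ed d, ENNReal.ofReal (1 / √(m ^ 2 + ‖ξ‖ ^ 2)) *
        F (-e * √(m ^ 2 + ‖ξ‖ ^ 2), -(γ / β), ξ)) := by
    rw [hL, lintegral_union measurableSet_Iio hdisj, hneg, ← hS e, ← hS (-e)]
    congr 2
    · refine setLIntegral_congr_fun measurableSet_Ioi fun s _ => ?_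
      simp only [hcone2, hQ]
    · refine setLIntegral_congr_fun measurableSet_Ioi fun s _ => ?_
      simp only [hcone2, hQ, neg_sq, mul_neg, neg_mul]
  -- the right hand side
  have hR : ∀ ε : ℝ, ∫⁻ ζ, F ζ ∂(Measure.map (hpt β γ ε) (hnu β γ d)) =
      ENNReal.ofReal (1 / (2 * |β|)) * ∫⁻ ξ : Ed d, ENNReal.ofReal (1 / √(m ^ 2 + ‖ξ‖ ^ 2)) *
        F (ε * √(m ^ 2 + ‖ξ‖ ^ 2), -(γ / β), ξ) := by
    intro ε
    have hp : Measurable (hpt β γ ε : Ed d → Pt d) := by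
      unfold hpt
      fun_prop
    have hFp : Measurable (fun ξ : Ed d => F (hpt β γ ε ξ)) := hF.comp hp
    rw [lintegral_map hF hp, hnu, lintegral_withDensity_eq_lintegral_mul _ (by fun_prop)
      hFp, ← lintegral_const_mul' _ _ ENNReal.ofReal_ne_top]
    refine lintegral_congr fun ξ => ?_
    have hs : 0 < √(m ^ 2 + ‖ξ‖ ^ 2) := Real.sqrt_pos.2 (by positivity)
    rw [← mul_assoc, ← ENNReal.ofReal_mul (by positivity)]
    simp only [Pi.mul_apply, hpt, hm2]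
    congr 2
    field_simp
  rw [lintegral_add_measure, hR, hR, ← mul_add, hL2]
  congr 1
  rcases he with h | h
  · rw [h]
  · rw [h, neg_neg, add_comm]

end Pool.Agent.SymM
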