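import Pool.Agent.SymM.Targets

set_option autoImplicit false

/-!
# A Bessel type integral
-/

noncomputable section

open MeasureTheory Set Filter
open scoped ENNReal RealInnerProductSpace Topology ComplexConjugate

namespace Pool.Agent.SymM

namespace ID_

theorem image_phi {c : ℝ} (hc : 0 < c) : (fun x : ℝ => x - c / x) '' Ioi 0 = univ := by
  ext y
  simp only [mem_image, mem_Ioi, mem_univ, iff_true]
  have h1 : |y| < √(y ^ 2 + 4 * c) := by
    rw [← Real.sqrt_sq_eq_abs]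
    exact Real.sqrt_lt_sqrt (sq_nonneg y) (by linarith)
  have h2 := Real.sq_sqrt (show 0 ≤ y ^ 2 + 4 * c by positivity)
  have h3 : 0 < (y + √(y ^ 2 + 4 * c)) / 2 := by
    have := neg_abs_le y
    linarith
  refine ⟨(y + √(y ^ 2 + 4 * c)) / 2, h3, ?_⟩
  have h4 : ((y + √(y ^ 2 + 4 * c)) / 2) ^ 2 = y * ((y + √(y ^ 2 + 4 * c)) / 2) + c := by
    linear_combination h2 / 4
  set x : ℝ := (y + √(y ^ 2 + 4 * c)) / 2
  rw [sub_eq_iff_eq_add, eq_comm, ← sub_eq_zero]
  have h5 : y + c / x - x = (y * x + c - x ^ 2) / x := by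
    field_simp
  rw [h5, h4, sub_self, zero_div]

theorem inj_phi {c : ℝ} (hc : 0 < c) : InjOn (fun x : ℝ => x - c / x) (Ioi 0) := by
  have : StrictMonoOn (fun x : ℝ => x - c / x) (Ioi 0) := by
    intro x hx y hy hxy
    rw [mem_Ioi] at hx hy
    have := div_lt_div_of_pos_left hc hx hxy
    simp only
    linarith
  exact this.injOn

theorem deriv_phi {c : ℝ} : ∀ x ∈ Ioi (0 : ℝ),
    HasDerivWithinAt (fun x : ℝ => x - c / x) (1 + c / x ^ 2) (Ioi 0) x := by
  intro x hx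
  have hx0 : x ≠ 0 := (mem_Ioi.mp hx).ne'
  have h := ((hasDerivAt_id x).sub ((hasDerivAt_const x c).div (hasDerivAt_id x) hx0))
  refine (h.congr_deriv ?_).hasDerivWithinAt
  simp only [id]
  field_simp
  ring

theorem subst_inv {c : ℝ} (hc : 0 < c) (g : ℝ → ℝ) :
    ∫ x in Ioi (0 : ℝ), (c / x ^ 2) * g (c / x) = ∫ x in Ioi (0 : ℝ), g x := by
  have h1 := integral_comp_rpow_Ioi (fun x => g (c * x)) (p := -1) (by norm_num)
  have h2 := integral_comp_mul_left_Ioi' g 0 hc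
  rw [mul_zero] at h2
  rw [← h2, ← h1, smul_eq_mul, ← integral_const_mul]
  apply setIntegral_congr_fun measurableSet_Ioi
  intro x hx
  rw [mem_Ioi] at hx
  simp only [smul_eq_mul]
  have e1 : x ^ (-1 - 1 : ℝ) = 1 / x ^ 2 := by
    rw [show (-1 - 1 : ℝ) = -((2 : ℕ) : ℝ) by norm_num, Real.rpow_neg hx.le, Real.rpow_natCast,
      one_div]
  rw [e1, Real.rpow_neg_one, abs_neg, abs_one, ← div_eq_mul_inv]
  ring

theorem gauss_phi {R c : ℝ} (hR : 0 < R) (hc : 0 < c) :
    ∫ x in Ioi (0 : ℝ), Real.exp (-R * (x - c / x) ^ 2) = √(Real.pi / R) / 2 := by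
  have h1 := integral_image_eq_integral_abs_deriv_smul measurableSet_Ioi deriv_phi (inj_phi hc)
    (fun y => Real.exp (-R * y ^ 2))
  have h2 := (integrableOn_image_iff_integrableOn_abs_deriv_smul measurableSet_Ioi deriv_phi
    (inj_phi hc) (fun y => Real.exp (-R * y ^ 2))).mp (by
      rw [image_phi hc, integrableOn_univ]
      exact integrable_exp_neg_mul_sq hR)
  rw [image_phi hc, setIntegral_univ, integral_gaussian] at h1
  have m1 : Measurable fun x : ℝ => Real.exp (-R * (x - c / x) ^ 2) := by fun_prop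
  have i1 : IntegrableOn (fun x : ℝ => Real.exp (-R * (x - c / x) ^ 2)) (Ioi 0) := by
    refine Integrable.mono' h2 m1.aestronglyMeasurable ?_
    refine (ae_restrict_mem measurableSet_Ioi).mono ?_
    intro x hx
    rw [Real.norm_of_nonneg (Real.exp_pos _).le, smul_eq_mul, abs_of_nonneg (by positivity)]
    refine le_mul_of_one_le_left (Real.exp_pos _).le ?_
    have : 0 ≤ c / x ^ 2 := by positivity
    linarith
  have i2 : IntegrableOn (fun x : ℝ => c / x ^ 2 * Real.exp (-R * (x - c / x) ^ 2)) (Ioi 0) := by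
    refine Integrable.mono' h2 (by fun_prop) ?_
    refine (ae_restrict_mem measurableSet_Ioi).mono ?_
    intro x hx
    rw [Real.norm_of_nonneg (by positivity), smul_eq_mul, abs_of_nonneg (by positivity)]
    refine mul_le_mul_of_nonneg_right ?_ (Real.exp_pos _).le
    linarith
  have h3 : ∫ x in Ioi (0 : ℝ), |1 + c / x ^ 2| • Real.exp (-R * (x - c / x) ^ 2) =
      (∫ x in Ioi (0 : ℝ), Real.exp (-R * (x - c / x) ^ 2)) +
        ∫ x in Ioi (0 : ℝ), c / x ^ 2 * Real.exp (-R * (x - c / x) ^ 2) := by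
    rw [← integral_add i1 i2]
    apply setIntegral_congr_fun measurableSet_Ioi
    intro x hx
    simp only [smul_eq_mul]
    rw [abs_of_nonneg (by positivity)]
    ring
  have h4 : ∫ x in Ioi (0 : ℝ), c / x ^ 2 * Real.exp (-R * (x - c / x) ^ 2) =
      ∫ x in Ioi (0 : ℝ), Real.exp (-R * (x - c / x) ^ 2) := by
    refine Eq.trans ?_ (subst_inv hc (fun x => Real.exp (-R * (x - c / x) ^ 2)))
    apply setIntegral_congr_fun measurableSet_Ioi
    intro x hx
    have hx0 : x ≠ 0 := (mem_Ioi.mp hx).ne'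
    have : c / (c / x) = x := by field_simp
    simp only
    rw [this]
    congr 2
    ring
  rw [h3, h4] at h1
  linarith

/-- the real case -/
theorem real_case {P R : ℝ} (hP : 0 < P) (hR : 0 < R) :
    ∫ a in Ioi (0 : ℝ), a ^ (-(3 / 2) : ℝ) * Real.exp (-(P * a) - R / a) =
      √Real.pi / √R * Real.exp (-(2 * (√P * √R))) := by
  obtain ⟨p, hp, rfl⟩ : ∃ p : ℝ, 0 < p ∧ P = p ^ 2 :=
    ⟨√P, Real.sqrt_pos.mpr hP, (Real.sq_sqrt hP.le).symm⟩
  obtain ⟨r, hr, rfl⟩ : ∃ r : ℝ, 0 < r ∧ R = r ^ 2 :=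
    ⟨√R, Real.sqrt_pos.mpr hR, (Real.sq_sqrt hR.le).symm⟩
  rw [Real.sqrt_sq hp.le, Real.sqrt_sq hr.le]
  rw [← integral_comp_rpow_Ioi _ (show (-2 : ℝ) ≠ 0 by norm_num)]
  set c : ℝ := p / r with hcdef
  have hc : 0 < c := div_pos hp hr
  have h1 := gauss_phi hR hc
  have h2 : ∫ x in Ioi (0 : ℝ), (|(-2 : ℝ)| * x ^ ((-2 : ℝ) - 1)) •
      ((x ^ (-2 : ℝ)) ^ (-(3 / 2) : ℝ) *
        Real.exp (-(p ^ 2 * x ^ (-2 : ℝ)) - r ^ 2 / x ^ (-2 : ℝ))) =
      ∫ x in Ioi (0 : ℝ), (2 * Real.exp (-(2 * (p * r)))) *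
        Real.exp (-r ^ 2 * (x - c / x) ^ 2) := by
    apply setIntegral_congr_fun measurableSet_Ioi
    intro x hx
    rw [mem_Ioi] at hx
    simp only [smul_eq_mul]
    have e0 : x ^ (-2 : ℝ) = 1 / x ^ 2 := by
      rw [show (-2 : ℝ) = -((2 : ℕ) : ℝ) by norm_num, Real.rpow_neg hx.le, Real.rpow_natCast,
        one_div]
    have e1 : x ^ ((-2 : ℝ) - 1) * (x ^ (-2 : ℝ)) ^ (-(3 / 2) : ℝ) = 1 := by
      rw [← Real.rpow_mul hx.le, ← Real.rpow_add hx]
      norm_num
    have e2 : |(-2 : ℝ)| = 2 := by norm_num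
    have e3 : Real.exp (-(p ^ 2 * x ^ (-2 : ℝ)) - r ^ 2 / x ^ (-2 : ℝ)) =
        Real.exp (-(2 * (p * r))) * Real.exp (-r ^ 2 * (x - c / x) ^ 2) := by
      rw [← Real.exp_add, e0]
      congr 1
      rw [hcdef]
      field_simp
      ring
    calc |(-2 : ℝ)| * x ^ ((-2 : ℝ) - 1) * ((x ^ (-2 : ℝ)) ^ (-(3 / 2) : ℝ) *
          Real.exp (-(p ^ 2 * x ^ (-2 : ℝ)) - r ^ 2 / x ^ (-2 : ℝ)))
        = |(-2 : ℝ)| * (x ^ ((-2 : ℝ) - 1) * (x ^ (-2 : ℝ)) ^ (-(3 / 2) : ℝ)) *
          Real.exp (-(p ^ 2 * x ^ (-2 : ℝ)) - r ^ 2 / x ^ (-2 : ℝ)) := by ring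
      _ = _ := by rw [e1, e2, e3]; ring
  rw [h2, integral_const_mul, h1, Real.sqrt_div Real.pi_pos.le, Real.sqrt_sq hr.le]
  ring

theorem int_k {k p r : ℝ} (hk : -4 < k) (hp : 0 < p) (hr : 0 < r) :
    IntegrableOn (fun a : ℝ => a ^ k * Real.exp (-(p * a) - r / a)) (Ioi 0) := by
  have h1 := (integrableOn_rpow_mul_exp_neg_mul_rpow (s := k + 3) (p := 1) (b := p)
    (by linarith) one_pos hp).const_mul (6 / r ^ 3)
  refine Integrable.mono' h1 (by fun_prop) ?_
  refine (ae_restrict_mem measurableSet_Ioi).mono ?_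
  intro a ha
  rw [mem_Ioi] at ha
  have ha' : 0 < a ^ k := Real.rpow_pos_of_pos ha _
  rw [Real.norm_of_nonneg (by positivity)]
  have e1 : a ^ (k + 3) = a ^ k * a ^ 3 := by
    rw [Real.rpow_add ha, show (3 : ℝ) = ((3 : ℕ) : ℝ) by norm_num, Real.rpow_natCast]
  rw [e1, Real.rpow_one]
  have h2 := Real.pow_div_factorial_le_exp (r / a) (by positivity) 3
  have h3 : Real.exp (-(r / a)) ≤ 6 / r ^ 3 * a ^ 3 := by
    rw [Real.exp_neg, inv_le_comm₀ (Real.exp_pos _) (by positivity)]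
    refine le_trans (le_of_eq ?_) h2
    have : ((Nat.factorial 3 : ℕ) : ℝ) = 6 := by norm_num [Nat.factorial]
    rw [this]
    field_simp
  have e2 : Real.exp (-(p * a) - r / a) = Real.exp (-p * a) * Real.exp (-(r / a)) := by
    rw [← Real.exp_add]
    congr 1
    ring
  rw [e2]
  calc a ^ k * (Real.exp (-p * a) * Real.exp (-(r / a)))
      ≤ a ^ k * (Real.exp (-p * a) * (6 / r ^ 3 * a ^ 3)) := by gcongr
    _ = _ := by ring

theorem diffOn (h : ℝ → ℂ) (g : ℝ → ℝ) (hh : Measurable h) (hg : Measurable g)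
    (hg0 : ∀ a ∈ Ioi (0 : ℝ), 0 ≤ g a)
    (hi : ∀ δ : ℝ, 0 < δ → IntegrableOn (fun a => ‖h a‖ * Real.exp (-(δ * g a))) (Ioi 0)) :
    DifferentiableOn ℂ (fun z : ℂ => ∫ a in Ioi (0 : ℝ), h a * Complex.exp (-(z * (g a : ℂ))))
      {z | 0 < z.re} := by
  intro z hz
  rw [mem_ofPred_eq] at hz
  have hs : {w : ℂ | z.re / 2 < w.re} ∈ 𝓝 z :=
    (isOpen_lt continuous_const Complex.continuous_re).mem_nhds (by
      change z.re / 2 < z.re
      linarith)
  have hmeas : ∀ w : ℂ, Measurable fun a : ℝ => h a * Complex.exp (-(w * (g a : ℂ))) := by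
    intro w
    fun_prop
  have hnorm : ∀ (w : ℂ) (a : ℝ), ‖h a * Complex.exp (-(w * (g a : ℂ)))‖ =
      ‖h a‖ * Real.exp (-(w.re * g a)) := by
    intro w a
    rw [norm_mul, Complex.norm_exp, Complex.neg_re, Complex.re_mul_ofReal]
  have key := hasDerivAt_integral_of_dominated_loc_of_deriv_le (μ := volume.restrict (Ioi (0 : ℝ)))
    (F := fun (w : ℂ) (a : ℝ) => h a * Complex.exp (-(w * (g a : ℂ))))
    (F' := fun (w : ℂ) (a : ℝ) => h a * (Complex.exp (-(w * (g a : ℂ))) * (-(g a : ℂ))))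
    (bound := fun a => 4 / z.re * (‖h a‖ * Real.exp (-(z.re / 4 * g a)))) (x₀ := z)
    hs (Filter.Eventually.of_forall fun w => (hmeas w).aestronglyMeasurable)
    (by
      refine Integrable.mono' (hi z.re hz) (hmeas z).aestronglyMeasurable ?_
      refine Filter.Eventually.of_forall fun a => ?_
      rw [hnorm])
    (by
      apply Measurable.aestronglyMeasurable
      fun_prop)
    (by
      refine (ae_restrict_mem measurableSet_Ioi).mono ?_
      intro a ha w hw
      rw [mem_ofPred_eq] at hw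
      have hga := hg0 a ha
      rw [← mul_assoc, norm_mul, hnorm, norm_neg, Complex.norm_real, Real.norm_of_nonneg hga]
      have h1 : z.re / 4 * g a ≤ Real.exp (z.re / 4 * g a) := by
        have := Real.add_one_le_exp (z.re / 4 * g a)
        linarith
      have h2 : Real.exp (-(w.re * g a)) ≤ Real.exp (-(z.re / 2 * g a)) := by
        apply Real.exp_le_exp.mpr
        have := mul_le_mul_of_nonneg_right hw.le hga
        linarith
      have h3 : Real.exp (-(z.re / 2 * g a)) * Real.exp (z.re / 4 * g a) =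
          Real.exp (-(z.re / 4 * g a)) := by
        rw [← Real.exp_add]
        congr 1
        ring
      calc ‖h a‖ * Real.exp (-(w.re * g a)) * g a
          ≤ ‖h a‖ * Real.exp (-(z.re / 2 * g a)) * g a := by gcongr
        _ = 4 / z.re * (‖h a‖ * (Real.exp (-(z.re / 2 * g a)) * (z.re / 4 * g a))) := by
            field_simp
        _ ≤ 4 / z.re * (‖h a‖ * (Real.exp (-(z.re / 2 * g a)) *
              Real.exp (z.re / 4 * g a))) := by gcongr
        _ = _ := by rw [h3])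
    ((hi (z.re / 4) (by linarith)).const_mul _)
    (by
      refine Filter.Eventually.of_forall fun a w _ => ?_
      have h1 : HasDerivAt (fun w : ℂ => -(w * (g a : ℂ))) (-(g a : ℂ)) w := by
        exact (((hasDerivAt_id w).mul_const (g a : ℂ)).neg).congr_deriv (by ring)
      exact (h1.cexp).const_mul (h a))
  exact key.2.differentiableAt.differentiableWithinAt

theorem ident {f g : ℂ → ℂ} (hf : DifferentiableOn ℂ f {z | 0 < z.re})
    (hg : DifferentiableOn ℂ g {z | 0 < z.re}) (h : ∀ x : ℝ, 0 < x → f x = g x) {z : ℂ}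
    (hz : 0 < z.re) : f z = g z := by
  have hU : IsOpen {z : ℂ | 0 < z.re} := isOpen_lt continuous_const Complex.continuous_re
  refine (hf.analyticOnNhd hU).eqOn_of_preconnected_of_frequently_eq (hg.analyticOnNhd hU)
    (convex_halfSpace_re_gt 0).isPreconnected (z₀ := 1) (by simp) ?_ hz
  have ht : Tendsto (fun n : ℕ => (((1 + 1 / ((n : ℝ) + 1) : ℝ)) : ℂ)) atTop (𝓝[≠] 1) := by
    rw [tendsto_nhdsWithin_iff]
    constructor
    · have h1 := tendsto_one_div_add_atTop_nhds_zero_nat (𝕜 := ℝ)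
      have h2 := (Complex.continuous_ofReal.tendsto _).comp (h1.const_add 1)
      rw [add_zero, Complex.ofReal_one] at h2
      exact h2
    · refine Filter.Eventually.of_forall fun n => ?_
      intro h0
      rw [mem_singleton_iff] at h0
      have h1 : (1 + 1 / ((n : ℝ) + 1) : ℝ) = 1 := by exact_mod_cast h0
      have h2 : 0 < 1 / ((n : ℝ) + 1) := by positivity
      linarith
  refine ht.frequently (Filter.Frequently.of_forall fun n => ?_)
  exact h _ (by positivity)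

end ID_

open ID_ in
theorem p_ID : T_ID := by
  -- the integral as a function of `P` and of `R`
  have norm1 : ∀ (Z : ℂ) (a : ℝ), ‖Complex.exp (-(Z * (a : ℂ)))‖ = Real.exp (-(Z.re * a)) := by
    intro Z a
    rw [Complex.norm_exp, Complex.neg_re, Complex.re_mul_ofReal]
  have norm2 : ∀ (Z : ℂ) (a : ℝ), ‖Complex.exp (-(Z / (a : ℂ)))‖ = Real.exp (-(Z.re / a)) := by
    intro Z a
    rw [Complex.norm_exp, Complex.neg_re, Complex.div_ofReal_re]
  have hP : ∀ R : ℂ, 0 < R.re → DifferentiableOn ℂ (fun P : ℂ =>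
      ∫ a in Ioi (0 : ℝ), ((a ^ (-(3 / 2) : ℝ) : ℝ) : ℂ) * Complex.exp (-(P * a) - R / a))
      {z | 0 < z.re} := by
    intro R hR
    refine (diffOn (fun a => ((a ^ (-(3 / 2) : ℝ) : ℝ) : ℂ) * Complex.exp (-(R / (a : ℂ))))
      (fun a => a) (by fun_prop) measurable_id (fun a ha => (mem_Ioi.mp ha).le) ?_).congr ?_
    · intro δ hδ
      refine (int_k (k := -(3 / 2)) (by norm_num) hδ hR).congr_fun ?_ measurableSet_Ioi
      intro a ha
      rw [mem_Ioi] at ha
      simp only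
      rw [norm_mul, norm2, Complex.norm_real, Real.norm_of_nonneg (Real.rpow_pos_of_pos ha _).le,
        mul_assoc, ← Real.exp_add]
      congr 2
      ring
    · intro P _
      apply setIntegral_congr_fun measurableSet_Ioi
      intro a _
      simp only
      rw [mul_assoc, ← Complex.exp_add]
      congr 2
      ring
  have hR : ∀ P : ℂ, 0 < P.re → DifferentiableOn ℂ (fun R : ℂ =>
      ∫ a in Ioi (0 : ℝ), ((a ^ (-(3 / 2) : ℝ) : ℝ) : ℂ) * Complex.exp (-(P * a) - R / a))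
      {z | 0 < z.re} := by
    intro P hP
    refine (diffOn (fun a => ((a ^ (-(3 / 2) : ℝ) : ℝ) : ℂ) * Complex.exp (-(P * (a : ℂ))))
      (fun a => 1 / a) (by fun_prop) (by fun_prop)
      (fun a ha => one_div_nonneg.mpr (mem_Ioi.mp ha).le) ?_).congr ?_
    · intro δ hδ
      refine (int_k (k := -(3 / 2)) (by norm_num) hP hδ).congr_fun ?_ measurableSet_Ioi
      intro a ha
      rw [mem_Ioi] at ha
      simp only
      rw [norm_mul, norm1, Complex.norm_real, Real.norm_of_nonneg (Real.rpow_pos_of_pos ha _).le,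
        mul_assoc, ← Real.exp_add]
      congr 2
      ring
    · intro R _
      apply setIntegral_congr_fun measurableSet_Ioi
      intro a _
      simp only
      rw [mul_assoc, ← Complex.exp_add]
      congr 2
      push_cast
      ring
  have hcp : ∀ z : ℂ, 0 < z.re → DifferentiableAt ℂ (fun z : ℂ => z ^ (1 / 2 : ℂ)) z := by
    intro z hz
    exact differentiableAt_id.cpow (differentiableAt_const _) (Or.inl hz)
  have hne : ∀ z : ℂ, 0 < z.re → z ^ (1 / 2 : ℂ) ≠ 0 := by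
    intro z hz h0
    rw [Complex.cpow_eq_zero_iff] at h0
    rw [h0.1, Complex.zero_re] at hz
    exact lt_irrefl _ hz
  have hGP : ∀ R : ℂ, DifferentiableOn ℂ (fun P : ℂ => ((√Real.pi : ℝ) : ℂ) / R ^ (1 / 2 : ℂ) *
      Complex.exp (-(2 * (P ^ (1 / 2 : ℂ) * R ^ (1 / 2 : ℂ))))) {z | 0 < z.re} := by
    intro R P hP
    exact ((((hcp P hP).mul_const _).const_mul _).neg.cexp.const_mul _).differentiableWithinAt
  have hGR : ∀ P : ℂ, DifferentiableOn ℂ (fun R : ℂ => ((√Real.pi : ℝ) : ℂ) / R ^ (1 / 2 : ℂ) *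
      Complex.exp (-(2 * (P ^ (1 / 2 : ℂ) * R ^ (1 / 2 : ℂ))))) {z | 0 < z.re} := by
    intro P R hR
    exact ((((differentiableAt_const _).div (hcp R hR) (hne R hR))).mul
      (((hcp R hR).const_mul _).const_mul _).neg.cexp).differentiableWithinAt
  have hreal : ∀ p r : ℝ, 0 < p → 0 < r →
      ∫ a in Ioi (0 : ℝ), ((a ^ (-(3 / 2) : ℝ) : ℝ) : ℂ) *
        Complex.exp (-((p : ℂ) * a) - (r : ℂ) / a) =
      ((√Real.pi : ℝ) : ℂ) / (r : ℂ) ^ (1 / 2 : ℂ) *
        Complex.exp (-(2 * ((p : ℂ) ^ (1 / 2 : ℂ) * (r : ℂ) ^ (1 / 2 : ℂ)))) := by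
    intro p r hp hr
    have e : ∀ x : ℝ, 0 < x → (x : ℂ) ^ (1 / 2 : ℂ) = ((√x : ℝ) : ℂ) := by
      intro x hx
      rw [Real.sqrt_eq_rpow, Complex.ofReal_cpow hx.le]
      push_cast
      rfl
    rw [e p hp, e r hr]
    have h1 : ((∫ a in Ioi (0 : ℝ), a ^ (-(3 / 2) : ℝ) * Real.exp (-(p * a) - r / a) : ℝ) : ℂ) =
        ((√Real.pi / √r * Real.exp (-(2 * (√p * √r))) : ℝ) : ℂ) := by rw [real_case hp hr]
    rw [← integral_complex_ofReal] at h1
    push_cast at h1 ⊢
    exact h1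
  intro P R hP0 hR0
  have step1 : ∀ r : ℝ, 0 < r → ∀ P : ℂ, 0 < P.re →
      ∫ a in Ioi (0 : ℝ), ((a ^ (-(3 / 2) : ℝ) : ℝ) : ℂ) * Complex.exp (-(P * a) - (r : ℂ) / a) =
      ((√Real.pi : ℝ) : ℂ) / (r : ℂ) ^ (1 / 2 : ℂ) *
        Complex.exp (-(2 * (P ^ (1 / 2 : ℂ) * (r : ℂ) ^ (1 / 2 : ℂ)))) := by
    intro r hr P hP0
    exact ident (hP r (by simpa using hr)) (hGP r) (fun p hp => hreal p r hp hr) hP0
  exact ident (hR P hP0) (hGR P) (fun r hr => step1 r hr P hP0) hR0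

end Pool.Agent.SymM
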