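import Pool.Agent.SymM.Targets

set_option autoImplicit false

/-!
# SymM, IX: the extension of the test functions
-/

noncomputable section

open MeasureTheory Set Filter
open scoped ENNReal RealInnerProductSpace Topology ComplexConjugate

namespace Pool.Agent.SymM

open Pool.Agent.ExpMax

namespace IX_

/-- product rule for powers in the right half plane -/
lemma mul_cpow' {X Y : ℂ} (hX : 0 < X.re) (hY : 0 < Y.re) (s : ℂ) :
    (X * Y) ^ s = X ^ s * Y ^ s := by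
  have hX0 : X ≠ 0 := by rintro rfl; simp at hX
  have hY0 : Y ≠ 0 := by rintro rfl; simp at hY
  have h1 : |X.arg| < Real.pi / 2 := Complex.abs_arg_lt_pi_div_two_iff.2 (Or.inl hX)
  have h2 : |Y.arg| < Real.pi / 2 := Complex.abs_arg_lt_pi_div_two_iff.2 (Or.inl hY)
  have h3 : X.arg + Y.arg ∈ Set.Ioc (-Real.pi) Real.pi := by
    rw [abs_lt] at h1 h2
    constructor <;> linarith [h1.1, h1.2, h2.1, h2.2]
  rw [Complex.cpow_def_of_ne_zero (mul_ne_zero hX0 hY0), Complex.cpow_def_of_ne_zero hX0,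
    Complex.cpow_def_of_ne_zero hY0, Complex.log_mul hX0 hY0 h3, add_mul, Complex.exp_add]

variable {n : ℕ}

lemma norm_sq_tl (ξ : Ed (n + 1)) : ‖ξ‖ ^ 2 = (ξ 0) ^ 2 + ‖tl ξ‖ ^ 2 := by
  rw [EuclideanSpace.real_norm_sq_eq, EuclideanSpace.real_norm_sq_eq, Fin.sum_univ_succ]
  rfl

lemma inner_tl (ξ x : Ed (n + 1)) : ⟪ξ, x⟫ = ξ 0 * x 0 + ⟪tl ξ, tl x⟫ := by
  simp [PiLp.inner_apply, Fin.sum_univ_succ, tl, mul_comm]

/-- the first coordinate `τ` -/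
def T (m : ℝ) (ξ : Ed (n + 1)) : ℝ := √(m ^ 2 + ‖ξ‖ ^ 2)

lemma T_sq (m : ℝ) (ξ : Ed (n + 1)) : T m ξ ^ 2 = m ^ 2 + ‖ξ‖ ^ 2 :=
  Real.sq_sqrt (by positivity)

lemma T_ge {m : ℝ} (hm : 0 < m) (ξ : Ed (n + 1)) : m ≤ T m ξ := by
  apply Real.le_sqrt_of_sq_le
  nlinarith [sq_nonneg ‖ξ‖]

lemma T_pos {m : ℝ} (hm : 0 < m) (ξ : Ed (n + 1)) : 0 < T m ξ := lt_of_lt_of_le hm (T_ge hm ξ)

lemma T_norm (m : ℝ) (ξ : Ed (n + 1)) : ‖ξ‖ ≤ T m ξ := by
  apply Real.le_sqrt_of_sq_le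
  nlinarith [sq_nonneg m]

lemma T_abs {m : ℝ} (hm : 0 < m) (ξ : Ed (n + 1)) : |ξ 0| < T m ξ := by
  apply abs_lt_of_sq_lt_sq _ (T_pos hm ξ).le
  rw [T_sq, norm_sq_tl]
  nlinarith [sq_nonneg ‖tl ξ‖]

lemma T_plus {m : ℝ} (hm : 0 < m) (ξ : Ed (n + 1)) : 0 < T m ξ + ξ 0 := by
  have := abs_lt.1 (T_abs hm ξ)
  linarith [this.1]

lemma T_minus {m : ℝ} (hm : 0 < m) (ξ : Ed (n + 1)) : 0 < T m ξ - ξ 0 := by
  have := abs_lt.1 (T_abs hm ξ)
  linarith [this.2]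

lemma T_mul (m : ℝ) (ξ : Ed (n + 1)) :
    (T m ξ + ξ 0) * (T m ξ - ξ 0) = m ^ 2 + ‖tl ξ‖ ^ 2 := by
  have h1 := T_sq m ξ
  have h2 := norm_sq_tl ξ
  nlinarith

lemma T_cont (m : ℝ) : Continuous (T m : Ed (n + 1) → ℝ) := by
  unfold T
  fun_prop

lemma coord_cont : Continuous (fun ξ : Ed (n + 1) => ξ 0) := by
  fun_prop

lemma tl_cont : Continuous (tl : Ed (n + 1) → Ed n) := by
  unfold tl
  fun_prop

/-- the real integrand -/
def F (m c : ℝ) (ξ : Ed (n + 1)) : ℝ :=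
  (T m ξ + ξ 0) ^ (-(((n : ℝ) + 1) / 2)) * Real.exp (-(c * T m ξ)) / T m ξ

lemma F_cont {m : ℝ} (hm : 0 < m) (c : ℝ) : Continuous (F m c : Ed (n + 1) → ℝ) := by
  unfold F
  have h1 := T_cont (n := n) m
  have h2 := coord_cont (n := n)
  refine Continuous.div (Continuous.mul ?_ (by fun_prop)) h1 (fun ξ => (T_pos hm ξ).ne')
  exact (h1.add h2).rpow_const (fun ξ => Or.inl (T_plus hm ξ).ne')

lemma F_nonneg {m : ℝ} (hm : 0 < m) (c : ℝ) (ξ : Ed (n + 1)) : 0 ≤ F m c ξ := by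
  unfold F
  have h1 := T_pos hm ξ
  have h2 := T_plus hm ξ
  positivity

lemma F_int {m c : ℝ} (hm : 0 < m) (hc : 0 < c) : Integrable (F m c : Ed (n + 1) → ℝ) := by
  have hfin : ((Module.finrank ℝ (Ed (n + 1)) : ℕ) : ℝ) < ((n : ℝ) + 2) := by
    simp
  have hI : Integrable (fun ξ : Ed (n + 1) => (1 + ‖ξ‖) ^ (-((n : ℝ) + 2))) :=
    integrable_one_add_norm hfin
  set L : ℝ := 1 + 2 / m ^ 2 with hL
  have hL1 : 1 ≤ L := by rw [hL]; have : 0 ≤ 2 / m ^ 2 := by positivity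
                         linarith
  set K : ℝ := L ^ (n + 1) * (1 / m) * (((2 * n + 3).factorial : ℝ) / c ^ (2 * n + 3) *
    Real.exp c) with hK
  refine Integrable.mono' (hI.const_mul K) (F_cont hm c).aestronglyMeasurable
    (ae_of_all _ fun ξ => ?_)
  rw [Real.norm_of_nonneg (F_nonneg hm c ξ)]
  have hT := T_pos hm ξ
  have hTm := T_ge hm ξ
  have hTn := T_norm m ξ
  have hs := T_plus hm ξ
  have hs' := T_minus hm ξ
  have hmul := T_mul m ξ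
  have habs := T_abs hm ξ
  -- first factor
  have h1 : (T m ξ + ξ 0) ^ (-(((n : ℝ) + 1) / 2)) ≤ (L * (1 + T m ξ)) ^ (n + 1) := by
    rw [Real.rpow_neg hs.le, ← Real.inv_rpow hs.le]
    have h2 : (T m ξ + ξ 0)⁻¹ ≤ L * (1 + T m ξ) := by
      rw [inv_le_iff_one_le_mul₀ hs]
      have h3 : m ^ 2 ≤ (T m ξ + ξ 0) * (2 * T m ξ) := by
        have h4 : m ^ 2 ≤ (T m ξ + ξ 0) * (T m ξ - ξ 0) := by
          rw [hmul]; nlinarith [sq_nonneg ‖tl ξ‖]
        have h5 : (T m ξ + ξ 0) * (T m ξ - ξ 0) ≤ (T m ξ + ξ 0) * (2 * T m ξ) := by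
          apply mul_le_mul_of_nonneg_left _ hs.le
          linarith [(abs_lt.1 habs).1]
        linarith
      have h6 : 1 ≤ (2 / m ^ 2 * T m ξ) * (T m ξ + ξ 0) := by
        have hm2 : 0 < m ^ 2 := by positivity
        rw [show (2 / m ^ 2 * T m ξ) * (T m ξ + ξ 0) = ((T m ξ + ξ 0) * (2 * T m ξ)) / m ^ 2 by
          field_simp]
        rw [le_div_iff₀ hm2]
        linarith
      refine h6.trans (mul_le_mul_of_nonneg_right ?_ hs.le)
      rw [hL]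
      have : 0 ≤ 2 / m ^ 2 := by positivity
      nlinarith
    have h7 : 1 ≤ L * (1 + T m ξ) := by nlinarith
    calc ((T m ξ + ξ 0)⁻¹) ^ (((n : ℝ) + 1) / 2)
        ≤ (L * (1 + T m ξ)) ^ (((n : ℝ) + 1) / 2) :=
          Real.rpow_le_rpow (by positivity) h2 (by positivity)
      _ ≤ (L * (1 + T m ξ)) ^ (((n + 1 : ℕ) : ℝ)) :=
          Real.rpow_le_rpow_of_exponent_le h7 (by push_cast; have : (0 : ℝ) ≤ n := n.cast_nonneg
                                                  linarith)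
      _ = (L * (1 + T m ξ)) ^ (n + 1) := Real.rpow_natCast _ _
  -- exponential
  have h8 : (1 + T m ξ) ^ (2 * n + 3) * Real.exp (-(c * T m ξ)) ≤
      ((2 * n + 3).factorial : ℝ) / c ^ (2 * n + 3) * Real.exp c := by
    have h9 := Real.pow_div_factorial_le_exp (c * (1 + T m ξ)) (by positivity) (2 * n + 3)
    rw [div_le_iff₀ (by positivity), mul_pow] at h9
    have h10 : Real.exp (c * (1 + T m ξ)) = Real.exp c * Real.exp (c * T m ξ) := by
      rw [← Real.exp_add]; ring_nf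
    have h11 : Real.exp (-(c * T m ξ)) * Real.exp (c * T m ξ) = 1 := by
      rw [← Real.exp_add]; simp
    rw [h10] at h9
    rw [div_mul_eq_mul_div, le_div_iff₀ (by positivity)]
    have h12 : 0 < Real.exp (-(c * T m ξ)) := Real.exp_pos _
    calc (1 + T m ξ) ^ (2 * n + 3) * Real.exp (-(c * T m ξ)) * c ^ (2 * n + 3)
        = (c ^ (2 * n + 3) * (1 + T m ξ) ^ (2 * n + 3)) * Real.exp (-(c * T m ξ)) := by ring
      _ ≤ (Real.exp c * Real.exp (c * T m ξ) * ((2 * n + 3).factorial : ℝ)) *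
            Real.exp (-(c * T m ξ)) := mul_le_mul_of_nonneg_right h9 h12.le
      _ = ((2 * n + 3).factorial : ℝ) * Real.exp c *
            (Real.exp (-(c * T m ξ)) * Real.exp (c * T m ξ)) := by ring
      _ = ((2 * n + 3).factorial : ℝ) * Real.exp c := by rw [h11, mul_one]
  have h13 : (1 + ‖ξ‖) ^ (-((n : ℝ) + 2)) = ((1 + ‖ξ‖) ^ (n + 2))⁻¹ := by
    rw [Real.rpow_neg (by positivity)]
    congr 1
    rw [← Real.rpow_natCast]
    push_cast
    rfl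
  rw [h13, ← div_eq_mul_inv, le_div_iff₀ (by positivity)]
  have hexp : 0 < Real.exp (-(c * T m ξ)) := Real.exp_pos _
  unfold F
  have h14 : (1 + ‖ξ‖) ^ (n + 2) ≤ (1 + T m ξ) ^ (n + 2) :=
    pow_le_pow_left₀ (by positivity) (by linarith) _
  have h15 : 1 / T m ξ ≤ 1 / m := one_div_le_one_div_of_le hm hTm
  calc (T m ξ + ξ 0) ^ (-(((n : ℝ) + 1) / 2)) * Real.exp (-(c * T m ξ)) / T m ξ *
        (1 + ‖ξ‖) ^ (n + 2)
      = (T m ξ + ξ 0) ^ (-(((n : ℝ) + 1) / 2)) * (1 / T m ξ) *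
        ((1 + ‖ξ‖) ^ (n + 2) * Real.exp (-(c * T m ξ))) := by ring
    _ ≤ (L * (1 + T m ξ)) ^ (n + 1) * (1 / m) *
        ((1 + T m ξ) ^ (n + 2) * Real.exp (-(c * T m ξ))) := by
        gcongr
    _ = L ^ (n + 1) * (1 / m) * ((1 + T m ξ) ^ (2 * n + 3) * Real.exp (-(c * T m ξ))) := by
        rw [mul_pow]; ring
    _ ≤ K := by
        rw [hK]
        gcongr

/-- light cone form of the integrand -/
def h (m : ℝ) (A B : ℂ) (w : Ed n) (z : ℝ × Ed n) : ℂ :=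
  ((z.1 ^ (-(((n : ℝ) + 1) / 2)) : ℝ) : ℂ) *
    Complex.exp (-((z.1 : ℂ) * A) - (((m ^ 2 + ‖z.2‖ ^ 2) / z.1 : ℝ) : ℂ) * B -
      Complex.I * ((⟪z.2, w⟫ : ℝ) : ℂ))

lemma h_meas (m : ℝ) (A B : ℂ) (w : Ed n) : Measurable (h m A B w) := by
  unfold h
  have h1 : Measurable fun z : ℝ × Ed n => z.1 ^ (-(((n : ℝ) + 1) / 2)) :=
    measurable_fst.pow_const _
  have h2 : Measurable fun z : ℝ × Ed n => (m ^ 2 + ‖z.2‖ ^ 2) / z.1 :=
    (((measurable_snd.norm.pow_const 2).const_add _)).div measurable_fst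
  have h3 : Measurable fun z : ℝ × Ed n => ⟪z.2, w⟫ := by
    have : Continuous fun z : ℝ × Ed n => ⟪z.2, w⟫ := by fun_prop
    exact this.measurable
  have h4 : Measurable fun z : ℝ × Ed n => ((z.1 : ℝ) : ℂ) :=
    Complex.measurable_ofReal.comp measurable_fst
  have h5 := Complex.measurable_ofReal.comp h2
  have h6 := Complex.measurable_ofReal.comp h3
  refine (Complex.measurable_ofReal.comp h1).mul (Complex.measurable_exp.comp ?_)
  exact (((h4.mul_const A).neg).sub (h5.mul_const B)).sub (h6.const_mul Complex.I)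

lemma key {m : ℝ} (hm : 0 < m) (c t : ℝ) (x ξ : Ed (n + 1)) :
    ((F m c ξ : ℝ) : ℂ) * Complex.exp (-(Complex.I * ((T m ξ * t + ⟪ξ, x⟫ : ℝ) : ℂ))) =
    (1 / T m ξ) • h m (((c : ℂ) + Complex.I * ((t + x 0 : ℝ) : ℂ)) / 2)
      (((c : ℂ) + Complex.I * ((t - x 0 : ℝ) : ℂ)) / 2) (tl x) (T m ξ + ξ 0, tl ξ) := by
  have hT := T_pos hm ξ
  have hs := T_plus hm ξ
  have hb : (m ^ 2 + ‖tl ξ‖ ^ 2) / (T m ξ + ξ 0) = T m ξ - ξ 0 := by
    rw [← T_mul]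
    field_simp
  unfold h F
  simp only [hb]
  rw [Complex.real_smul]
  have hE : -(((T m ξ + ξ 0 : ℝ) : ℂ) * (((c : ℂ) + Complex.I * ((t + x 0 : ℝ) : ℂ)) / 2)) -
      ((T m ξ - ξ 0 : ℝ) : ℂ) * (((c : ℂ) + Complex.I * ((t - x 0 : ℝ) : ℂ)) / 2) -
      Complex.I * ((⟪tl ξ, tl x⟫ : ℝ) : ℂ) =
      ((-(c * T m ξ) : ℝ) : ℂ) + -(Complex.I * ((T m ξ * t + ⟪ξ, x⟫ : ℝ) : ℂ)) := by
    rw [inner_tl]
    push_cast
    ring
  rw [hE, Complex.exp_add, ← Complex.ofReal_exp]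
  push_cast
  ring

lemma ofReal_half {a : ℝ} (ha : 0 < a) : ((a : ℂ)) ^ (1 / 2 : ℂ) = ((√a : ℝ) : ℂ) := by
  rw [Real.sqrt_eq_rpow, Complex.ofReal_cpow ha.le]
  norm_num

/-- the integral over the Gaussian variable -/
lemma inner_int (m : ℝ) (A B : ℂ) (hB : 0 < B.re) (w : Ed n) {a : ℝ} (ha : 0 < a) :
    ∫ y : Ed n, h m A B w (a, y) =
      ((a ^ (-(1 / 2) : ℝ) : ℝ) : ℂ) * ((Real.pi : ℂ) / B) ^ ((n : ℂ) / 2) *
        Complex.exp (-((A + ((‖w‖ ^ 2 : ℝ) : ℂ) / (4 * B)) * a) - ((m ^ 2 : ℝ) : ℂ) * B / a) := by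
  have ha' : (a : ℂ) ≠ 0 := by exact_mod_cast ha.ne'
  have hB0 : B ≠ 0 := by rintro rfl; simp at hB
  have hbre : 0 < (B / a).re := by
    rw [Complex.div_ofReal_re]
    positivity
  have hG := GaussianFourier.integral_cexp_neg_mul_sq_norm_add (V := Ed n) hbre (-Complex.I) w
  have h1 : ∀ y : Ed n, h m A B w (a, y) =
      (((a ^ (-(((n : ℝ) + 1) / 2)) : ℝ) : ℂ) *
        Complex.exp (-(a * A) - ((m ^ 2 : ℝ) : ℂ) * B / a)) *
      Complex.exp (-(B / a) * (‖y‖ : ℂ) ^ 2 + -Complex.I * ((⟪w, y⟫ : ℝ) : ℂ)) := by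
    intro y
    unfold h
    rw [mul_assoc, ← Complex.exp_add]
    congr 2
    rw [real_inner_comm]
    push_cast
    field_simp
    ring
  simp_rw [h1]
  rw [integral_const_mul, hG]
  have hfin : ((Module.finrank ℝ (Ed n) : ℕ) : ℂ) = (n : ℂ) := by simp
  rw [hfin]
  have hZ : 0 < ((Real.pi : ℂ) / B).re := by
    rw [div_eq_mul_inv, Complex.re_ofReal_mul, Complex.inv_re]
    have : 0 < Complex.normSq B := Complex.normSq_pos.2 hB0
    have := Real.pi_pos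
    positivity
  have h2 : (Real.pi : ℂ) / (B / a) = (a : ℂ) * ((Real.pi : ℂ) / B) := by
    field_simp
  rw [h2, mul_cpow' (by simpa using ha) hZ]
  have h3 : (a : ℂ) ^ ((n : ℂ) / 2) = (((a ^ ((n : ℝ) / 2) : ℝ)) : ℂ) := by
    rw [Complex.ofReal_cpow ha.le]
    push_cast
    rfl
  have h4 : ((a ^ (-(1 / 2) : ℝ) : ℝ) : ℂ) =
      ((a ^ (-(((n : ℝ) + 1) / 2)) : ℝ) : ℂ) * ((a ^ ((n : ℝ) / 2) : ℝ) : ℂ) := by
    rw [← Complex.ofReal_mul, ← Real.rpow_add ha]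
    congr 2
    ring
  rw [h3, h4]
  have h5 : Complex.exp (-((A + ((‖w‖ ^ 2 : ℝ) : ℂ) / (4 * B)) * a) - ((m ^ 2 : ℝ) : ℂ) * B / a) =
      Complex.exp (-(a * A) - ((m ^ 2 : ℝ) : ℂ) * B / a) *
        Complex.exp ((-Complex.I) ^ 2 * (‖w‖ : ℂ) ^ 2 / (4 * (B / a))) := by
    rw [← Complex.exp_add]
    congr 1
    have h6 : (-Complex.I) ^ 2 = -1 := by rw [neg_sq, Complex.I_sq]
    rw [h6]
    push_cast
    field_simp
    ring
  rw [h5]
  ring

end IX_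

open IX_ in
theorem p_IX (h1 : T_CV) (h2 : T_ID) : T_IX := by
  intro n m c hm hc t x
  have hFi : Integrable (F m c : Ed (n + 1) → ℝ) := F_int hm hc
  refine ⟨hFi, ?_⟩
  set A : ℂ := ((c : ℂ) + Complex.I * ((t + x 0 : ℝ) : ℂ)) / 2 with hA
  set B : ℂ := ((c : ℂ) + Complex.I * ((t - x 0 : ℝ) : ℂ)) / 2 with hB
  have hAre : 0 < A.re := by
    rw [hA]; simp; linarith
  have hBre : 0 < B.re := by
    rw [hB]; simp; linarith
  have hB0 : B ≠ 0 := by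
    intro h0; rw [h0] at hBre; simp at hBre
  set P : ℂ := A + ((‖tl x‖ ^ 2 : ℝ) : ℂ) / (4 * B) with hP
  have hPre : 0 < P.re := by
    rw [hP, Complex.add_re]
    have h3 : 0 ≤ (((‖tl x‖ ^ 2 : ℝ) : ℂ) / (4 * B)).re := by
      rw [div_eq_mul_inv, Complex.re_ofReal_mul, Complex.inv_re]
      have h4 : 0 ≤ (4 * B).re := by simp; linarith
      have h5 := Complex.normSq_nonneg (4 * B)
      positivity
    linarith
  set R : ℂ := ((m ^ 2 : ℝ) : ℂ) * B with hR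
  have hRre : 0 < R.re := by
    rw [hR, Complex.re_ofReal_mul]; positivity
  -- the measure
  have hTc := T_cont (n := n) m
  have hφ : Measurable (fun ξ : Ed (n + 1) => (T m ξ + ξ 0, tl ξ)) :=
    ((hTc.add coord_cont).prodMk tl_cont).measurable
  have hd : Measurable (fun ξ : Ed (n + 1) => ENNReal.ofReal (1 / T m ξ)) :=
    ENNReal.measurable_ofReal.comp (measurable_const.div hTc.measurable)
  have hdt : ∀ᵐ ξ : Ed (n + 1), ENNReal.ofReal (1 / T m ξ) < ∞ :=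
    ae_of_all _ fun ξ => ENNReal.ofReal_lt_top
  have hmap := h1 n m hm
  change Measure.map (fun ξ : Ed (n + 1) => (T m ξ + ξ 0, tl ξ))
    (volume.withDensity fun ξ => ENNReal.ofReal (1 / T m ξ)) = _ at hmap
  have htr : ∀ ξ : Ed (n + 1), (ENNReal.ofReal (1 / T m ξ)).toReal = 1 / T m ξ := fun ξ =>
    ENNReal.toReal_ofReal (by have := T_pos hm ξ; positivity)
  have hhm := h_meas m A B (tl x)
  -- first rewriting
  have e1 : ∫ ξ : Ed (n + 1), ((F m c ξ : ℝ) : ℂ) *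
      Complex.exp (-(Complex.I * ((T m ξ * t + ⟪ξ, x⟫ : ℝ) : ℂ))) =
      ∫ z, h m A B (tl x) z ∂(((volume.restrict (Ioi (0 : ℝ))).withDensity fun a =>
        ENNReal.ofReal (1 / a)).prod (volume : Measure (Ed n))) := by
    rw [← hmap, integral_map hφ.aemeasurable hhm.aestronglyMeasurable,
      integral_withDensity_eq_integral_toReal_smul hd hdt]
    refine integral_congr_ae (ae_of_all _ fun ξ => ?_)
    simp only [htr]
    exact key hm c t x ξ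
  have e2 : Integrable (h m A B (tl x)) (((volume.restrict (Ioi (0 : ℝ))).withDensity fun a =>
        ENNReal.ofReal (1 / a)).prod (volume : Measure (Ed n))) := by
    rw [← hmap, integrable_map_measure hhm.aestronglyMeasurable hφ.aemeasurable,
      integrable_withDensity_iff_integrable_smul' hd hdt]
    have h3 : (fun ξ : Ed (n + 1) => (ENNReal.ofReal (1 / T m ξ)).toReal •
        (h m A B (tl x) ∘ fun ξ : Ed (n + 1) => (T m ξ + ξ 0, tl ξ)) ξ) =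
        fun ξ => ((F m c ξ : ℝ) : ℂ) *
          Complex.exp (-(Complex.I * ((T m ξ * t + ⟪ξ, x⟫ : ℝ) : ℂ))) := by
      funext ξ
      rw [htr]
      exact (key hm c t x ξ).symm
    rw [h3]
    refine Integrable.mono' hFi ?_ (ae_of_all _ fun ξ => ?_)
    · have hc1 : Continuous fun ξ : Ed (n + 1) => ((F m c ξ : ℝ) : ℂ) *
          Complex.exp (-(Complex.I * ((T m ξ * t + ⟪ξ, x⟫ : ℝ) : ℂ))) := by
        have := F_cont (n := n) hm c
        fun_prop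
      exact hc1.aestronglyMeasurable
    · rw [norm_mul, Complex.norm_real, Real.norm_of_nonneg (F_nonneg hm c ξ)]
      have h4 : ‖Complex.exp (-(Complex.I * ((T m ξ * t + ⟪ξ, x⟫ : ℝ) : ℂ)))‖ = 1 := by
        rw [Complex.norm_exp]
        simp
      rw [h4, mul_one]
  -- the outer integral
  have hda : Measurable (fun a : ℝ => ENNReal.ofReal (1 / a)) := by fun_prop
  have e3 : ∫ z, h m A B (tl x) z ∂(((volume.restrict (Ioi (0 : ℝ))).withDensity fun a =>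
        ENNReal.ofReal (1 / a)).prod (volume : Measure (Ed n))) =
      ((Real.pi : ℂ) / B) ^ ((n : ℂ) / 2) *
        ∫ a in Ioi (0 : ℝ), ((a ^ (-(3 / 2) : ℝ) : ℝ) : ℂ) * Complex.exp (-(P * a) - R / a) := by
    rw [integral_prod _ e2, integral_withDensity_eq_integral_toReal_smul hda
      (ae_of_all _ fun a => ENNReal.ofReal_lt_top), ← integral_const_mul]
    refine setIntegral_congr_fun measurableSet_Ioi fun a ha => ?_
    have ha : 0 < a := ha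
    rw [inner_int m A B hBre (tl x) ha, ENNReal.toReal_ofReal (by positivity), Complex.real_smul]
    have h5 : ((a ^ (-(3 / 2) : ℝ) : ℝ) : ℂ) = ((1 / a : ℝ) : ℂ) * ((a ^ (-(1 / 2) : ℝ) : ℝ) : ℂ) := by
      rw [← Complex.ofReal_mul]
      congr 1
      have : (1 / a : ℝ) = a ^ (-1 : ℝ) := by rw [Real.rpow_neg_one, one_div]
      rw [this, ← Real.rpow_add ha]
      norm_num
    rw [h5, ← hP, ← hR]
    ring
  have e4 : ∫ ξ : Ed (n + 1), (((√(m ^ 2 + ‖ξ‖ ^ 2) + ξ 0) ^ (-(((n : ℝ) + 1) / 2)) *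
      Real.exp (-(c * √(m ^ 2 + ‖ξ‖ ^ 2))) / √(m ^ 2 + ‖ξ‖ ^ 2) : ℝ) : ℂ) *
      Complex.exp (-(Complex.I * ((√(m ^ 2 + ‖ξ‖ ^ 2) * t + ⟪ξ, x⟫ : ℝ) : ℂ))) =
      ((Real.pi : ℂ) / B) ^ ((n : ℂ) / 2) *
        (((√Real.pi : ℝ) : ℂ) / R ^ (1 / 2 : ℂ) *
      Complex.exp (-(2 * (P ^ (1 / 2 : ℂ) * R ^ (1 / 2 : ℂ))))) := by
    rw [← h2 P R hPre hRre, ← e3, ← e1]
    rfl
  rw [e4]
  -- the algebra
  have hpi := Real.pi_pos
  have hZ : 0 < ((Real.pi : ℂ) / B).re := by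
    rw [div_eq_mul_inv, Complex.re_ofReal_mul, Complex.inv_re]
    have : 0 < Complex.normSq B := Complex.normSq_pos.2 hB0
    positivity
  have hZ0 : (Real.pi : ℂ) / B ≠ 0 := by
    intro h0; rw [h0] at hZ; simp at hZ
  have hZe : (Real.pi : ℂ) / B =
      ((2 * Real.pi : ℝ) : ℂ) / ((c : ℂ) + Complex.I * ((t - x 0 : ℝ) : ℂ)) := by
    rw [hB]
    push_cast
    rw [div_div_eq_mul_div]
    ring
  have hR2 : R ^ (1 / 2 : ℂ) = (m : ℂ) * B ^ (1 / 2 : ℂ) := by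
    rw [hR, mul_cpow' (by rw [Complex.ofReal_re]; positivity) hBre, ofReal_half (by positivity),
      Real.sqrt_sq hm.le]
  have hB12 : B ^ (1 / 2 : ℂ) ≠ 0 := by
    rw [Complex.cpow_def_of_ne_zero hB0]
    exact Complex.exp_ne_zero _
  have hpi2 : ((√Real.pi : ℝ) : ℂ) = ((Real.pi : ℂ) / B) ^ (1 / 2 : ℂ) * B ^ (1 / 2 : ℂ) := by
    rw [← mul_cpow' hZ hBre, div_mul_cancel₀ _ hB0, ofReal_half hpi]
  have hm0 : (m : ℂ) ≠ 0 := by exact_mod_cast hm.ne'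
  have hfirst : ((Real.pi : ℂ) / B) ^ ((n : ℂ) / 2) * (((√Real.pi : ℝ) : ℂ) / R ^ (1 / 2 : ℂ)) =
      ((1 / m : ℝ) : ℂ) * (((2 * Real.pi : ℝ) : ℂ) /
        ((c : ℂ) + Complex.I * ((t - x 0 : ℝ) : ℂ))) ^ ((((n : ℝ) + 1) / 2 : ℝ) : ℂ) := by
    rw [← hZe, hR2, hpi2]
    have h6 : ((((n : ℝ) + 1) / 2 : ℝ) : ℂ) = (n : ℂ) / 2 + 1 / 2 := by
      push_cast; ring
    rw [h6, Complex.cpow_add _ _ hZ0]
    push_cast
    field_simp
  have hsecond : 2 * (P ^ (1 / 2 : ℂ) * R ^ (1 / 2 : ℂ)) =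
      (m : ℂ) * (((c : ℂ) + Complex.I * t) ^ 2 + ((‖x‖ ^ 2 : ℝ) : ℂ)) ^ (1 / 2 : ℂ) := by
    have h7 : (((c : ℂ) + Complex.I * t) ^ 2 + ((‖x‖ ^ 2 : ℝ) : ℂ)) = ((4 : ℝ) : ℂ) * P * B := by
      have h8 : ((4 : ℝ) : ℂ) * P * B = 4 * A * B + ((‖tl x‖ ^ 2 : ℝ) : ℂ) := by
        rw [hP]
        push_cast
        field_simp
      rw [h8, norm_sq_tl x, hA, hB]
      push_cast
      have hI := Complex.I_sq
      linear_combination ((x 0 : ℂ) ^ 2) * hI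
    have h9 : 0 < (((4 : ℝ) : ℂ) * P).re := by
      rw [Complex.re_ofReal_mul]; linarith
    rw [h7, mul_cpow' h9 hBre, mul_cpow' (by norm_num) hPre, ofReal_half (by norm_num), hR2]
    have h10 : √(4 : ℝ) = 2 := by
      rw [show (4 : ℝ) = 2 ^ 2 by norm_num, Real.sqrt_sq (by norm_num)]
    rw [h10]
    push_cast
    ring
  rw [← mul_assoc, hfirst, hsecond]

end Pool.Agent.SymM
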