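import Pool.Agent.SymM.Targets

set_option autoImplicit false

noncomputable section

open MeasureTheory Set Filter
open scoped ENNReal RealInnerProductSpace Topology ComplexConjugate

namespace Pool.Agent.SymM

open Pool.Agent.ExpMax

namespace KNAPP_

variable {d : ℕ}

/-- The cap. -/
def cap (d : ℕ) (R : ℝ) : Set (Pt d) := {ζ | 0 < ζ.1 ∧ ‖ζ.2.2‖ ≤ R⁻¹}

/-- The set where the extension is large. -/
def box (β γ : ℝ) (d : ℕ) (R : ℝ) : Set (Pt d) :=
  {y | |y.1| ≤ |γ / β| * R ^ 2 ∧ y.2.1 = -(γ / β) ∧ ‖y.2.2‖ ≤ R / 2}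

lemma measurableSet_cap (R : ℝ) : MeasurableSet (cap d R) := by
  apply MeasurableSet.inter
  · exact measurableSet_lt measurable_const measurable_fst
  · exact measurableSet_le measurable_snd.snd.norm measurable_const

lemma measurableSet_box (β γ R : ℝ) : MeasurableSet (box β γ d R) := by
  apply MeasurableSet.inter
  · exact measurableSet_le (measurable_fst.abs : Measurable fun y : Pt d => |y.1|)
      measurable_const
  · apply MeasurableSet.inter
    · exact measurableSet_eq_fun measurable_snd.fst measurable_const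
    · exact measurableSet_le measurable_snd.snd.norm measurable_const

lemma measurable_hpt (β γ ε : ℝ) : Measurable (hpt β γ ε : Ed d → Pt d) := by
  unfold hpt
  fun_prop

/-- Almost everywhere on the hyperboloid. -/
lemma ae_hyp (h : T_HYP) (β γ : ℝ) (hd : 1 ≤ d) (hβ : β ≠ 0) (hγ : γ ≠ 0) :
    ∀ᵐ ζ ∂(sectionMeasure 0 β γ d), 0 < ζ.1 →
      ζ.2.1 = -(γ / β) ∧ ζ.1 = √((γ / β) ^ 2 + ‖ζ.2.2‖ ^ 2) := by
  have hm : MeasurableSet {ζ : Pt d | 0 < ζ.1 →
      ζ.2.1 = -(γ / β) ∧ ζ.1 = √((γ / β) ^ 2 + ‖ζ.2.2‖ ^ 2)} := by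
    have e : {ζ : Pt d | 0 < ζ.1 →
        ζ.2.1 = -(γ / β) ∧ ζ.1 = √((γ / β) ^ 2 + ‖ζ.2.2‖ ^ 2)} =
        {ζ : Pt d | 0 < ζ.1}ᶜ ∪ ({ζ : Pt d | ζ.2.1 = -(γ / β)} ∩
          {ζ : Pt d | ζ.1 = √((γ / β) ^ 2 + ‖ζ.2.2‖ ^ 2)}) := by
      ext ζ
      simp only [mem_ofPred_eq, mem_union, mem_compl_iff, mem_inter_iff]
      tauto
    rw [e]
    apply MeasurableSet.union
    · exact (measurableSet_lt measurable_const measurable_fst).compl
    · apply MeasurableSet.inter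
      · exact measurableSet_eq_fun measurable_snd.fst measurable_const
      · exact measurableSet_eq_fun measurable_fst (by fun_prop)
  rw [h d β γ hd hβ hγ, ae_add_measure_iff]
  constructor
  · rw [ae_map_iff (measurable_hpt β γ 1).aemeasurable hm]
    refine Filter.Eventually.of_forall fun ξ _ => ?_
    simp [hpt]
  · rw [ae_map_iff (measurable_hpt β γ (-1)).aemeasurable hm]
    refine Filter.Eventually.of_forall fun ξ h0 => ?_
    exfalso
    have : 0 ≤ √((γ / β) ^ 2 + ‖ξ‖ ^ 2) := Real.sqrt_nonneg _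
    simp only [hpt] at h0
    linarith

lemma section_cap (h : T_HYP) (β γ R : ℝ) (hd : 1 ≤ d) (hβ : β ≠ 0) (hγ : γ ≠ 0) :
    sectionMeasure 0 β γ d (cap d R) =
      ∫⁻ ξ in Metric.closedBall (0 : Ed d) R⁻¹,
        ENNReal.ofReal (1 / (2 * |β| * √((γ / β) ^ 2 + ‖ξ‖ ^ 2))) := by
  have hq : 0 < (γ / β) ^ 2 := by positivity
  rw [h d β γ hd hβ hγ, Measure.add_apply,
    Measure.map_apply (measurable_hpt β γ 1) (measurableSet_cap R),
    Measure.map_apply (measurable_hpt β γ (-1)) (measurableSet_cap R)]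
  have e1 : (hpt β γ 1 : Ed d → Pt d) ⁻¹' cap d R = Metric.closedBall (0 : Ed d) R⁻¹ := by
    ext ξ
    have : 0 < √((γ / β) ^ 2 + ‖ξ‖ ^ 2) := Real.sqrt_pos.2 (by positivity)
    simp only [cap, hpt, one_mul, mem_preimage, mem_ofPred_eq, this, true_and,
      Metric.mem_closedBall, dist_zero_right]
  have e2 : (hpt β γ (-1) : Ed d → Pt d) ⁻¹' cap d R = ∅ := by
    ext ξ
    have : 0 ≤ √((γ / β) ^ 2 + ‖ξ‖ ^ 2) := Real.sqrt_nonneg _
    simp only [cap, hpt, mem_preimage, mem_ofPred_eq, mem_empty_iff_false, iff_false, not_and]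
    intro h0
    linarith
  rw [e1, e2, measure_empty, add_zero, hnu,
    withDensity_apply _ Metric.isClosed_closedBall.measurableSet]

lemma vol_ball (r : ℝ) (hr : 0 ≤ r) :
    volume (Metric.closedBall (0 : Ed d) r) =
      ENNReal.ofReal (r ^ d * (volume (Metric.ball (0 : Ed d) 1)).toReal) := by
  rw [Measure.addHaar_closedBall _ _ hr, ENNReal.ofReal_mul (by positivity),
    ENNReal.ofReal_toReal measure_ball_lt_top.ne]
  simp

lemma cap_lower (h : T_HYP) (β γ R : ℝ) (hd : 1 ≤ d) (hβ : β ≠ 0) (hγ : γ ≠ 0) (hR : 1 ≤ R) :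
    ENNReal.ofReal (1 / (2 * |β| * √((γ / β) ^ 2 + 1)) *
      ((R⁻¹) ^ d * (volume (Metric.ball (0 : Ed d) 1)).toReal)) ≤
    sectionMeasure 0 β γ d (cap d R) := by
  have hb : 0 < |β| := abs_pos.2 hβ
  have hR1 : R⁻¹ ≤ 1 := inv_le_one_of_one_le₀ hR
  have hR0 : 0 ≤ R⁻¹ := by positivity
  rw [section_cap h β γ R hd hβ hγ, ENNReal.ofReal_mul (by positivity), ← vol_ball _ hR0,
    ← setLIntegral_const]
  apply setLIntegral_mono' Metric.isClosed_closedBall.measurableSet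
  intro ξ hξ
  apply ENNReal.ofReal_le_ofReal
  have h1 : ‖ξ‖ ≤ R⁻¹ := by simpa using hξ
  have h2 : ‖ξ‖ ^ 2 ≤ 1 := by
    have := norm_nonneg ξ
    nlinarith
  have hq : 0 < (γ / β) ^ 2 := by positivity
  have h3 : √((γ / β) ^ 2 + ‖ξ‖ ^ 2) ≤ √((γ / β) ^ 2 + 1) := Real.sqrt_le_sqrt (by linarith)
  have h4 : 0 < √((γ / β) ^ 2 + ‖ξ‖ ^ 2) := Real.sqrt_pos.2 (by positivity)
  apply one_div_le_one_div_of_le (by positivity)
  apply mul_le_mul_of_nonneg_left h3 (by positivity)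

lemma cap_lt_top (h : T_HYP) (β γ R : ℝ) (hd : 1 ≤ d) (hβ : β ≠ 0) (hγ : γ ≠ 0) :
    sectionMeasure 0 β γ d (cap d R) < ∞ := by
  have hb : 0 < |β| := abs_pos.2 hβ
  have hq : 0 < (γ / β) ^ 2 := by positivity
  rw [section_cap h β γ R hd hβ hγ]
  calc ∫⁻ ξ in Metric.closedBall (0 : Ed d) R⁻¹,
        ENNReal.ofReal (1 / (2 * |β| * √((γ / β) ^ 2 + ‖ξ‖ ^ 2)))
      ≤ ∫⁻ _ξ in Metric.closedBall (0 : Ed d) R⁻¹,
        ENNReal.ofReal (1 / (2 * |β| * √((γ / β) ^ 2))) := by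
        apply setLIntegral_mono' Metric.isClosed_closedBall.measurableSet
        intro ξ _
        apply ENNReal.ofReal_le_ofReal
        have h3 : √((γ / β) ^ 2) ≤ √((γ / β) ^ 2 + ‖ξ‖ ^ 2) :=
          Real.sqrt_le_sqrt (by nlinarith [sq_nonneg ‖ξ‖])
        have h4 : 0 < √((γ / β) ^ 2) := Real.sqrt_pos.2 (by positivity)
        apply one_div_le_one_div_of_le (by positivity)
        apply mul_le_mul_of_nonneg_left h3 (by positivity)
    _ < ∞ := by
        rw [setLIntegral_const]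
        exact ENNReal.mul_lt_top ENNReal.ofReal_lt_top measure_closedBall_lt_top

/-- The test function. -/
def tf (d : ℕ) (R : ℝ) : Pt d → ℂ := (cap d R).indicator fun _ => 1

lemma phase (β γ R : ℝ) (hβ : β ≠ 0) (hγ : γ ≠ 0) (hR : 1 ≤ R) (ζ y : Pt d) (hζ : ζ ∈ cap d R)
    (hy : y ∈ box β γ d R)
    (h1 : ζ.2.1 = -(γ / β) ∧ ζ.1 = √((γ / β) ^ 2 + ‖ζ.2.2‖ ^ 2)) :
    |(|γ / β| * y.1 + (γ / β) ^ 2) - dot ζ y| ≤ 1 := by
  obtain ⟨y1, y2, y3⟩ := hy
  obtain ⟨z1, z2⟩ := hζ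
  obtain ⟨h2, h3⟩ := h1
  have hR0 : 0 < R := by linarith
  set m : ℝ := |γ / β| with hm
  have hm0 : 0 < m := abs_pos.2 (div_ne_zero hγ hβ)
  have hm2 : (γ / β) ^ 2 = m ^ 2 := by rw [hm, sq_abs]
  have hr0 : 0 ≤ ‖ζ.2.2‖ := norm_nonneg _
  have ha : 0 ≤ ζ.1 - m := by
    rw [h3, hm2]
    have : √(m ^ 2) ≤ √(m ^ 2 + ‖ζ.2.2‖ ^ 2) := Real.sqrt_le_sqrt (by nlinarith)
    rw [Real.sqrt_sq hm0.le] at this
    linarith
  have hb : ζ.1 - m ≤ ‖ζ.2.2‖ ^ 2 / (2 * m) := by
    rw [h3, hm2]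
    have : √(m ^ 2 + ‖ζ.2.2‖ ^ 2) ≤ m + ‖ζ.2.2‖ ^ 2 / (2 * m) := by
      apply Real.sqrt_le_iff.2
      constructor
      · positivity
      · have e : (m + ‖ζ.2.2‖ ^ 2 / (2 * m)) ^ 2 = m ^ 2 + ‖ζ.2.2‖ ^ 2 +
            (‖ζ.2.2‖ ^ 2 / (2 * m)) ^ 2 := by
          field_simp
          ring
        rw [e]
        have := sq_nonneg (‖ζ.2.2‖ ^ 2 / (2 * m))
        linarith
    linarith
  have hc : ‖ζ.2.2‖ ^ 2 / (2 * m) ≤ (R⁻¹) ^ 2 / (2 * m) := by
    apply div_le_div_of_nonneg_right _ (by positivity)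
    exact pow_le_pow_left₀ hr0 z2 2
  have hd1 : |(ζ.1 - m) * y.1| ≤ 1 / 2 := by
    rw [abs_mul, abs_of_nonneg ha]
    calc (ζ.1 - m) * |y.1| ≤ ((R⁻¹) ^ 2 / (2 * m)) * (m * R ^ 2) := by
          apply mul_le_mul (hb.trans hc) y1 (abs_nonneg _) (by positivity)
      _ = 1 / 2 := by field_simp
  have he : |⟪ζ.2.2, y.2.2⟫| ≤ 1 / 2 := by
    calc |⟪ζ.2.2, y.2.2⟫| ≤ ‖ζ.2.2‖ * ‖y.2.2‖ := abs_real_inner_le_norm _ _
      _ ≤ R⁻¹ * (R / 2) := mul_le_mul z2 y3 (norm_nonneg _) (by positivity)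
      _ = 1 / 2 := by field_simp
  have e : (m * y.1 + (γ / β) ^ 2) - dot ζ y = -((ζ.1 - m) * y.1) - ⟪ζ.2.2, y.2.2⟫ := by
    simp only [dot, h2, y2]
    ring
  rw [e]
  calc |-((ζ.1 - m) * y.1) - ⟪ζ.2.2, y.2.2⟫| ≤ |-((ζ.1 - m) * y.1)| + |⟪ζ.2.2, y.2.2⟫| :=
        abs_sub _ _
    _ ≤ 1 := by rw [abs_neg]; linarith

lemma ext_lower (h : T_HYP) (β γ R : ℝ) (hd : 1 ≤ d) (hβ : β ≠ 0) (hγ : γ ≠ 0) (hR : 1 ≤ R)
    (y : Pt d) (hy : y ∈ box β γ d R) :
    Real.cos 1 * (sectionMeasure 0 β γ d (cap d R)).toReal ≤ ‖extension 0 β γ (tf d R) y‖ := by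
  set σ := sectionMeasure 0 β γ d with hσ
  set κ : ℝ := |γ / β| * y.1 + (γ / β) ^ 2 with hκ
  have hfin := cap_lt_top h β γ R hd hβ hγ
  have hmeas := measurableSet_cap (d := d) R
  have e1 : extension 0 β γ (tf d R) y =
      ∫ ζ in cap d R, Complex.exp (-(Complex.I * ((dot ζ y : ℝ) : ℂ))) ∂σ := by
    rw [extension, ← integral_indicator hmeas]
    apply integral_congr_ae
    refine Filter.Eventually.of_forall fun ζ => ?_
    by_cases hz : ζ ∈ cap d R
    · simp [tf, hz]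
    · simp [tf, hz]
  have e2 : Complex.exp (Complex.I * ((κ : ℝ) : ℂ)) * extension 0 β γ (tf d R) y =
      ∫ ζ in cap d R, Complex.exp (((κ - dot ζ y : ℝ) : ℂ) * Complex.I) ∂σ := by
    rw [e1, ← integral_const_mul]
    congr 1
    ext ζ
    rw [← Complex.exp_add]
    congr 1
    push_cast
    ring
  have hint : IntegrableOn (fun ζ : Pt d => Complex.exp (((κ - dot ζ y : ℝ) : ℂ) * Complex.I))
      (cap d R) σ := by
    apply Measure.integrableOn_of_bounded (M := 1) hfin.ne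
    · apply Measurable.aestronglyMeasurable
      unfold dot
      fun_prop
    · refine Filter.Eventually.of_forall fun ζ => ?_
      rw [Complex.norm_exp_ofReal_mul_I]
  have e3 : (∫ ζ in cap d R, Complex.exp (((κ - dot ζ y : ℝ) : ℂ) * Complex.I) ∂σ).re =
      ∫ ζ in cap d R, Real.cos (κ - dot ζ y) ∂σ := by
    have := integral_re hint
    simp only [RCLike.re_to_complex] at this
    rw [← this]
    congr 1
    ext ζ
    rw [Complex.exp_ofReal_mul_I_re]
  have e4 : Real.cos 1 * (σ (cap d R)).toReal ≤ ∫ ζ in cap d R, Real.cos (κ - dot ζ y) ∂σ := by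
    have hc : ∫ _ζ in cap d R, Real.cos 1 ∂σ = Real.cos 1 * (σ (cap d R)).toReal := by
      rw [setIntegral_const, smul_eq_mul, mul_comm]
      rfl
    rw [← hc]
    apply setIntegral_mono_on_ae
    · exact integrableOn_const hfin.ne
    · have := hint.re
      refine this.congr ?_
      refine Filter.Eventually.of_forall fun ζ => ?_
      simp only [RCLike.re_to_complex]
      rw [Complex.exp_ofReal_mul_I_re]
    · exact hmeas
    · filter_upwards [ae_hyp h β γ hd hβ hγ] with ζ h1 h2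
      have h3 := phase β γ R hβ hγ hR ζ y h2 hy (h1 h2.1)
      rw [← Real.cos_abs (κ - dot ζ y)]
      apply Real.cos_le_cos_of_nonneg_of_le_pi (abs_nonneg _) _ h3
      linarith [Real.pi_gt_three]
  calc Real.cos 1 * (σ (cap d R)).toReal
      ≤ (Complex.exp (Complex.I * ((κ : ℝ) : ℂ)) * extension 0 β γ (tf d R) y).re := by
        rw [e2, e3]
        exact e4
    _ ≤ ‖Complex.exp (Complex.I * ((κ : ℝ) : ℂ)) * extension 0 β γ (tf d R) y‖ :=
        Complex.re_le_norm _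
    _ = ‖extension 0 β γ (tf d R) y‖ := by
        rw [norm_mul, mul_comm Complex.I, Complex.norm_exp_ofReal_mul_I, one_mul]

lemma plane_lower (β γ R : ℝ) (hβ : β ≠ 0) (hγ : γ ≠ 0) (hR : 1 ≤ R) :
    ENNReal.ofReal (1 / |β| * ((2 * |γ / β| * R ^ 2) *
      ((R / 2) ^ d * (volume (Metric.ball (0 : Ed d) 1)).toReal))) ≤
    planeMeasure 0 β γ d (box β γ d R) := by
  have hb : 0 < |β| := abs_pos.2 hβ
  have hm0 : 0 < |γ / β| := abs_pos.2 (div_ne_zero hγ hβ)
  have hR0 : 0 < R := by linarith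
  have hs : √((0 : ℝ) ^ 2 + β ^ 2) = |β| := by
    rw [zero_pow two_ne_zero, zero_add, Real.sqrt_sq_eq_abs]
  have hpl : Measurable (fun x : ℝ × Ed d => planePt 0 β γ x.1 x.2) := by
    unfold planePt
    fun_prop
  rw [planeMeasure, hs, Measure.smul_apply, smul_eq_mul,
    Measure.map_apply hpl (measurableSet_box β γ R), ENNReal.ofReal_mul (by positivity)]
  gcongr
  rw [ENNReal.ofReal_mul (by positivity), ← vol_ball _ (by positivity)]
  have e : ENNReal.ofReal (2 * |γ / β| * R ^ 2) =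
      volume (Icc (-(|γ / β| * R ^ 2)) (|γ / β| * R ^ 2)) := by
    rw [Real.volume_Icc]
    congr 1
    ring
  rw [e, ← Measure.prod_prod, ← Measure.volume_eq_prod]
  apply measure_mono
  rintro ⟨s, x⟩ ⟨h1, h2⟩
  simp only [mem_Icc] at h1
  have h3 : ‖x‖ ≤ R / 2 := by simpa using h2
  have h4 : |s| ≤ |γ / β| * R ^ 2 := abs_le.2 h1
  simp only [mem_preimage, box, planePt, mem_ofPred_eq, hs]
  refine ⟨?_, ?_, h3⟩
  · have : -(γ * 0) / ((0 : ℝ) ^ 2 + β ^ 2) - s * β / |β| = -(s * (β / |β|)) := by ring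
    rw [this, abs_neg, abs_mul, abs_div, abs_abs, div_self hb.ne', mul_one]
    exact h4
  · field_simp
    ring

end KNAPP_

open KNAPP_

theorem p_KNAPP (h : T_HYP) : T_KNAPP := by
  intro d β γ p hd hβ hγ hp hp2
  have hb : 0 < |β| := abs_pos.2 hβ
  have hm0 : 0 < |γ / β| := abs_pos.2 (div_ne_zero hγ hβ)
  set B : ℝ := (volume (Metric.ball (0 : Ed d) 1)).toReal with hB
  have hB0 : 0 < B := ENNReal.toReal_pos (Metric.measure_ball_pos _ _ one_pos).ne'
    measure_ball_lt_top.ne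
  set c1 : ℝ := 1 / (2 * |β| * √((γ / β) ^ 2 + 1)) * B with hc1
  have hc10 : 0 < c1 := by
    have : 0 < √((γ / β) ^ 2 + 1) := Real.sqrt_pos.2 (by positivity)
    positivity
  set c2 : ℝ := 1 / |β| * (2 * |γ / β| * ((1 / 2) ^ d * B)) with hc2
  have hc20 : 0 < c2 := by positivity
  have hcos : 0 < Real.cos 1 := Real.cos_one_pos
  have hd0 : (0 : ℝ) < d := by exact_mod_cast hd
  set k : ℝ := (d : ℝ) + 2 - d * p / 2 with hk
  have hk0 : 0 < k := by
    have h1 : p * d < (2 + 4 / (d : ℝ)) * d := mul_lt_mul_of_pos_right hp2 hd0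
    have h2 : (2 + 4 / (d : ℝ)) * d = 2 * d + 4 := by field_simp
    rw [hk]
    nlinarith
  have key : ∀ R : ℝ, 1 ≤ R →
      ENNReal.ofReal (Real.cos 1 ^ p * c2 * c1 ^ (p / 2) * R ^ k) ≤ bestConst 0 β γ d p := by
    intro R hR
    have hR0 : 0 < R := by linarith
    set σ := sectionMeasure 0 β γ d with hσ
    set S : ℝ≥0∞ := σ (cap d R) with hS
    have hStop : S < ∞ := cap_lt_top h β γ R hd hβ hγ
    have hSlow : ENNReal.ofReal (c1 * (R⁻¹) ^ d) ≤ S := by
      have := cap_lower h β γ R hd hβ hγ hR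
      refine le_trans (le_of_eq ?_) this
      congr 1
      rw [hc1]
      ring
    have hS0 : S ≠ 0 := by
      intro h0
      rw [h0] at hSlow
      have : 0 < c1 * (R⁻¹) ^ d := by positivity
      exact absurd hSlow (not_le.2 (ENNReal.ofReal_pos.2 this))
    have hmeas := measurableSet_cap (d := d) R
    have hL2 : MemLp (tf d R) 2 σ := memLp_indicator_const 2 hmeas 1 (Or.inr hStop.ne)
    have hL1 : Integrable (tf d R) σ := by
      have := memLp_indicator_const (E := ℂ) 1 hmeas 1 (μ := σ) (Or.inr hStop.ne)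
      exact memLp_one_iff_integrable.1 this
    have hne : ¬ tf d R =ᵐ[σ] 0 := by
      intro h0
      have h1 : ∀ᵐ ζ ∂σ, ζ ∉ cap d R := by
        filter_upwards [h0] with ζ h2 h3
        simp [tf, h3] at h2
      have h2 : σ (cap d R) = 0 := by
        have := ae_iff.1 h1
        simpa using this
      exact hS0 h2
    have hq : quotient 0 β γ p (tf d R) ≤ bestConst 0 β γ d p := by
      unfold bestConst
      exact le_iSup_of_le (tf d R) (le_iSup_of_le hL2 (le_iSup_of_le hL1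
        (le_iSup_of_le hne le_rfl)))
    refine le_trans ?_ hq
    have hden : ∫⁻ ζ, ‖tf d R ζ‖ₑ ^ (2 : ℝ) ∂σ = S := by
      have e : ∀ ζ : Pt d, ‖tf d R ζ‖ₑ ^ (2 : ℝ) = (cap d R).indicator 1 ζ := by
        intro ζ
        by_cases hz : ζ ∈ cap d R
        · simp [tf, hz]
        · simp [tf, hz]
      simp_rw [e]
      rw [lintegral_indicator_one hmeas]
    have hnum : (ENNReal.ofReal (Real.cos 1) * S) ^ p * planeMeasure 0 β γ d (box β γ d R) ≤
        ∫⁻ y, ‖extension 0 β γ (tf d R) y‖ₑ ^ p ∂(planeMeasure 0 β γ d) := by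
      rw [← setLIntegral_const]
      refine le_trans ?_ (setLIntegral_le_lintegral (box β γ d R) _)
      apply setLIntegral_mono' (measurableSet_box β γ R)
      intro y hy
      apply ENNReal.rpow_le_rpow _ hp.le
      have := ext_lower h β γ R hd hβ hγ hR y hy
      rw [← ENNReal.ofReal_toReal hStop.ne, ← ENNReal.ofReal_mul hcos.le]
      rw [← ofReal_norm]
      exact ENNReal.ofReal_le_ofReal this
    rw [quotient, hden]
    rw [ENNReal.le_div_iff_mul_le (Or.inl (by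
      simp only [ne_eq, ENNReal.rpow_eq_zero_iff, not_or, not_and]
      exact ⟨fun h0 => absurd h0 hS0, fun h0 => absurd h0 hStop.ne⟩)) (Or.inl (by
      simp only [ne_eq, ENNReal.rpow_eq_top_iff, not_or, not_and]
      exact ⟨fun h0 => absurd h0 hS0, fun h0 => absurd h0 hStop.ne⟩))]
    refine le_trans ?_ hnum
    rw [ENNReal.mul_rpow_of_nonneg _ _ hp.le]
    have hSp : S ^ p = S ^ (p / 2) * S ^ (p / 2) := by
      rw [← ENNReal.rpow_add _ _ hS0 hStop.ne]
      congr 1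
      ring
    have hpl := plane_lower (d := d) β γ R hβ hγ hR
    have e1 : Real.cos 1 ^ p * c2 * c1 ^ (p / 2) * R ^ k =
        Real.cos 1 ^ p * (c1 * (R⁻¹) ^ d) ^ (p / 2) *
          (1 / |β| * ((2 * |γ / β| * R ^ 2) * ((R / 2) ^ d * B))) := by
      rw [Real.mul_rpow hc10.le (by positivity)]
      have e2 : ((R⁻¹) ^ d : ℝ) ^ (p / 2) = R ^ (-(d * p / 2)) := by
        rw [← Real.rpow_natCast, ← Real.rpow_mul (by positivity), Real.inv_rpow hR0.le,
          ← Real.rpow_neg hR0.le]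
        congr 1
        ring
      have e3 : R ^ k = R ^ (-((d : ℝ) * p / 2)) * (R ^ d * R ^ 2) := by
        rw [← Real.rpow_natCast R d, ← Real.rpow_two, ← Real.rpow_add hR0, ← Real.rpow_add hR0]
        congr 1
        rw [hk]
        ring
      rw [e2, e3, hc2, div_pow, div_pow, one_pow]
      field_simp
    rw [e1, ENNReal.ofReal_mul (by positivity), ENNReal.ofReal_mul (by positivity),
      ← ENNReal.ofReal_rpow_of_pos hcos,
      ← ENNReal.ofReal_rpow_of_pos (by positivity : 0 < c1 * (R⁻¹) ^ d), hSp]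
    calc ENNReal.ofReal (Real.cos 1) ^ p * ENNReal.ofReal (c1 * R⁻¹ ^ d) ^ (p / 2) *
          ENNReal.ofReal (1 / |β| * (2 * |γ / β| * R ^ 2 * ((R / 2) ^ d * B))) * S ^ (p / 2)
        ≤ ENNReal.ofReal (Real.cos 1) ^ p * S ^ (p / 2) *
          planeMeasure 0 β γ d (box β γ d R) * S ^ (p / 2) := by
          gcongr
      _ = ENNReal.ofReal (Real.cos 1) ^ p * (S ^ (p / 2) * S ^ (p / 2)) *
          planeMeasure 0 β γ d (box β γ d R) := by ring
  by_contra hne
  have hlt : bestConst 0 β γ d p < ∞ := lt_top_iff_ne_top.2 hne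
  set C : ℝ := Real.cos 1 ^ p * c2 * c1 ^ (p / 2) with hC
  have hC0 : 0 < C := by positivity
  have ht : Tendsto (fun R : ℝ => C * R ^ k) atTop atTop :=
    (tendsto_rpow_atTop hk0).const_mul_atTop hC0
  obtain ⟨R, hR1, hR2⟩ := ((ht.eventually_gt_atTop (bestConst 0 β γ d p).toReal).and
    (eventually_ge_atTop 1)).exists
  have h1 := key R hR2
  rw [← ENNReal.ofReal_toReal hlt.ne] at h1
  have h2 := (ENNReal.ofReal_le_ofReal_iff ENNReal.toReal_nonneg).1 h1
  linarith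

end Pool.Agent.SymM
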