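import Pool.Agent.SymM.Targets

set_option autoImplicit false

/-!
# LARGE: for large exponents the integral is dominated by the point of the maximum
-/

noncomputable section

open MeasureTheory Set Filter
open scoped ENNReal RealInnerProductSpace Topology

namespace Pool.Agent.SymM

open Pool.Agent.ExpMax

namespace LARGE_

/-- A Lipschitz function with integrable power tends to zero at infinity. -/
lemma vanish {d : ℕ} (u : ℝ × Ed d → ℝ) (q L : ℝ) (hu : Continuous u)
    (hL : ∀ z z', |u z - u z'| ≤ L * ‖z - z'‖) (hq : 1 ≤ q)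
    (hi : Integrable (fun z => |u z| ^ q)) (ε : ℝ) (hε : 0 < ε) :
    ∃ R : ℝ, ∀ z, R ≤ ‖z‖ → |u z| < ε := by
  by_contra hcon
  push Not at hcon
  set ρ : ℝ := ε / (2 * (|L| + 1)) with hρ
  have hL1 : 0 < |L| + 1 := by positivity
  have hρ0 : 0 < ρ := by positivity
  have hball : ∀ z, ε ≤ |u z| → ∀ z' ∈ Metric.ball z ρ, ε / 2 ≤ |u z'| := by
    intro z hz z' hz'
    have h1 : ‖z - z'‖ < ρ := by
      rw [Metric.mem_ball, dist_comm, dist_eq_norm] at hz'
      exact hz'
    have h2 : |u z - u z'| ≤ ε / 2 := by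
      calc |u z - u z'| ≤ L * ‖z - z'‖ := hL z z'
        _ ≤ |L| * ‖z - z'‖ := by
            apply mul_le_mul_of_nonneg_right (le_abs_self L) (norm_nonneg _)
        _ ≤ (|L| + 1) * ρ := by
            apply mul_le_mul (by linarith) h1.le (norm_nonneg _) hL1.le
        _ = ε / 2 := by rw [hρ]; field_simp
    have h3 : |u z| ≤ |u z - u z'| + |u z'| := by
      have := abs_add_le (u z - u z') (u z')
      simpa using this
    linarith
  -- measure of balls
  have hvol : ∀ z : ℝ × Ed d, volume.real (Metric.ball z ρ) = volume.real (Metric.ball (0 : ℝ × Ed d) ρ) := by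
    intro z
    haveI : (volume : Measure (ℝ × Ed d)).IsAddHaarMeasure := by
      rw [Measure.volume_eq_prod]
      infer_instance
    unfold Measure.real
    rw [Measure.addHaar_ball_center]
  set v : ℝ := volume.real (Metric.ball (0 : ℝ × Ed d) ρ) with hv
  have hv0 : 0 < v := by
    rw [hv]
    exact ENNReal.toReal_pos (Metric.measure_ball_pos _ _ hρ0).ne' measure_ball_lt_top.ne
  -- tails
  have hset : ∀ n : ℕ, MeasurableSet {z : ℝ × Ed d | (n : ℝ) ≤ ‖z‖} := fun n =>
    (isClosed_le continuous_const continuous_norm).measurableSet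
  have htail : Tendsto (fun n : ℕ => ∫ z in {z : ℝ × Ed d | (n : ℝ) ≤ ‖z‖}, |u z| ^ q) atTop
      (𝓝 (∫ z in ⋂ n : ℕ, {z : ℝ × Ed d | (n : ℝ) ≤ ‖z‖}, |u z| ^ q)) := by
    apply tendsto_setIntegral_of_antitone hset
    · intro a b hab z hz
      have : (a : ℝ) ≤ b := by exact_mod_cast hab
      exact this.trans hz
    · exact ⟨0, hi.integrableOn⟩
  have hinter : (⋂ n : ℕ, {z : ℝ × Ed d | (n : ℝ) ≤ ‖z‖}) = ∅ := by
    ext z
    simp only [mem_iInter, Set.mem_ofPred_eq, mem_empty_iff_false, iff_false, not_forall, not_le]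
    exact exists_nat_gt ‖z‖
  rw [hinter] at htail
  simp only [Measure.restrict_empty, integral_zero_measure] at htail
  set κ : ℝ := (ε / 2) ^ q * v with hκ
  have hκ0 : 0 < κ := by positivity
  obtain ⟨N, hN⟩ := ((tendsto_order.1 htail).2 κ hκ0).exists
  obtain ⟨z, hz1, hz2⟩ := hcon (N + ρ)
  have hsub : Metric.ball z ρ ⊆ {z : ℝ × Ed d | (N : ℝ) ≤ ‖z‖} := by
    intro z' hz'
    rw [Metric.mem_ball, dist_eq_norm] at hz'
    have h1 : ‖z‖ ≤ ‖z'‖ + ‖z' - z‖ := by
      have := norm_sub_le z' (z' - z)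
      simpa using this
    show (N : ℝ) ≤ ‖z'‖
    linarith
  have h1 : κ ≤ ∫ z' in Metric.ball z ρ, |u z'| ^ q := by
    have h2 : ∫ z' in Metric.ball z ρ, (ε / 2) ^ q = κ := by
      rw [setIntegral_const, hvol z, smul_eq_mul, hκ, mul_comm]
    rw [← h2]
    apply setIntegral_mono_on
    · exact integrableOn_const measure_ball_lt_top.ne
    · exact hi.integrableOn
    · exact measurableSet_ball
    · intro z' hz'
      exact Real.rpow_le_rpow (by positivity) (hball z hz2 z' hz') (by linarith)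
  have h2 : ∫ z' in Metric.ball z ρ, |u z'| ^ q ≤ ∫ z' in {z : ℝ × Ed d | (N : ℝ) ≤ ‖z‖}, |u z'| ^ q := by
    apply setIntegral_mono_set hi.integrableOn
    · exact Eventually.of_forall (fun z => Real.rpow_nonneg (abs_nonneg _) _)
    · exact hsub.eventuallyLE
  linarith

end LARGE_

open LARGE_ in
theorem p_LARGE : T_LARGE := by
  intro d u w r q L hu hw hu0 hmax hL hq hi hw0 hr hJ
  obtain ⟨R, hR⟩ := vanish u q L hu hL hq hi (u 0 / 2) (by linarith)
  -- the ball
  have hn1 : ∀ᶠ z in 𝓝 (0 : ℝ × Ed d), w 0 / 2 < w z :=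
    hw.continuousAt.eventually (lt_mem_nhds (by linarith))
  have hn2 : ∀ᶠ z in 𝓝 (0 : ℝ × Ed d), 0 < u z :=
    hu.continuousAt.eventually (lt_mem_nhds hu0)
  obtain ⟨δ, hδ, hball⟩ := Metric.eventually_nhds_iff_ball.1 (hn1.and hn2)
  -- sup outside the ball
  obtain ⟨η, hη0, hη1, hη⟩ : ∃ η : ℝ, 0 < η ∧ η < u 0 ∧ ∀ z, z ∉ Metric.ball (0 : ℝ × Ed d) δ → |u z| ≤ η := by
    have hK : IsCompact (Metric.closedBall (0 : ℝ × Ed d) R ∩ (Metric.ball (0 : ℝ × Ed d) δ)ᶜ) :=
      (isCompact_closedBall _ _).inter_right Metric.isOpen_ball.isClosed_compl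
    by_cases hne : (Metric.closedBall (0 : ℝ × Ed d) R ∩ (Metric.ball (0 : ℝ × Ed d) δ)ᶜ).Nonempty
    · obtain ⟨z0, hz0, hz0m⟩ := hK.exists_isMaxOn hne (f := fun z => |u z|) (by fun_prop)
      have hz00 : z0 ≠ 0 := by
        intro h
        apply hz0.2
        rw [h]
        exact Metric.mem_ball_self hδ
      refine ⟨max (u 0 / 2) |u z0|, by positivity, max_lt (by linarith) (hmax z0 hz00), ?_⟩
      intro z hz
      by_cases hzR : R ≤ ‖z‖
      · exact (hR z hzR).le.trans (le_max_left _ _)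
      · push Not at hzR
        refine le_trans ?_ (le_max_right _ _)
        exact hz0m ⟨by simpa using hzR.le, hz⟩
    · refine ⟨u 0 / 2, by positivity, by linarith, ?_⟩
      intro z hz
      by_cases hzR : R ≤ ‖z‖
      · exact (hR z hzR).le
      · push Not at hzR
        exact absurd ⟨z, by simpa using hzR.le, hz⟩ hne
  have hle : ∀ z, |u z| ≤ u 0 := by
    intro z
    by_cases hz : z = 0
    · rw [hz, abs_of_pos hu0]
    · exact (hmax z hz).le
  set η' : ℝ := (η + u 0) / 2 with hη'
  have h1 : η < η' := by rw [hη']; linarith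
  have h2 : η' < u 0 := by rw [hη']; linarith
  have hη'0 : 0 < η' := hη0.trans h1
  set V : Set (ℝ × Ed d) := Metric.ball (0 : ℝ × Ed d) δ ∩ {z | η' < u z} with hV
  have hVo : IsOpen V := Metric.isOpen_ball.inter (isOpen_lt continuous_const hu)
  have hV0 : (0 : ℝ × Ed d) ∈ V := ⟨Metric.mem_ball_self hδ, h2⟩
  have hVfin : volume V < ∞ := lt_of_le_of_lt (measure_mono inter_subset_left) measure_ball_lt_top
  set v : ℝ := volume.real V with hv
  have hv0 : 0 < v := by
    rw [hv]
    exact ENNReal.toReal_pos (hVo.measure_pos volume ⟨0, hV0⟩).ne' hVfin.ne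
  set J : ℝ := ∫ z, |u z| ^ (r - 1) * |w z| with hJd
  have hJ0 : 0 ≤ J := by
    apply integral_nonneg
    intro z
    positivity
  -- the choice of p₀
  have hlim : Tendsto (fun p : ℝ => (η' / η) ^ p) atTop atTop :=
    tendsto_rpow_atTop_of_base_gt_one _ (by rw [lt_div_iff₀ hη0]; linarith)
  set c : ℝ := w 0 / 2 * v * η'⁻¹ * η ^ r with hc
  have hc0 : 0 < c := by positivity
  obtain ⟨p₁, hp₁⟩ := eventually_atTop.1 (hlim.eventually_gt_atTop (J / c))
  refine ⟨max p₁ (r + 1), lt_of_lt_of_le (by linarith) (le_max_right _ _), ?_⟩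
  intro p hp
  have hp1 : p₁ ≤ p := (le_max_left _ _).trans hp
  have hpr : r + 1 ≤ p := (le_max_right _ _).trans hp
  have hkey : η ^ (p - r) * J < w 0 / 2 * η' ^ (p - 1) * v := by
    have h3 := hp₁ p hp1
    rw [div_lt_iff₀ hc0] at h3
    have h4 : η ^ (p - r) * J < η ^ (p - r) * ((η' / η) ^ p * c) :=
      mul_lt_mul_of_pos_left h3 (by positivity)
    have h5 : η ^ (p - r) * ((η' / η) ^ p * c) = w 0 / 2 * η' ^ (p - 1) * v := by
      rw [hc, Real.div_rpow hη'0.le hη0.le, Real.rpow_sub hη0, Real.rpow_sub hη'0, Real.rpow_one]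
      have := (Real.rpow_pos_of_pos hη0 p).ne'
      have := (Real.rpow_pos_of_pos hη0 r).ne'
      field_simp
    rw [← h5]
    exact h4
  -- pointwise
  have habs : ∀ z, |(|u z| ^ (p - 2) * u z * w z)| = |u z| ^ (p - 1) * |w z| := by
    intro z
    rw [abs_mul, abs_mul, abs_of_nonneg (Real.rpow_nonneg (abs_nonneg (u z)) _)]
    congr 1
    by_cases hz : u z = 0
    · rw [hz]
      simp only [abs_zero, mul_zero]
      rw [Real.zero_rpow (by linarith)]
    · have : 0 < |u z| := abs_pos.2 hz
      nth_rewrite 2 [← Real.rpow_one |u z|]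
      rw [← Real.rpow_add this]
      congr 1
      ring
  have hpow : ∀ z, ∀ t : ℝ, 0 < t → |u z| ≤ t → |u z| ^ (p - 1) ≤ t ^ (p - r) * |u z| ^ (r - 1) := by
    intro z t ht hz
    by_cases hz0 : u z = 0
    · rw [hz0]
      simp only [abs_zero]
      rw [Real.zero_rpow (by linarith), Real.zero_rpow (by linarith)]
      simp
    · have : 0 < |u z| := abs_pos.2 hz0
      calc |u z| ^ (p - 1) = |u z| ^ (p - r) * |u z| ^ (r - 1) := by
            rw [← Real.rpow_add this]; congr 1; ring
        _ ≤ t ^ (p - r) * |u z| ^ (r - 1) := by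
            apply mul_le_mul_of_nonneg_right _ (by positivity)
            exact Real.rpow_le_rpow this.le hz (by linarith)
  have hInt : Integrable (fun z => |u z| ^ (p - 2) * u z * w z) := by
    refine Integrable.mono' (hJ.const_mul ((u 0) ^ (p - r))) ?_ ?_
    · apply Measurable.aestronglyMeasurable
      have := hu.measurable
      have := hw.measurable
      have h6 : Measurable (fun z => |u z|) := (continuous_abs.comp hu).measurable
      exact ((h6.pow_const _).mul hu.measurable).mul hw.measurable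
    · apply Eventually.of_forall
      intro z
      rw [Real.norm_eq_abs, habs z, ← mul_assoc]
      exact mul_le_mul_of_nonneg_right (hpow z (u 0) hu0 (hle z)) (abs_nonneg _)
  have hInd : Integrable (V.indicator (fun _ : ℝ × Ed d => w 0 / 2 * η' ^ (p - 1))) := by
    rw [integrable_indicator_iff hVo.measurableSet]
    exact integrableOn_const hVfin.ne
  have hRHS : Integrable (fun z => V.indicator (fun _ : ℝ × Ed d => w 0 / 2 * η' ^ (p - 1)) z -
      η ^ (p - r) * (|u z| ^ (r - 1) * |w z|)) := hInd.sub (hJ.const_mul _)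
  have hmono : ∫ z, (V.indicator (fun _ : ℝ × Ed d => w 0 / 2 * η' ^ (p - 1)) z -
      η ^ (p - r) * (|u z| ^ (r - 1) * |w z|)) ≤ ∫ z, |u z| ^ (p - 2) * u z * w z := by
    apply integral_mono hRHS hInt
    intro z
    show V.indicator (fun _ : ℝ × Ed d => w 0 / 2 * η' ^ (p - 1)) z -
      η ^ (p - r) * (|u z| ^ (r - 1) * |w z|) ≤ |u z| ^ (p - 2) * u z * w z
    have hneg : 0 ≤ η ^ (p - r) * (|u z| ^ (r - 1) * |w z|) := by positivity
    by_cases hzb : z ∈ Metric.ball (0 : ℝ × Ed d) δ
    · obtain ⟨ha, hb⟩ := hball z hzb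
      have hwz : 0 < w z := by linarith
      by_cases hzV : z ∈ V
      · rw [indicator_of_mem hzV]
        have hz' : η' < u z := hzV.2
        have h7 : w 0 / 2 * η' ^ (p - 1) ≤ |u z| ^ (p - 2) * u z * w z := by
          have h8 : |u z| ^ (p - 2) * u z * w z = |u z| ^ (p - 1) * |w z| := by
            have hpos : 0 < |u z| ^ (p - 2) * u z * w z := by positivity
            rw [← habs z]
            exact (abs_of_pos hpos).symm
          rw [h8, mul_comm, abs_of_pos hb, abs_of_pos hwz]
          exact mul_le_mul (Real.rpow_le_rpow hη'0.le hz'.le (by linarith)) ha.le (by positivity)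
            (by positivity)
        linarith
      · rw [indicator_of_notMem hzV]
        have : 0 ≤ |u z| ^ (p - 2) * u z * w z := by positivity
        linarith
    · have hzV : z ∉ V := fun h => hzb h.1
      rw [indicator_of_notMem hzV]
      have h9 := neg_abs_le (|u z| ^ (p - 2) * u z * w z)
      rw [habs z] at h9
      have h10 : |u z| ^ (p - 1) * |w z| ≤ η ^ (p - r) * (|u z| ^ (r - 1) * |w z|) := by
        rw [← mul_assoc]
        exact mul_le_mul_of_nonneg_right (hpow z η hη0 (hη z hzb)) (abs_nonneg _)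
      linarith
  have hval : ∫ z, (V.indicator (fun _ : ℝ × Ed d => w 0 / 2 * η' ^ (p - 1)) z -
      η ^ (p - r) * (|u z| ^ (r - 1) * |w z|)) = w 0 / 2 * η' ^ (p - 1) * v - η ^ (p - r) * J := by
    rw [integral_sub hInd (hJ.const_mul _), integral_const_mul, integral_indicator hVo.measurableSet,
      setIntegral_const, smul_eq_mul]
    ring
  rw [hval] at hmono
  linarith

end Pool.Agent.SymM
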