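import Pool.Agent.SymM.Targets

set_option autoImplicit false

open MeasureTheory Set Filter
open scoped ENNReal RealInnerProductSpace Topology ComplexConjugate

namespace Pool.Agent.SymM

open Pool.Agent.ExpMax

namespace LRHO_

/-- exponential decay beats powers -/
lemma exp_le (k : ℝ) (hk : 0 < k) (N : ℕ) (s : ℝ) (hs : 0 ≤ s) :
    Real.exp (-(k * s)) ≤ (Real.exp k * N.factorial / k ^ N) * ((1 + s) ^ N)⁻¹ := by
  have h1 : (k * (1 + s)) ^ N / N.factorial ≤ Real.exp (k * (1 + s)) :=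
    Real.pow_div_factorial_le_exp _ (by positivity) N
  rw [div_le_iff₀ (by positivity)] at h1
  have h2 : Real.exp (k * (1 + s)) = Real.exp k * Real.exp (k * s) := by
    rw [← Real.exp_add]; ring_nf
  rw [Real.exp_neg, ← div_eq_mul_inv, le_div_iff₀ (by positivity),
    inv_mul_le_iff₀ (Real.exp_pos _), mul_div_assoc', le_div_iff₀ (by positivity)]
  calc (1 + s) ^ N * k ^ N = (k * (1 + s)) ^ N := by rw [mul_pow]; ring
    _ ≤ Real.exp (k * (1 + s)) * N.factorial := h1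
    _ = Real.exp (k * s) * (Real.exp k * N.factorial) := by rw [h2]; ring

lemma fin_norm {E : Type} [NormedAddCommGroup E] [NormedSpace ℝ E] [FiniteDimensional ℝ E]
    [MeasurableSpace E] [BorelSpace E] (μ : Measure E) [μ.IsAddHaarMeasure] (k : ℝ) (hk : 0 < k) :
    ∫⁻ y, ENNReal.ofReal (Real.exp (-(k * ‖y‖))) ∂μ < ∞ := by
  set N := Module.finrank ℝ E + 1 with hN
  have h1 : Integrable (fun y : E => (1 + ‖y‖) ^ (-(N : ℝ))) μ :=
    integrable_one_add_norm (by rw [hN]; push_cast; linarith)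
  have h2 := (h1.const_mul (Real.exp k * N.factorial / k ^ N)).lintegral_lt_top
  refine lt_of_le_of_lt (lintegral_mono fun y => ENNReal.ofReal_le_ofReal ?_) h2
  refine (exp_le k hk N ‖y‖ (norm_nonneg _)).trans (le_of_eq ?_)
  rw [Real.rpow_neg (by positivity), Real.rpow_natCast]

lemma fin_sqrt (k : ℝ) (hk : 0 < k) :
    ∫⁻ h : ℝ, ENNReal.ofReal (Real.exp (-(k * √|h|))) < ∞ := by
  have h1 : Integrable (fun y : ℝ => (1 + ‖y‖) ^ (-(2 : ℝ))) volume :=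
    integrable_one_add_norm (by simp)
  have h2 := (h1.const_mul (Real.exp k * (4 : ℕ).factorial / k ^ 4)).lintegral_lt_top
  refine lt_of_le_of_lt (lintegral_mono fun y => ENNReal.ofReal_le_ofReal ?_) h2
  refine (exp_le k hk 4 _ (Real.sqrt_nonneg _)).trans ?_
  refine mul_le_mul_of_nonneg_left ?_ (by positivity)
  rw [Real.rpow_neg (by positivity), Real.norm_eq_abs]
  refine inv_anti₀ (by positivity) ?_
  have h3 : √|y| ^ 2 = |y| := Real.sq_sqrt (abs_nonneg _)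
  have h4 : (1 + |y|) ^ (2 : ℝ) = (1 + |y|) ^ 2 := by
    rw [← Real.rpow_natCast]; norm_num
  rw [h4]
  have h5 : 1 + |y| ≤ (1 + √|y|) ^ 2 := by nlinarith [Real.sqrt_nonneg |y|]
  calc (1 + |y|) ^ 2 ≤ ((1 + √|y|) ^ 2) ^ 2 := pow_le_pow_left₀ (by positivity) h5 2
    _ = (1 + √|y|) ^ 4 := by ring

lemma lintegral_smul {E : Type} [NormedAddCommGroup E] [NormedSpace ℝ E] [FiniteDimensional ℝ E]
    [MeasurableSpace E] [BorelSpace E] (μ : Measure E) [μ.IsAddHaarMeasure] (r : ℝ) (hr : r ≠ 0)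
    (f : E → ℝ≥0∞) (hf : Measurable f) :
    ∫⁻ y, f (r • y) ∂μ = ENNReal.ofReal |(r ^ Module.finrank ℝ E)⁻¹| * ∫⁻ y, f y ∂μ := by
  rw [← lintegral_map hf (measurable_const_smul r), Measure.map_addHaar_smul μ hr,
    lintegral_smul_measure, smul_eq_mul]

/-- splitting off the first coordinate -/
lemma split (n : ℕ) : MeasurePreserving (fun ξ : Ed (n + 1) => (ξ 0, tl ξ))
    (volume : Measure (Ed (n + 1))) (volume : Measure (ℝ × Ed n)) := by
  have h1 : MeasurePreserving (@WithLp.ofLp 2 (Fin (n + 1) → ℝ)) volume volume :=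
    PiLp.volume_preserving_ofLp (Fin (n + 1))
  have h2 := volume_preserving_piFinSuccAbove (fun _ : Fin (n + 1) => ℝ) 0
  have h3 : MeasurePreserving (Prod.map (id : ℝ → ℝ) (@WithLp.toLp 2 (Fin n → ℝ))) :=
    (MeasurePreserving.id (volume : Measure ℝ)).prod (PiLp.volume_preserving_toLp (Fin n))
  exact h3.comp (h2.comp h1)

/-- the width -/
noncomputable def zz (c w : ℝ) : ℝ := √(c ^ 2 + w ^ 2)

lemma zz_pos (c w : ℝ) (hc : 0 < c) : 0 < zz c w := Real.sqrt_pos.2 (by positivity)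

lemma zz_meas (c : ℝ) : Measurable (zz c) := by unfold zz; fun_prop

/-- the outer integral -/
lemma fin_outer (c s : ℝ) (hc : 0 < c) (hs : 1 < s) :
    ∫⁻ w : ℝ, ENNReal.ofReal (zz c w ^ (-s)) < ∞ := by
  have h1 : Integrable (fun y : ℝ => (1 + ‖y‖) ^ (-s)) volume :=
    integrable_one_add_norm (by simpa using hs)
  set b : ℝ := min c 1 / 2 with hb
  have hb0 : 0 < b := by rw [hb]; positivity
  have h2 := (h1.const_mul (b ^ (-s))).lintegral_lt_top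
  refine lt_of_le_of_lt (lintegral_mono fun w => ENNReal.ofReal_le_ofReal ?_) h2
  rw [← Real.mul_rpow hb0.le (by positivity)]
  refine Real.rpow_le_rpow_of_nonpos (by positivity) ?_ (by linarith)
  rw [zz, Real.norm_eq_abs]
  apply Real.le_sqrt_of_sq_le
  have h3 : b ≤ c / 2 := by rw [hb]; linarith [min_le_left c 1]
  have h4 : b ≤ 1 / 2 := by rw [hb]; linarith [min_le_right c 1]
  have h5 : b * (1 + |w|) ≤ c / 2 + |w| / 2 := by nlinarith [abs_nonneg w]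
  have h6 : 0 ≤ b * (1 + |w|) := by positivity
  have h7 : (b * (1 + |w|)) ^ 2 ≤ (c / 2 + |w| / 2) ^ 2 := pow_le_pow_left₀ h6 h5 2
  have h8 : |w| ^ 2 = w ^ 2 := sq_abs w
  nlinarith [sq_nonneg (c - |w|)]

/-- the dominating function -/
noncomputable def GG (n : ℕ) (c k k' a : ℝ) (w x : ℝ) (y : Ed n) : ℝ≥0∞ :=
  ENNReal.ofReal (zz c w ^ (-a)) *
    (ENNReal.ofReal (Real.exp (-(k' * ‖(zz c w)⁻¹ • y‖))) *
      ENNReal.ofReal (Real.exp (-(k * √|(2 / zz c w) • x + (w - w * ‖y‖ ^ 2 / zz c w ^ 2) /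
        zz c w|))))

lemma GG_meas (n : ℕ) (c k k' a : ℝ) :
    Measurable fun p : ℝ × (ℝ × Ed n) => GG n c k k' a p.1 p.2.1 p.2.2 := by
  have := zz_meas c
  unfold GG
  fun_prop

lemma GG_inner (n : ℕ) (c k k' a : ℝ) (hc : 0 < c) (w : ℝ) :
    ∫⁻ p : ℝ × Ed n, GG n c k k' a w p.1 p.2 =
      ENNReal.ofReal (zz c w ^ (-a)) * (ENNReal.ofReal (zz c w ^ n) *
        (∫⁻ y : Ed n, ENNReal.ofReal (Real.exp (-(k' * ‖y‖)))) *
        (ENNReal.ofReal (zz c w / 2) * ∫⁻ h : ℝ, ENNReal.ofReal (Real.exp (-(k * √|h|))))) := by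
  have hz := zz_pos c w hc
  have hx : ∀ y : Ed n, ∫⁻ x : ℝ, ENNReal.ofReal (Real.exp (-(k * √|(2 / zz c w) • x +
      (w - w * ‖y‖ ^ 2 / zz c w ^ 2) / zz c w|))) =
      ENNReal.ofReal (zz c w / 2) * ∫⁻ h : ℝ, ENNReal.ofReal (Real.exp (-(k * √|h|))) := by
    intro y
    set b := (w - w * ‖y‖ ^ 2 / zz c w ^ 2) / zz c w with hb
    have h1 := lintegral_smul (volume : Measure ℝ) (2 / zz c w) (by positivity)
      (fun h : ℝ => ENNReal.ofReal (Real.exp (-(k * √|h|)))) (by fun_prop)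
    have h2 := lintegral_add_right_eq_self (μ := (volume : Measure ℝ))
      (fun x : ℝ => ENNReal.ofReal (Real.exp (-(k * √|(2 / zz c w) • x|)))) (b * (zz c w / 2))
    rw [h1] at h2
    have h3 : ∀ x : ℝ, (2 / zz c w) • (x + b * (zz c w / 2)) = (2 / zz c w) • x + b := by
      intro x; simp only [smul_eq_mul]; field_simp
    simp only [h3] at h2
    rw [h2]
    congr 2
    rw [Module.finrank_self, pow_one, inv_div, abs_of_pos (by positivity)]
  have hy : ∫⁻ y : Ed n, ENNReal.ofReal (Real.exp (-(k' * ‖(zz c w)⁻¹ • y‖))) =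
      ENNReal.ofReal (zz c w ^ n) * ∫⁻ y : Ed n, ENNReal.ofReal (Real.exp (-(k' * ‖y‖))) := by
    have h1 := lintegral_smul (volume : Measure (Ed n)) (zz c w)⁻¹ (by positivity)
      (fun y : Ed n => ENNReal.ofReal (Real.exp (-(k' * ‖y‖)))) (by fun_prop)
    rw [h1]
    congr 2
    rw [finrank_euclideanSpace_fin, inv_pow, inv_inv, abs_of_pos (by positivity)]
  have hm := GG_meas n c k k' a
  have e1 : ∫⁻ p : ℝ × Ed n, GG n c k k' a w p.1 p.2 =
      ∫⁻ y : Ed n, ∫⁻ x : ℝ, GG n c k k' a w x y := by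
    rw [Measure.volume_eq_prod, lintegral_prod_symm _ (by
      exact (hm.comp (by fun_prop : Measurable fun p : ℝ × Ed n => (w, p))).aemeasurable)]
  rw [e1]
  unfold GG
  have e2 : ∀ y : Ed n, ∫⁻ x : ℝ, ENNReal.ofReal (zz c w ^ (-a)) *
      (ENNReal.ofReal (Real.exp (-(k' * ‖(zz c w)⁻¹ • y‖))) *
      ENNReal.ofReal (Real.exp (-(k * √|(2 / zz c w) • x + (w - w * ‖y‖ ^ 2 / zz c w ^ 2) /
        zz c w|)))) = ENNReal.ofReal (zz c w ^ (-a)) *
      (ENNReal.ofReal (Real.exp (-(k' * ‖(zz c w)⁻¹ • y‖))) *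
      (ENNReal.ofReal (zz c w / 2) * ∫⁻ h : ℝ, ENNReal.ofReal (Real.exp (-(k * √|h|))))) := by
    intro y
    rw [lintegral_const_mul _ (by fun_prop), lintegral_const_mul _ (by fun_prop), hx]
  simp only [e2]
  rw [lintegral_const_mul _ (by fun_prop), lintegral_mul_const _ (by fun_prop), hy]

lemma GG_fin (n : ℕ) (c k k' a : ℝ) (hc : 0 < c) (hk : 0 < k) (hk' : 0 < k')
    (ha : (n : ℝ) + 2 < a) :
    ∫⁻ w : ℝ, ∫⁻ p : ℝ × Ed n, GG n c k k' a w p.1 p.2 < ∞ := by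
  simp only [GG_inner n c k k' a hc]
  set C1 := ∫⁻ y : Ed n, ENNReal.ofReal (Real.exp (-(k' * ‖y‖))) with hC1
  set C2 := ∫⁻ h : ℝ, ENNReal.ofReal (Real.exp (-(k * √|h|))) with hC2
  have h1 : C1 < ∞ := fin_norm volume k' hk'
  have h2 : C2 < ∞ := fin_sqrt k hk
  have h3 : ∀ w : ℝ, ENNReal.ofReal (zz c w ^ (-a)) * (ENNReal.ofReal (zz c w ^ n) * C1 *
      (ENNReal.ofReal (zz c w / 2) * C2)) =
      (C1 * C2 * ENNReal.ofReal (1 / 2)) * ENNReal.ofReal (zz c w ^ (-(a - n - 1))) := by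
    intro w
    have hz := zz_pos c w hc
    have e1 : zz c w ^ (-(a - n - 1)) = zz c w ^ (-a) * zz c w ^ n * zz c w := by
      rw [← Real.rpow_natCast (zz c w) n, ← Real.rpow_add hz]
      nth_rewrite 3 [← Real.rpow_one (zz c w)]
      rw [← Real.rpow_add hz]
      congr 1; ring
    rw [e1, ENNReal.ofReal_mul (by positivity), ENNReal.ofReal_mul (by positivity)]
    have e2 : ENNReal.ofReal (zz c w / 2) = ENNReal.ofReal (zz c w) * ENNReal.ofReal (1 / 2) := by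
      rw [← ENNReal.ofReal_mul hz.le]; congr 1; ring
    rw [e2]
    ring
  simp only [h3]
  rw [lintegral_const_mul _ (by have := zz_meas c; fun_prop)]
  exact ENNReal.mul_lt_top (ENNReal.mul_lt_top (ENNReal.mul_lt_top h1 h2) ENNReal.ofReal_lt_top)
    (fin_outer c _ hc (by linarith))

/-- the change of variables -/
lemma change_vars (n : ℕ) (f : ℝ × (ℝ × Ed n) → ℝ≥0∞) (hf : Measurable f) :
    ∫⁻ z : ℝ × Ed (n + 1), f (z.1 - z.2 0, (z.2 0, tl z.2)) =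
      ∫⁻ w : ℝ, ∫⁻ p : ℝ × Ed n, f (w, p) := by
  have hmp := split n
  have hm0 : Measurable fun ξ : Ed (n + 1) => ξ 0 := by fun_prop
  have hm1 : Measurable fun z : ℝ × Ed (n + 1) => (z.1 - z.2 0, (z.2 0, tl z.2)) :=
    (measurable_fst.sub (hm0.comp measurable_snd)).prodMk (hmp.measurable.comp measurable_snd)
  calc ∫⁻ z : ℝ × Ed (n + 1), f (z.1 - z.2 0, (z.2 0, tl z.2))
      = ∫⁻ ξ : Ed (n + 1), ∫⁻ t : ℝ, f (t - ξ 0, (ξ 0, tl ξ)) := by
        rw [Measure.volume_eq_prod]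
        exact lintegral_prod_symm _ (hf.comp hm1).aemeasurable
    _ = ∫⁻ ξ : Ed (n + 1), ∫⁻ w : ℝ, f (w, (ξ 0, tl ξ)) := by
        refine lintegral_congr fun ξ => ?_
        exact lintegral_sub_right_eq_self (fun w => f (w, (ξ 0, tl ξ))) (ξ 0)
    _ = ∫⁻ p : ℝ × Ed n, ∫⁻ w : ℝ, f (w, p) :=
        hmp.lintegral_comp (f := fun p : ℝ × Ed n => ∫⁻ w : ℝ, f (w, p))
          (Measurable.lintegral_prod_left' (f := f) hf)
    _ = ∫⁻ w : ℝ, ∫⁻ p : ℝ × Ed n, f (w, p) := by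
        rw [lintegral_lintegral_swap]
        exact (hf.comp measurable_swap).aemeasurable

end LRHO_

open LRHO_ in
theorem p_LRHO (h : T_SQ) : T_LRHO := by
  intro n c m ρ hc hm hρ
  have hρ0 : 0 < ρ := lt_trans (by positivity) hρ
  have hn1 : (0 : ℝ) < (n : ℝ) + 1 := by positivity
  set k : ℝ := m * ρ * c / 8 with hk
  have hk0 : 0 < k := by rw [hk]; positivity
  set kk : ℝ := k / √2 with hkk
  have hkk0 : 0 < kk := by rw [hkk]; positivity
  set k' : ℝ := m * ρ * c / 4 with hk'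
  have hk'0 : 0 < k' := by rw [hk']; positivity
  set a : ℝ := ((n : ℝ) + 1) / 2 * ρ with ha
  have ha1 : (n : ℝ) + 2 < a := by
    rw [ha]
    have : ((n : ℝ) + 1) / 2 * (2 + 2 / ((n : ℝ) + 1)) < ((n : ℝ) + 1) / 2 * ρ :=
      mul_lt_mul_of_pos_left hρ (by positivity)
    have e : ((n : ℝ) + 1) / 2 * (2 + 2 / ((n : ℝ) + 1)) = (n : ℝ) + 2 := by field_simp; ring
    linarith
  have hmeas : Measurable fun z : ℝ × Ed (n + 1) =>
      ((√(c ^ 2 + (z.1 - z.2 0) ^ 2)) ^ (-(((n : ℝ) + 1) / 2)) *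
        Real.exp (-(m * ((((c : ℂ) + Complex.I * z.1) ^ 2 + ((‖z.2‖ ^ 2 : ℝ) : ℂ)) ^
          (1 / 2 : ℂ)).re))) ^ ρ := by
    fun_prop
  refine ⟨hmeas.aestronglyMeasurable, ?_⟩
  have hpt : ∀ z : ℝ × Ed (n + 1), ‖((√(c ^ 2 + (z.1 - z.2 0) ^ 2)) ^ (-(((n : ℝ) + 1) / 2)) *
        Real.exp (-(m * ((((c : ℂ) + Complex.I * z.1) ^ 2 + ((‖z.2‖ ^ 2 : ℝ) : ℂ)) ^
          (1 / 2 : ℂ)).re))) ^ ρ‖ₑ ≤ GG n c kk k' a (z.1 - z.2 0) (z.2 0) (tl z.2) := by
    rintro ⟨t, ξ⟩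
    simp only
    set w := t - ξ 0 with hw
    set z := zz c w with hz
    have hzp : 0 < z := zz_pos c w hc
    have hnorm : ‖ξ‖ ^ 2 = (ξ 0) ^ 2 + ‖tl ξ‖ ^ 2 := by
      rw [EuclideanSpace.norm_sq_eq, EuclideanSpace.norm_sq_eq, Fin.sum_univ_succ]
      simp [tl, sq_abs]
    have hsq := h c t (ξ 0) ‖tl ξ‖ z ((t + ξ 0) - (t - ξ 0) * ‖tl ξ‖ ^ 2 / z ^ 2) hc
      (norm_nonneg _) rfl rfl
    rw [← hnorm] at hsq
    rw [Real.enorm_eq_ofReal (by positivity)]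
    unfold GG
    rw [← ENNReal.ofReal_mul (by positivity), ← ENNReal.ofReal_mul (by positivity)]
    refine ENNReal.ofReal_le_ofReal ?_
    rw [Real.mul_rpow (by positivity) (by positivity), ← Real.rpow_mul (Real.sqrt_nonneg _),
      ← Real.exp_mul, ← Real.exp_add]
    have e0 : √(c ^ 2 + w ^ 2) = z := rfl
    have e1 : -(((n : ℝ) + 1) / 2) * ρ = -a := by rw [ha]; ring
    rw [e0, e1, ← hz]
    refine mul_le_mul_of_nonneg_left (Real.exp_le_exp.2 ?_) (by positivity)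
    have e2 : ‖z⁻¹ • tl ξ‖ = ‖tl ξ‖ / z := by
      rw [norm_smul, norm_inv, Real.norm_eq_abs, abs_of_pos hzp]; field_simp
    have e3 : |(2 / z) • ξ 0 + (w - w * ‖tl ξ‖ ^ 2 / z ^ 2) / z| =
        |(t + ξ 0) - (t - ξ 0) * ‖tl ξ‖ ^ 2 / z ^ 2| / z := by
      have : (2 / z) • ξ 0 + (w - w * ‖tl ξ‖ ^ 2 / z ^ 2) / z =
          ((t + ξ 0) - (t - ξ 0) * ‖tl ξ‖ ^ 2 / z ^ 2) / z := by
        rw [hw, smul_eq_mul]; field_simp; ring
      rw [this, abs_div, abs_of_pos hzp]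
    rw [e2, e3]
    set BB := |(t + ξ 0) - (t - ξ 0) * ‖tl ξ‖ ^ 2 / z ^ 2| with hBB
    have e4 : √(BB / (2 * z)) = √(BB / z) / √2 := by
      rw [← Real.sqrt_div (by positivity)]; congr 1; field_simp
    rw [e4] at hsq
    have e5 : kk * √(BB / z) = m * ρ / 8 * (c * (√(BB / z) / √2)) := by
      rw [hkk, hk]; ring
    have e6 : k' * (‖tl ξ‖ / z) = m * ρ / 8 * (2 * c * ‖tl ξ‖ / z) := by
      rw [hk']; ring
    have e7 := mul_le_mul_of_nonneg_left hsq (by positivity : 0 ≤ m * ρ)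
    rw [e5, e6]
    linarith
  have hGm := GG_meas n c kk k' a
  calc ∫⁻ z : ℝ × Ed (n + 1), ‖((√(c ^ 2 + (z.1 - z.2 0) ^ 2)) ^ (-(((n : ℝ) + 1) / 2)) *
        Real.exp (-(m * ((((c : ℂ) + Complex.I * z.1) ^ 2 + ((‖z.2‖ ^ 2 : ℝ) : ℂ)) ^
          (1 / 2 : ℂ)).re))) ^ ρ‖ₑ
      ≤ ∫⁻ z : ℝ × Ed (n + 1), GG n c kk k' a (z.1 - z.2 0) (z.2 0) (tl z.2) :=
        lintegral_mono hpt
    _ = ∫⁻ w : ℝ, ∫⁻ p : ℝ × Ed n, GG n c kk k' a w p.1 p.2 :=
        change_vars n (fun q => GG n c kk k' a q.1 q.2.1 q.2.2) hGm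
    _ < ∞ := GG_fin n c kk k' a hc hkk0 hk'0 ha1

end Pool.Agent.SymM
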