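import Pool.Agent.SymM.Targets

set_option autoImplicit false
set_option maxHeartbeats 4000000

noncomputable section

open MeasureTheory Set Filter
open scoped ENNReal RealInnerProductSpace Topology ComplexConjugate

namespace Pool.Agent.SymM

namespace MEL_

/-- The signed weight. -/
def sw {Y : Type} (u w : Y → ℝ) (y : Y) : ℝ := if 0 < u y then w y else -w y

/-- The integrand of the Mellin transform. -/
def FF {Y : Type} (u w : Y → ℝ) (z : ℂ) (y : Y) : ℂ :=
  if u y = 0 then 0 else (sw u w y : ℂ) * Complex.exp ((z - 1) * (Real.log |u y| : ℝ))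

/-- Its derivative. -/
def FD {Y : Type} (u w : Y → ℝ) (z : ℂ) (y : Y) : ℂ :=
  if u y = 0 then 0 else (sw u w y : ℂ) *
    (Complex.exp ((z - 1) * (Real.log |u y| : ℝ)) * (Real.log |u y| : ℝ))

variable {Y : Type} [MeasurableSpace Y]

theorem meas_sw {u w : Y → ℝ} (hu : Measurable u) (hw : Measurable w) : Measurable (sw u w) :=
  Measurable.ite (measurableSet_lt measurable_const hu) hw hw.neg

theorem meas_log {u : Y → ℝ} (hu : Measurable u) : Measurable fun y => Real.log |u y| :=
  Real.measurable_log.comp (continuous_abs.measurable.comp hu)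

theorem meas_FF {u w : Y → ℝ} (hu : Measurable u) (hw : Measurable w) (z : ℂ) :
    Measurable (FF u w z) := by
  refine Measurable.ite (measurableSet_eq_fun hu measurable_const) measurable_const ?_
  have h1 := meas_sw hu hw
  have h2 := meas_log hu
  fun_prop

theorem meas_FD {u w : Y → ℝ} (hu : Measurable u) (hw : Measurable w) (z : ℂ) :
    Measurable (FD u w z) := by
  refine Measurable.ite (measurableSet_eq_fun hu measurable_const) measurable_const ?_
  have h1 := meas_sw hu hw
  have h2 := meas_log hu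
  fun_prop

omit [MeasurableSpace Y] in
theorem norm_sw (u w : Y → ℝ) (y : Y) : ‖(sw u w y : ℂ)‖ = |w y| := by
  unfold sw
  rw [Complex.norm_real, Real.norm_eq_abs]
  split_ifs
  · rfl
  · rw [abs_neg]

omit [MeasurableSpace Y] in
theorem norm_exp_eq (u : Y → ℝ) (z : ℂ) (y : Y) (h : u y ≠ 0) :
    ‖Complex.exp ((z - 1) * (Real.log |u y| : ℝ))‖ = |u y| ^ (z.re - 1) := by
  rw [Complex.norm_exp]
  have : ((z - 1) * (Real.log |u y| : ℝ)).re = Real.log |u y| * (z.re - 1) := by
    simp [mul_comm]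
  rw [this, Real.rpow_def_of_pos (abs_pos.mpr h)]

omit [MeasurableSpace Y] in
/-- Bound for the integrand. -/
theorem bound_FF {u w : Y → ℝ} {A r : ℝ} (hA : ∀ y, |u y| ≤ A) (hA1 : 1 ≤ A) {z : ℂ}
    (hz : r < z.re) (y : Y) : ‖FF u w z y‖ ≤ A ^ (z.re - r) * (|u y| ^ (r - 1) * |w y|) := by
  unfold FF
  split_ifs with h
  · rw [norm_zero]
    exact mul_nonneg (Real.rpow_nonneg (by linarith) _)
      (mul_nonneg (Real.rpow_nonneg (abs_nonneg _) _) (abs_nonneg _))
  · rw [norm_mul, norm_sw, norm_exp_eq u z y h]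
    have hpos : 0 < |u y| := abs_pos.mpr h
    have e : |u y| ^ (z.re - 1) = |u y| ^ (z.re - r) * |u y| ^ (r - 1) := by
      rw [← Real.rpow_add hpos]; congr 1; ring
    rw [e]
    have h1 : |u y| ^ (z.re - r) ≤ A ^ (z.re - r) :=
      Real.rpow_le_rpow (abs_nonneg _) (hA y) (by linarith)
    have h2 : 0 ≤ |u y| ^ (r - 1) * |w y| :=
      mul_nonneg (Real.rpow_nonneg (abs_nonneg _) _) (abs_nonneg _)
    calc |w y| * (|u y| ^ (z.re - r) * |u y| ^ (r - 1))
        = |u y| ^ (z.re - r) * (|u y| ^ (r - 1) * |w y|) := by ring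
      _ ≤ _ := mul_le_mul_of_nonneg_right h1 h2

omit [MeasurableSpace Y] in
/-- Bound for the derivative. -/
theorem bound_FD {u w : Y → ℝ} {A r δ R : ℝ} (hA : ∀ y, |u y| ≤ A) (hA1 : 1 ≤ A) (hδ : 0 < δ)
    {z : ℂ} (hz : r + δ < z.re) (hzR : z.re < R) (y : Y) :
    ‖FD u w z y‖ ≤ (1 / δ + A ^ (R - r) * A) * (|u y| ^ (r - 1) * |w y|) := by
  have hA0 : 0 < A := by linarith
  have hC : 0 ≤ 1 / δ + A ^ (R - r) * A := by positivity
  unfold FD
  split_ifs with h
  · rw [norm_zero]
    exact mul_nonneg hC (mul_nonneg (Real.rpow_nonneg (abs_nonneg _) _) (abs_nonneg _))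
  · rw [norm_mul, norm_sw, norm_mul, norm_exp_eq u z y h, Complex.norm_real, Real.norm_eq_abs]
    have hpos : 0 < |u y| := abs_pos.mpr h
    have e : |u y| ^ (z.re - 1) = |u y| ^ (z.re - r) * |u y| ^ (r - 1) := by
      rw [← Real.rpow_add hpos]; congr 1; ring
    rw [e]
    have h2 : 0 ≤ |u y| ^ (r - 1) * |w y| :=
      mul_nonneg (Real.rpow_nonneg (abs_nonneg _) _) (abs_nonneg _)
    have h1 : |u y| ^ (z.re - r) * |Real.log (|u y|)| ≤ 1 / δ + A ^ (R - r) * A := by
      rcases le_or_gt |u y| 1 with hle | hgt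
      · have h3 := Real.abs_log_mul_self_rpow_lt |u y| (z.re - r) hpos hle (by linarith)
        rw [abs_mul, abs_of_nonneg (Real.rpow_nonneg hpos.le (z.re - r))] at h3
        have h4 : 1 / (z.re - r) ≤ 1 / δ :=
          one_div_le_one_div_of_le hδ (by linarith)
        have h5 : 0 ≤ A ^ (R - r) * A := by positivity
        calc |u y| ^ (z.re - r) * |Real.log (|u y|)| = |Real.log (|u y|)| * |u y| ^ (z.re - r) :=
              mul_comm _ _
          _ ≤ 1 / (z.re - r) := h3.le
          _ ≤ 1 / δ + A ^ (R - r) * A := by linarith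
      · have h3 : |Real.log (|u y|)| ≤ A := by
          rw [abs_of_nonneg (Real.log_nonneg hgt.le)]
          have := Real.log_le_sub_one_of_pos hpos
          have := hA y
          linarith
        have h4 : |u y| ^ (z.re - r) ≤ A ^ (R - r) := by
          calc |u y| ^ (z.re - r) ≤ A ^ (z.re - r) :=
                Real.rpow_le_rpow (abs_nonneg _) (hA y) (by linarith)
            _ ≤ A ^ (R - r) := Real.rpow_le_rpow_of_exponent_le hA1 (by linarith)
        have h5 : (0 : ℝ) ≤ 1 / δ := by positivity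
        calc |u y| ^ (z.re - r) * |Real.log (|u y|)| ≤ A ^ (R - r) * A :=
              mul_le_mul h4 h3 (abs_nonneg _) (by positivity)
          _ ≤ _ := by linarith
    calc |w y| * (|u y| ^ (z.re - r) * |u y| ^ (r - 1) * |Real.log (|u y|)|)
        = (|u y| ^ (z.re - r) * |Real.log (|u y|)|) * (|u y| ^ (r - 1) * |w y|) := by ring
      _ ≤ _ := mul_le_mul_of_nonneg_right h1 h2

omit [MeasurableSpace Y] in
theorem deriv_FF (u w : Y → ℝ) (z : ℂ) (y : Y) :
    HasDerivAt (fun z => FF u w z y) (FD u w z y) z := by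
  unfold FF FD
  split_ifs with h
  · exact hasDerivAt_const z (0 : ℂ)
  · have h1 : HasDerivAt (fun z : ℂ => (z - 1) * (Real.log |u y| : ℝ))
        (1 * ((Real.log |u y| : ℝ) : ℂ)) z := ((hasDerivAt_id z).sub_const 1).mul_const _
    have h2 := (h1.cexp).const_mul (sw u w y : ℂ)
    simpa using h2

omit [MeasurableSpace Y] in
theorem real_FF (u w : Y → ℝ) (p : ℝ) (y : Y) :
    FF u w (p : ℂ) y = ((|u y| ^ (p - 2) * u y * w y : ℝ) : ℂ) := by
  unfold FF
  split_ifs with h
  · simp [h]
  · have hpos : 0 < |u y| := abs_pos.mpr h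
    have h1 : Complex.exp (((p : ℂ) - 1) * (Real.log |u y| : ℝ)) = ((|u y| ^ (p - 1) : ℝ) : ℂ) := by
      rw [Real.rpow_def_of_pos hpos]
      push_cast
      rw [mul_comm]
    rw [h1, ← Complex.ofReal_mul]
    congr 1
    have e : |u y| ^ (p - 1) = |u y| ^ (p - 2) * |u y| := by
      conv_rhs => rw [← Real.rpow_one |u y|, ← Real.rpow_mul hpos.le]
      rw [one_mul, ← Real.rpow_add hpos]
      congr 1; ring
    rw [e]
    unfold sw
    split_ifs with h2
    · rw [abs_of_pos h2]; ring
    · have h3 : u y < 0 := lt_of_le_of_ne (not_lt.mp h2) h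
      rw [abs_of_neg h3]; ring

end MEL_

open MEL_

theorem p_MEL : T_MEL := by
  intro Y _ ν u w A r P q hu hw hA hr hint hP hrq hacc p hp
  -- enlarge `A`
  have hA' : ∀ y, |u y| ≤ max A 1 := fun y => (hA y).trans (le_max_left _ _)
  have hA1 : 1 ≤ max A 1 := le_max_right _ _
  set E : ℂ → ℂ := fun z => ∫ y, FF u w z y ∂ν with hE
  have hintF : ∀ z : ℂ, r < z.re → Integrable (FF u w z) ν := by
    intro z hz
    refine Integrable.mono' (hint.const_mul ((max A 1) ^ (z.re - r)))
      (meas_FF hu hw z).aestronglyMeasurable ?_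
    exact Eventually.of_forall fun y => bound_FF hA' hA1 hz y
  have hdiff : DifferentiableOn ℂ E {z : ℂ | r < z.re} := by
    intro z₀ hz₀
    have hz₀' : r < z₀.re := hz₀
    refine DifferentiableAt.differentiableWithinAt ?_
    set δ : ℝ := (z₀.re - r) / 2 with hδ
    have hδ0 : 0 < δ := by rw [hδ]; linarith
    have hs : {z : ℂ | r + δ < z.re ∧ z.re < z₀.re + 1} ∈ 𝓝 z₀ := by
      refine IsOpen.mem_nhds ?_ ⟨?_, ?_⟩
      · exact (isOpen_lt continuous_const Complex.continuous_re).inter
          (isOpen_lt Complex.continuous_re continuous_const)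
      · rw [hδ]; linarith
      · linarith
    have key := hasDerivAt_integral_of_dominated_loc_of_deriv_le (μ := ν) (F := FF u w)
      (F' := FD u w)
      (bound := fun y => (1 / δ + (max A 1) ^ (z₀.re + 1 - r) * (max A 1)) *
        (|u y| ^ (r - 1) * |w y|)) hs
      (Eventually.of_forall fun z => (meas_FF hu hw z).aestronglyMeasurable)
      (hintF z₀ hz₀') (meas_FD hu hw z₀).aestronglyMeasurable
      (Eventually.of_forall fun y z hz => bound_FD hA' hA1 hδ0 hz.1 hz.2 y)
      (hint.const_mul _)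
      (Eventually.of_forall fun y z _ => deriv_FF u w z y)
    exact key.2.differentiableAt
  have hopen : IsOpen {z : ℂ | r < z.re} := isOpen_lt continuous_const Complex.continuous_re
  have hana := hdiff.analyticOnNhd hopen
  have hpre : IsPreconnected {z : ℂ | r < z.re} := (convex_halfSpace_re_gt r).isPreconnected
  have hval : ∀ s : ℝ, E (s : ℂ) = ((∫ y, |u y| ^ (s - 2) * u y * w y ∂ν : ℝ) : ℂ) := by
    intro s
    rw [hE]
    simp only [real_FF]
    exact integral_ofReal
  have hfreq : ∃ᶠ z : ℂ in 𝓝[≠] (q : ℂ), E z = 0 := by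
    rw [accPt_iff_frequently_nhdsNE] at hacc
    have ht : Tendsto (fun s : ℝ => (s : ℂ)) (𝓝[≠] q) (𝓝[≠] (q : ℂ)) := by
      refine tendsto_nhdsWithin_of_tendsto_nhds_of_eventually_within _
        ((Complex.continuous_ofReal.tendsto q).mono_left nhdsWithin_le_nhds) ?_
      filter_upwards [self_mem_nhdsWithin] with s hs
      simpa using hs
    refine ht.frequently (hacc.mono fun s hs => ?_)
    rw [hval, hP s hs, Complex.ofReal_zero]
  have hzero := hana.eqOn_zero_of_preconnected_of_frequently_eq_zero hpre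
    (show (q : ℂ) ∈ {z : ℂ | r < z.re} by simpa using hrq) hfreq
  have h0 := hzero (show (p : ℂ) ∈ {z : ℂ | r < z.re} by simpa using hp)
  rw [hval] at h0
  simp only [Pi.zero_apply] at h0
  exact_mod_cast h0

end Pool.Agent.SymM
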