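import Pool.Agent.SymM.Targets

set_option autoImplicit false

/-!
# NRM: the norm of the extension of a real even function
-/

noncomputable section

open MeasureTheory Set Filter
open scoped ENNReal RealInnerProductSpace Topology ComplexConjugate

namespace Pool.Agent.SymM

open Pool.Agent.ExpMax

namespace NRM_

lemma continuous_conePt (α β γ : ℝ) (d : ℕ) :
    Continuous (fun x : ℝ × Metric.sphere (0 : Ed d) 1 => conePt α β γ x.1 x.2) := by
  unfold conePt planePt Q
  fun_prop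

lemma sqrt_sq0 (β : ℝ) : √((0 : ℝ) ^ 2 + β ^ 2) = |β| := by
  rw [zero_pow two_ne_zero, zero_add, Real.sqrt_sq_eq_abs]

lemma planePt0 (β γ : ℝ) (hβ : β ≠ 0) {d : ℕ} (s : ℝ) (ξ : Ed d) :
    planePt 0 β γ s ξ = (-(s * β / |β|), -(γ / β), ξ) := by
  unfold planePt
  rw [sqrt_sq0]
  refine Prod.ext ?_ (Prod.ext ?_ rfl)
  · simp
  · simp only [mul_zero, zero_div, add_zero]
    field_simp
    ring

lemma ae_rho (β γ : ℝ) (hβ : β ≠ 0) (d : ℕ) :
    ∀ᵐ ζ : Pt d ∂(sectionMeasure 0 β γ d), ζ.2.1 = -(γ / β) := by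
  unfold sectionMeasure
  refine Measure.ae_smul_measure ?_ _
  rw [ae_map_iff (continuous_conePt 0 β γ d).measurable.aemeasurable]
  · refine Eventually.of_forall fun x => ?_
    unfold conePt
    rw [planePt0 β γ hβ]
  · exact measurableSet_eq_fun (by fun_prop) (by fun_prop)

lemma refl0 (β γ : ℝ) (hβ : β ≠ 0) {d : ℕ} (ζ : Pt d) (h : ζ.2.1 = -(γ / β)) :
    refl 0 β γ ζ = (-ζ.1, ζ.2.1, -ζ.2.2) := by
  unfold refl cen2
  refine Prod.ext ?_ (Prod.ext ?_ ?_)
  · simp
  · show 2 * (γ * β) / ((0 : ℝ) ^ 2 - β ^ 2) - ζ.2.1 = ζ.2.1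
    rw [h, zero_pow two_ne_zero, zero_sub]
    field_simp
    ring
  · show (0 : Ed d) - ζ.2.2 = -ζ.2.2
    rw [zero_sub]

/-- The phase. -/
def th {d : ℕ} (z : ℝ × Ed d) (ζ : Pt d) : ℝ := ζ.1 * z.1 + ⟪ζ.2.2, z.2⟫

lemma continuous_th {d : ℕ} (z : ℝ × Ed d) : Continuous (th z : Pt d → ℝ) := by
  unfold th
  fun_prop

lemma sin_zero (h : T_REFL) (d : ℕ) (β γ : ℝ) (g : Pt d → ℝ) (hd : 1 ≤ d) (hβ : β ≠ 0)
    (hg : Ev g) (z : ℝ × Ed d) :
    ∫ ζ, g ζ * Real.sin (th z ζ) ∂(sectionMeasure 0 β γ d) = 0 := by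
  have hab : |(0 : ℝ)| ≠ |β| := by
    rw [abs_zero]
    exact (abs_pos.mpr hβ).ne
  have hmp := h d 0 β γ hd hab
  have hemb : MeasurableEmbedding (refl 0 β γ : Pt d → Pt d) :=
    (Homeomorph.subLeft (cen2 0 β γ d)).measurableEmbedding
  have h1 := hmp.integral_comp hemb (fun ζ => g ζ * Real.sin (th z ζ))
  have h2 : ∫ ζ, g (refl 0 β γ ζ) * Real.sin (th z (refl 0 β γ ζ)) ∂(sectionMeasure 0 β γ d) =
      ∫ ζ, -(g ζ * Real.sin (th z ζ)) ∂(sectionMeasure 0 β γ d) := by
    refine integral_congr_ae ?_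
    filter_upwards [ae_rho β γ hβ d] with ζ hζ
    rw [refl0 β γ hβ ζ hζ]
    have e1 : g (-ζ.1, ζ.2.1, -ζ.2.2) = g ζ := hg ζ.1 ζ.2.1 ζ.2.2
    have e2 : th z (-ζ.1, ζ.2.1, -ζ.2.2) = -th z ζ := by
      unfold th
      simp only [inner_neg_left]
      ring
    rw [e1, e2, Real.sin_neg, mul_neg]
  rw [integral_neg] at h2
  linarith

lemma integrable_cos {d : ℕ} (μ : Measure (Pt d)) (g : Pt d → ℝ) (hg : Integrable g μ)
    (z : ℝ × Ed d) : Integrable (fun ζ => g ζ * Real.cos (th z ζ)) μ := by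
  refine hg.mul_bdd (c := 1) ?_ ?_
  · exact (Real.continuous_cos.comp (continuous_th z)).aestronglyMeasurable
  · exact Eventually.of_forall fun ζ => by
      rw [Real.norm_eq_abs]
      exact Real.abs_cos_le_one _

lemma integrable_sin {d : ℕ} (μ : Measure (Pt d)) (g : Pt d → ℝ) (hg : Integrable g μ)
    (z : ℝ × Ed d) : Integrable (fun ζ => g ζ * Real.sin (th z ζ)) μ := by
  refine hg.mul_bdd (c := 1) ?_ ?_
  · exact (Real.continuous_sin.comp (continuous_th z)).aestronglyMeasurable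
  · exact Eventually.of_forall fun ζ => by
      rw [Real.norm_eq_abs]
      exact Real.abs_sin_le_one _

lemma ext_eq (h : T_REFL) (d : ℕ) (β γ : ℝ) (g : Pt d → ℝ) (hd : 1 ≤ d) (hβ : β ≠ 0)
    (hg : Ev g) (hi : Integrable g (sectionMeasure 0 β γ d)) (t : ℝ) (x : Ed d) :
    extension 0 β γ (fun ζ => ((g ζ : ℝ) : ℂ)) (t, -(γ / β), x) =
      Complex.exp (((-((γ / β) ^ 2) : ℝ) : ℂ) * Complex.I) * ((rx β γ g (t, x) : ℝ) : ℂ) := by
  unfold extension
  have h1 : ∫ ζ, ((g ζ : ℝ) : ℂ) *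
      Complex.exp (-(Complex.I * ((dot ζ (t, -(γ / β), x) : ℝ) : ℂ)))
        ∂(sectionMeasure 0 β γ d) =
      ∫ ζ, Complex.exp (((-((γ / β) ^ 2) : ℝ) : ℂ) * Complex.I) *
        (((g ζ * Real.cos (th (t, x) ζ) : ℝ) : ℂ) -
          Complex.I * ((g ζ * Real.sin (th (t, x) ζ) : ℝ) : ℂ)) ∂(sectionMeasure 0 β γ d) := by
    refine integral_congr_ae ?_
    filter_upwards [ae_rho β γ hβ d] with ζ hζ
    have e1 : dot ζ (t, -(γ / β), x) = th (t, x) ζ + (γ / β) ^ 2 := by
      unfold dot th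
      rw [hζ]
      ring
    have e2 : -(Complex.I * ((dot ζ (t, -(γ / β), x) : ℝ) : ℂ)) =
        ((-((γ / β) ^ 2) : ℝ) : ℂ) * Complex.I + ((-(th (t, x) ζ) : ℝ) : ℂ) * Complex.I := by
      rw [e1]
      push_cast
      ring
    rw [e2, Complex.exp_add, Complex.exp_mul_I (((-(th (t, x) ζ)) : ℝ) : ℂ),
      ← Complex.ofReal_cos, ← Complex.ofReal_sin, Real.cos_neg, Real.sin_neg]
    push_cast
    ring
  rw [h1, integral_const_mul, integral_sub, integral_const_mul, integral_complex_ofReal, integral_complex_ofReal,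
    sin_zero h d β γ g hd hβ hg (t, x), Complex.ofReal_zero, mul_zero, sub_zero]
  · rfl
  · exact (integrable_cos _ g hi (t, x)).ofReal
  · exact (integrable_sin _ g hi (t, x)).ofReal.const_mul _

lemma continuous_ext {d : ℕ} (α β γ : ℝ) (f : Pt d → ℂ)
    (hf : Integrable f (sectionMeasure α β γ d)) : Continuous (extension α β γ f) := by
  unfold extension
  refine continuous_of_dominated (bound := fun ζ => ‖f ζ‖) ?_ ?_ hf.norm ?_
  · intro y
    refine hf.aestronglyMeasurable.mul ?_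
    refine Continuous.aestronglyMeasurable ?_
    unfold dot
    fun_prop
  · intro y
    refine Eventually.of_forall fun ζ => ?_
    rw [norm_mul]
    have : ‖Complex.exp (-(Complex.I * ((dot ζ y : ℝ) : ℂ)))‖ = 1 := by
      rw [← mul_neg, ← Complex.ofReal_neg, mul_comm, Complex.norm_exp_ofReal_mul_I]
    rw [this, mul_one]
  · refine Eventually.of_forall fun ζ => ?_
    unfold dot
    fun_prop

lemma continuous_rx {d : ℕ} (β γ : ℝ) (g : Pt d → ℝ)
    (hf : Integrable g (sectionMeasure 0 β γ d)) : Continuous (rx β γ g) := by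
  unfold rx
  refine continuous_of_dominated (bound := fun ζ => ‖g ζ‖) ?_ ?_ hf.norm ?_
  · intro y
    exact (integrable_cos _ g hf y).aestronglyMeasurable
  · intro y
    refine Eventually.of_forall fun ζ => ?_
    rw [norm_mul]
    exact mul_le_of_le_one_right (norm_nonneg _) (Real.abs_cos_le_one _)
  · refine Eventually.of_forall fun ζ => ?_
    fun_prop

/-- The change of sign. -/
lemma mp_sign (d : ℕ) (β : ℝ) (hβ : β ≠ 0) :
    MeasurePreserving (fun z : ℝ × Ed d => (-(z.1 * β / |β|), z.2)) volume volume := by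
  have h1 : MeasurePreserving (fun s : ℝ => -(s * β / |β|)) volume volume := by
    rcases lt_or_gt_of_ne hβ with hneg | hpos
    · have : (fun s : ℝ => -(s * β / |β|)) = id := by
        funext s
        rw [abs_of_neg hneg, id]
        field_simp
      rw [this]
      exact MeasurePreserving.id _
    · have : (fun s : ℝ => -(s * β / |β|)) = fun s => -s := by
        funext s
        rw [abs_of_pos hpos]
        field_simp
      rw [this]
      exact Measure.measurePreserving_neg volume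
  exact h1.prod (MeasurePreserving.id volume)

end NRM_

open NRM_ in
theorem p_NRM (h : T_REFL) : T_NRM := by
  intro d β γ p g hd hβ _ hp hg hi
  have hci : Integrable (fun ζ => ((g ζ : ℝ) : ℂ)) (sectionMeasure 0 β γ d) := hi.ofReal
  unfold planeMeasure
  rw [lintegral_smul_measure, lintegral_map, sqrt_sq0, smul_eq_mul]
  · congr 1
    have h1 : ∀ z : ℝ × Ed d,
        ‖extension 0 β γ (fun ζ => ((g ζ : ℝ) : ℂ)) (planePt 0 β γ z.1 z.2)‖ₑ ^ p =
        ‖rx β γ g (-(z.1 * β / |β|), z.2)‖ₑ ^ p := by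
      intro z
      rw [planePt0 β γ hβ, ext_eq h d β γ g hd hβ hg hi, enorm_mul]
      have e1 : ‖Complex.exp (((-((γ / β) ^ 2) : ℝ) : ℂ) * Complex.I)‖ₑ = 1 := by
        rw [← ofReal_norm, Complex.norm_exp_ofReal_mul_I, ENNReal.ofReal_one]
      rw [e1, one_mul]
      congr 1
      rw [← ofReal_norm, Complex.norm_real, ofReal_norm]
    simp_rw [h1]
    have hm : Measurable (fun z : ℝ × Ed d => ‖rx β γ g z‖ₑ ^ p) :=
      (continuous_rx β γ g hi).measurable.enorm.pow_const p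
    exact (mp_sign d β hβ).lintegral_comp hm
  · exact (continuous_ext 0 β γ _ hci).measurable.enorm.pow_const p
  · have : Continuous (fun x : ℝ × Ed d => planePt 0 β γ x.1 x.2) := by
      unfold planePt
      fun_prop
    exact this.measurable

end Pool.Agent.SymM
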