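import Pool.Agent.SymM.Targets

set_option autoImplicit false

noncomputable section

open MeasureTheory Set Filter
open scoped ENNReal RealInnerProductSpace Topology ComplexConjugate

namespace Pool.Agent.SymM

open Pool.Agent.ExpMax

namespace UPR_

lemma cont_hpt (β γ ε : ℝ) (d : ℕ) : Continuous (hpt β γ ε : Ed d → Pt d) := by
  unfold hpt
  fun_prop

lemma dens_pos (β γ : ℝ) (hβ : β ≠ 0) (hγ : γ ≠ 0) {d : ℕ} (ξ : Ed d) :
    0 < 1 / (2 * |β| * √((γ / β) ^ 2 + ‖ξ‖ ^ 2)) := by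
  have h1 : 0 < |β| := abs_pos.2 hβ
  have h2 : 0 < (γ / β) ^ 2 + ‖ξ‖ ^ 2 := by
    have : 0 < (γ / β) ^ 2 := by positivity
    positivity
  have h3 := Real.sqrt_pos.2 h2
  positivity

lemma dens_meas (β γ : ℝ) (d : ℕ) :
    Measurable fun ξ : Ed d => ENNReal.ofReal (1 / (2 * |β| * √((γ / β) ^ 2 + ‖ξ‖ ^ 2))) := by
  fun_prop

lemma hnu_univ (β γ : ℝ) (hβ : β ≠ 0) (hγ : γ ≠ 0) (d : ℕ) : hnu β γ d univ ≠ 0 := by
  unfold hnu
  intro h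
  rw [withDensity_apply _ MeasurableSet.univ, Measure.restrict_univ,
    lintegral_eq_zero_iff (dens_meas β γ d)] at h
  have h2 : ∀ᵐ ξ : Ed d, False := by
    filter_upwards [h] with ξ hξ
    have h3 := dens_pos β γ hβ hγ ξ
    have h4 := ENNReal.ofReal_pos.2 h3
    exact absurd hξ h4.ne'
  rw [ae_iff] at h2
  have h5 : (volume : Measure (Ed d)) = 0 := by simpa using h2
  have h6 := (isOpen_univ (X := Ed d)).measure_pos volume ⟨0, mem_univ _⟩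
  rw [h5] at h6
  simp at h6

/-- transfer of almost everywhere statements -/
lemma ae_section (h1 : T_HYP) {d : ℕ} (hd : 1 ≤ d) {β γ : ℝ} (hβ : β ≠ 0) (hγ : γ ≠ 0)
    {P : Pt d → Prop} (hP : MeasurableSet {ζ | P ζ})
    (h : ∀ ε : ℝ, |ε| = 1 → ∀ ξ : Ed d, P (hpt β γ ε ξ)) :
    ∀ᵐ ζ ∂(sectionMeasure 0 β γ d), P ζ := by
  rw [h1 d β γ hd hβ hγ, ae_add_measure_iff]
  constructor
  · rw [ae_map_iff (cont_hpt β γ 1 d).aemeasurable hP]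
    exact Eventually.of_forall fun ξ => h 1 (by norm_num) ξ
  · rw [ae_map_iff (cont_hpt β γ (-1) d).aemeasurable hP]
    exact Eventually.of_forall fun ξ => h (-1) (by norm_num) ξ

lemma ae_back (h1 : T_HYP) {d : ℕ} (hd : 1 ≤ d) {β γ : ℝ} (hβ : β ≠ 0) (hγ : γ ≠ 0)
    {P : Pt d → Prop} (h : ∀ᵐ ζ ∂(sectionMeasure 0 β γ d), P ζ) :
    ∀ᵐ ξ : Ed d, P (hpt β γ 1 ξ) := by
  rw [h1 d β γ hd hβ hγ, ae_add_measure_iff] at h
  have h2 := ae_of_ae_map (cont_hpt β γ 1 d).aemeasurable h.1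
  unfold hnu at h2
  rw [ae_withDensity_iff (dens_meas β γ d)] at h2
  filter_upwards [h2] with ξ hξ
  apply hξ
  exact (ENNReal.ofReal_pos.2 (dens_pos β γ hβ hγ ξ)).ne'

lemma section_univ (h1 : T_HYP) {d : ℕ} (hd : 1 ≤ d) {β γ : ℝ} (hβ : β ≠ 0) (hγ : γ ≠ 0) :
    sectionMeasure 0 β γ d univ ≠ 0 := by
  rw [h1 d β γ hd hβ hγ, Measure.add_apply,
    Measure.map_apply (cont_hpt β γ 1 d).measurable MeasurableSet.univ, preimage_univ]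
  intro h
  have := (add_eq_zero.1 h).1
  exact hnu_univ β γ hβ hγ d this

lemma norm_le_abs (h1 : T_HYP) {d : ℕ} (hd : 1 ≤ d) {β γ : ℝ} (hβ : β ≠ 0) (hγ : γ ≠ 0) :
    ∀ᵐ ζ ∂(sectionMeasure 0 β γ d), ‖ζ.2.2‖ ≤ |ζ.1| := by
  apply ae_section h1 hd hβ hγ
  · apply IsClosed.measurableSet
    exact isClosed_le (by fun_prop) (by fun_prop)
  · intro ε hε ξ
    simp only [hpt]
    rw [abs_mul, hε, one_mul, abs_of_nonneg (Real.sqrt_nonneg _)]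
    apply Real.le_sqrt_of_sq_le
    nlinarith [sq_nonneg (γ / β)]

lemma int_ez (h2 : T_LONE) {d : ℕ} (hd : 1 ≤ d) {β γ : ℝ} (hβ : β ≠ 0) (hγ : γ ≠ 0) :
    Integrable (ez : Pt d → ℝ) (sectionMeasure 0 β γ d) := by
  have h := h2 d 0 β γ 1 hd (by simpa using (abs_pos.2 hβ).ne) hγ one_pos
  have e : (ez : Pt d → ℝ) = fun ζ : Pt d => Real.exp (-(1 * |ζ.1|)) := by
    funext ζ; simp [ez]
  rw [e]; exact h

lemma cont_ph {d : ℕ} (z : ℝ × Ed d) :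
    Continuous fun ζ : Pt d => ζ.1 * z.1 + ⟪ζ.2.2, z.2⟫ := by
  fun_prop

lemma cont_ez {d : ℕ} : Continuous (ez : Pt d → ℝ) := by
  unfold ez
  fun_prop

lemma int_ezcos (h2 : T_LONE) {d : ℕ} (hd : 1 ≤ d) {β γ : ℝ} (hβ : β ≠ 0) (hγ : γ ≠ 0)
    (z : ℝ × Ed d) :
    Integrable (fun ζ : Pt d => ez ζ * Real.cos (ζ.1 * z.1 + ⟪ζ.2.2, z.2⟫))
      (sectionMeasure 0 β γ d) := by
  refine (int_ez h2 hd hβ hγ).mono ?_ ?_
  · exact (cont_ez.mul (Real.continuous_cos.comp (cont_ph z))).aestronglyMeasurable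
  · refine Eventually.of_forall fun ζ => ?_
    rw [norm_mul]
    have := Real.abs_cos_le_one (ζ.1 * z.1 + ⟪ζ.2.2, z.2⟫)
    rw [← Real.norm_eq_abs] at this
    nlinarith [norm_nonneg (ez ζ)]

lemma xexp (x : ℝ) : x * Real.exp (-x) ≤ 2 * Real.exp (-(1 / 2 * x)) := by
  have h1 : x / 2 ≤ Real.exp (x / 2) := by
    have := Real.add_one_le_exp (x / 2)
    linarith
  have h2 : Real.exp (-(1 / 2 * x)) = Real.exp (x / 2) * Real.exp (-x) := by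
    rw [← Real.exp_add]; congr 1; ring
  rw [h2]
  have h3 := Real.exp_pos (-x)
  nlinarith

lemma lip (h1 : T_HYP) (h2 : T_LONE) {d : ℕ} (hd : 1 ≤ d) {β γ : ℝ} (hβ : β ≠ 0) (hγ : γ ≠ 0)
    (z z' : ℝ × Ed d) :
    |rx β γ ez z - rx β γ ez z'| ≤
      (∫ ζ : Pt d, 4 * Real.exp (-(1 / 2 * |ζ.1|)) ∂(sectionMeasure 0 β γ d)) * ‖z - z'‖ := by
  unfold rx
  rw [← integral_sub (int_ezcos h2 hd hβ hγ z) (int_ezcos h2 hd hβ hγ z'), ← Real.norm_eq_abs,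
    ← integral_mul_const]
  have hi : Integrable (fun ζ : Pt d => 4 * Real.exp (-(1 / 2 * |ζ.1|)) * ‖z - z'‖)
      (sectionMeasure 0 β γ d) := by
    have h := h2 d 0 β γ (1 / 2) hd (by simpa using (abs_pos.2 hβ).ne) hγ (by norm_num)
    exact (h.const_mul 4).mul_const _
  refine norm_integral_le_of_norm_le hi ?_
  filter_upwards [norm_le_abs h1 hd hβ hγ] with ζ hζ
  rw [← mul_sub, norm_mul, Real.norm_eq_abs, Real.norm_eq_abs]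
  have ha : |Real.cos (ζ.1 * z.1 + ⟪ζ.2.2, z.2⟫) - Real.cos (ζ.1 * z'.1 + ⟪ζ.2.2, z'.2⟫)| ≤
      |(ζ.1 * z.1 + ⟪ζ.2.2, z.2⟫) - (ζ.1 * z'.1 + ⟪ζ.2.2, z'.2⟫)| := by
    have := Real.lipschitzWith_cos.dist_le_mul (ζ.1 * z.1 + ⟪ζ.2.2, z.2⟫)
      (ζ.1 * z'.1 + ⟪ζ.2.2, z'.2⟫)
    simpa [Real.dist_eq] using this
  have hb : (ζ.1 * z.1 + ⟪ζ.2.2, z.2⟫) - (ζ.1 * z'.1 + ⟪ζ.2.2, z'.2⟫) =
      ζ.1 * (z - z').1 + ⟪ζ.2.2, (z - z').2⟫ := by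
    simp only [Prod.fst_sub, Prod.snd_sub, inner_sub_right]
    ring
  have hc : |ζ.1 * (z - z').1 + ⟪ζ.2.2, (z - z').2⟫| ≤ 2 * |ζ.1| * ‖z - z'‖ := by
    have e1 : |(z - z').1| ≤ ‖z - z'‖ := by
      rw [← Real.norm_eq_abs]; exact norm_fst_le _
    have e2 : ‖(z - z').2‖ ≤ ‖z - z'‖ := norm_snd_le _
    have e3 : |⟪ζ.2.2, (z - z').2⟫| ≤ ‖ζ.2.2‖ * ‖(z - z').2‖ := abs_real_inner_le_norm _ _
    have e4 : ‖ζ.2.2‖ * ‖(z - z').2‖ ≤ |ζ.1| * ‖z - z'‖ :=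
      mul_le_mul hζ e2 (norm_nonneg _) (abs_nonneg _)
    have e5 : |ζ.1 * (z - z').1| ≤ |ζ.1| * ‖z - z'‖ := by
      rw [abs_mul]; exact mul_le_mul_of_nonneg_left e1 (abs_nonneg _)
    calc |ζ.1 * (z - z').1 + ⟪ζ.2.2, (z - z').2⟫| ≤ |ζ.1 * (z - z').1| + |⟪ζ.2.2, (z - z').2⟫| :=
          abs_add_le _ _
      _ ≤ 2 * |ζ.1| * ‖z - z'‖ := by linarith
  have hd' : |ez ζ| = Real.exp (-|ζ.1|) := by
    unfold ez; exact abs_of_pos (Real.exp_pos _)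
  rw [hd']
  rw [hb] at ha
  have he := ha.trans hc
  have hx := xexp |ζ.1|
  have hp := Real.exp_pos (-|ζ.1|)
  calc Real.exp (-|ζ.1|) * |Real.cos (ζ.1 * z.1 + ⟪ζ.2.2, z.2⟫) -
        Real.cos (ζ.1 * z'.1 + ⟪ζ.2.2, z'.2⟫)| ≤ Real.exp (-|ζ.1|) * (2 * |ζ.1| * ‖z - z'‖) :=
        mul_le_mul_of_nonneg_left he hp.le
    _ = 2 * (|ζ.1| * Real.exp (-|ζ.1|)) * ‖z - z'‖ := by ring
    _ ≤ 2 * (2 * Real.exp (-(1 / 2 * |ζ.1|))) * ‖z - z'‖ := by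
        apply mul_le_mul_of_nonneg_right _ (norm_nonneg _)
        linarith
    _ = 4 * Real.exp (-(1 / 2 * |ζ.1|)) * ‖z - z'‖ := by ring

lemma rx_zero {d : ℕ} (β γ : ℝ) : rx β γ ez (0 : ℝ × Ed d) =
    ∫ ζ : Pt d, ez ζ ∂(sectionMeasure 0 β γ d) := by
  unfold rx
  simp

lemma ez_pos {d : ℕ} (ζ : Pt d) : 0 < ez ζ := Real.exp_pos _

lemma rx_zero_pos (h1 : T_HYP) (h2 : T_LONE) {d : ℕ} (hd : 1 ≤ d) {β γ : ℝ} (hβ : β ≠ 0)
    (hγ : γ ≠ 0) : 0 < rx β γ ez (0 : ℝ × Ed d) := by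
  rw [rx_zero, integral_pos_iff_support_of_nonneg (fun ζ => (ez_pos ζ).le) (int_ez h2 hd hβ hγ)]
  have : Function.support (ez : Pt d → ℝ) = univ := by
    ext ζ; simp [(ez_pos ζ).ne']
  rw [this]
  exact pos_iff_ne_zero.2 (section_univ h1 hd hβ hγ)

/-- the phase is locally constant along lines only if `z = 0` -/
lemma phase {d : ℕ} (hd : 1 ≤ d) {m : ℝ} (hm : m ≠ 0) (z : ℝ × Ed d)
    (h : ∀ ξ : Ed d, Real.sin (√(m ^ 2 + ‖ξ‖ ^ 2) * z.1 + ⟪ξ, z.2⟫) = 0) : z = 0 := by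
  -- derivative along a unit vector
  have key : ∀ e : Ed d, ‖e‖ = 1 → ∀ s : ℝ, s / √(m ^ 2 + s ^ 2) * z.1 + ⟪e, z.2⟫ = 0 := by
    intro e he s
    have hpos : ∀ s : ℝ, 0 < m ^ 2 + s ^ 2 := fun s => by positivity
    have hd1 : HasDerivAt (fun s : ℝ => √(m ^ 2 + s ^ 2)) (s / √(m ^ 2 + s ^ 2)) s := by
      have h1 : HasDerivAt (fun s : ℝ => m ^ 2 + s ^ 2) (2 * s) s := by
        have := (hasDerivAt_pow 2 s).const_add (m ^ 2)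
        simpa using this
      have h2 := h1.sqrt (hpos s).ne'
      convert h2 using 1
      field_simp
    have hd2 : HasDerivAt (fun s : ℝ => √(m ^ 2 + s ^ 2) * z.1 + s * ⟪e, z.2⟫)
        (s / √(m ^ 2 + s ^ 2) * z.1 + ⟪e, z.2⟫) s := by
      have h3 := (hd1.mul_const z.1).fun_add ((hasDerivAt_id s).mul_const ⟪e, z.2⟫)
      rw [one_mul] at h3
      exact h3
    have hs : ∀ s : ℝ, Real.sin (√(m ^ 2 + s ^ 2) * z.1 + s * ⟪e, z.2⟫) = 0 := by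
      intro s
      have h4 := h (s • e)
      rw [norm_smul, he, mul_one, inner_smul_left, Real.norm_eq_abs, sq_abs] at h4
      simpa using h4
    have hd3 := hd2.sin
    have hzero : (fun s : ℝ => Real.sin (√(m ^ 2 + s ^ 2) * z.1 + s * ⟪e, z.2⟫)) = fun _ => 0 :=
      funext hs
    rw [hzero] at hd3
    have h5 := hd3.unique (hasDerivAt_const s (0 : ℝ))
    rcases mul_eq_zero.1 h5 with h6 | h6
    · exfalso
      have h7 := Real.sin_sq_add_cos_sq (√(m ^ 2 + s ^ 2) * z.1 + s * ⟪e, z.2⟫)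
      rw [hs s, h6] at h7
      norm_num at h7
    · exact h6
  have hx : z.2 = 0 := by
    by_contra hx
    have hn : ‖z.2‖ ≠ 0 := norm_ne_zero_iff.2 hx
    have h8 := key (‖z.2‖⁻¹ • z.2) (by rw [norm_smul, norm_inv, norm_norm, inv_mul_cancel₀ hn]) 0
    rw [zero_div, zero_mul, zero_add, inner_smul_left, real_inner_self_eq_norm_sq] at h8
    simp at h8
    exact hx h8
  have ht : z.1 = 0 := by
    have : Nonempty (Fin d) := ⟨⟨0, hd⟩⟩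
    obtain ⟨e, he⟩ := exists_norm_eq (Ed d) zero_le_one
    have h9 := key e he 1
    rw [hx, inner_zero_right, add_zero] at h9
    have h10 : (1 : ℝ) / √(m ^ 2 + 1 ^ 2) ≠ 0 := by positivity
    exact (mul_eq_zero.1 h9).resolve_left h10
  exact Prod.ext ht hx

lemma strict (h1 : T_HYP) (h2 : T_LONE) {d : ℕ} (hd : 1 ≤ d) {β γ : ℝ} (hβ : β ≠ 0)
    (hγ : γ ≠ 0) (z : ℝ × Ed d) (hz : z ≠ 0) : |rx β γ ez z| < rx β γ ez (0 : ℝ × Ed d) := by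
  by_contra hcon
  push Not at hcon
  apply hz
  have hi := int_ez h2 hd hβ hγ (d := d)
  have hc := int_ezcos h2 hd hβ hγ z
  have hca : Integrable (fun ζ : Pt d => ez ζ * |Real.cos (ζ.1 * z.1 + ⟪ζ.2.2, z.2⟫)|)
      (sectionMeasure 0 β γ d) := by
    refine hc.abs.congr (Eventually.of_forall fun ζ => ?_)
    simp only [abs_mul, abs_of_pos (ez_pos ζ)]
  have hle : |rx β γ ez z| ≤
      ∫ ζ : Pt d, ez ζ * |Real.cos (ζ.1 * z.1 + ⟪ζ.2.2, z.2⟫)| ∂(sectionMeasure 0 β γ d) := by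
    unfold rx
    refine (abs_integral_le_integral_abs).trans (le_of_eq ?_)
    refine integral_congr_ae (Eventually.of_forall fun ζ => ?_)
    simp only [abs_mul, abs_of_pos (ez_pos ζ)]
  rw [rx_zero] at hcon
  have h3 : ∫ ζ : Pt d, (ez ζ - ez ζ * |Real.cos (ζ.1 * z.1 + ⟪ζ.2.2, z.2⟫)|)
      ∂(sectionMeasure 0 β γ d) ≤ 0 := by
    rw [integral_sub hi hca]; linarith
  have hnn : ∀ ζ : Pt d, 0 ≤ ez ζ - ez ζ * |Real.cos (ζ.1 * z.1 + ⟪ζ.2.2, z.2⟫)| := by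
    intro ζ
    have := Real.abs_cos_le_one (ζ.1 * z.1 + ⟪ζ.2.2, z.2⟫)
    nlinarith [ez_pos ζ]
  have h4 : ∫ ζ : Pt d, (ez ζ - ez ζ * |Real.cos (ζ.1 * z.1 + ⟪ζ.2.2, z.2⟫)|)
      ∂(sectionMeasure 0 β γ d) = 0 := le_antisymm h3 (integral_nonneg hnn)
  rw [integral_eq_zero_iff_of_nonneg hnn (hi.sub hca)] at h4
  have h5 : ∀ᵐ ζ ∂(sectionMeasure 0 β γ d), Real.sin (ζ.1 * z.1 + ⟪ζ.2.2, z.2⟫) = 0 := by
    filter_upwards [h4] with ζ hζ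
    simp only [Pi.zero_apply] at hζ
    have h6 : |Real.cos (ζ.1 * z.1 + ⟪ζ.2.2, z.2⟫)| = 1 := by
      have h7 : ez ζ * (1 - |Real.cos (ζ.1 * z.1 + ⟪ζ.2.2, z.2⟫)|) = 0 := by linarith
      have := (mul_eq_zero.1 h7).resolve_left (ez_pos ζ).ne'
      linarith
    have h8 : Real.cos (ζ.1 * z.1 + ⟪ζ.2.2, z.2⟫) ^ 2 = 1 := by
      rw [← sq_abs, h6]; norm_num
    have h9 := Real.sin_sq_add_cos_sq (ζ.1 * z.1 + ⟪ζ.2.2, z.2⟫)
    rw [h8] at h9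
    have h10 : Real.sin (ζ.1 * z.1 + ⟪ζ.2.2, z.2⟫) ^ 2 = 0 := by linarith
    exact pow_eq_zero_iff (two_ne_zero) |>.1 h10
  have h11 := ae_back h1 hd hβ hγ h5
  have h12 : (fun ξ : Ed d => Real.sin (√((γ / β) ^ 2 + ‖ξ‖ ^ 2) * z.1 + ⟪ξ, z.2⟫)) =
      fun _ => (0 : ℝ) := by
    refine (Continuous.ae_eq_iff_eq volume (by fun_prop) continuous_const).1 ?_
    filter_upwards [h11] with ξ hξ
    simpa [hpt] using hξ
  exact phase hd (div_ne_zero hγ hβ) z fun ξ => congrFun h12 ξ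

end UPR_

theorem p_UPR (h1 : T_HYP) (h2 : T_LONE) : T_UPR := by
  intro d β γ hd hβ hγ
  have hl := UPR_.lip h1 h2 hd hβ hγ
  refine ⟨?_, UPR_.rx_zero_pos h1 h2 hd hβ hγ, fun z hz => UPR_.strict h1 h2 hd hβ hγ z hz,
    ⟨_, hl⟩⟩
  set L : ℝ := ∫ ζ : Pt d, 4 * Real.exp (-(1 / 2 * |ζ.1|)) ∂(sectionMeasure 0 β γ d) with hL
  have hL0 : 0 ≤ L := integral_nonneg fun ζ => by positivity
  have : LipschitzWith ⟨L, hL0⟩ (rx β γ ez : ℝ × Ed d → ℝ) := by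
    apply LipschitzWith.of_dist_le_mul
    intro z z'
    rw [Real.dist_eq, dist_eq_norm]
    exact hl z z'
  exact this.continuous

end Pool.Agent.SymM
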