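import Pool.Agent.SymM.Targets

set_option autoImplicit false

/-! Lower bound for the real part of the root. -/

noncomputable section

namespace Pool.Agent.SymM

namespace SQ_

theorem sqrt_facts (w : ℂ) : 0 ≤ (w ^ (1 / 2 : ℂ)).re ∧
    2 * (w ^ (1 / 2 : ℂ)).re ^ 2 = ‖w‖ + w.re := by
  have h2 : (w ^ (1 / 2 : ℂ)) ^ 2 = w := by
    have h := Complex.cpow_nat_inv_pow w (n := 2) (by norm_num)
    have he : ((2 : ℕ) : ℂ)⁻¹ = (1 / 2 : ℂ) := by norm_num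
    rw [he] at h
    exact h
  have h0 : 0 ≤ (w ^ (1 / 2 : ℂ)).re := by
    by_cases hw : w = 0
    · subst hw
      rw [Complex.zero_cpow (by norm_num)]
      simp
    · rw [Complex.cpow_def_of_ne_zero hw, Complex.exp_re]
      apply mul_nonneg (Real.exp_pos _).le
      apply Real.cos_nonneg_of_mem_Icc
      have him : (Complex.log w * (1 / 2)).im = Complex.arg w / 2 := by
        have : (1 / 2 : ℂ) = ((1 / 2 : ℝ) : ℂ) := by push_cast; rfl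
        rw [this, Complex.im_mul_ofReal, Complex.log_im]
        ring
      rw [him]
      have h3 := Complex.neg_pi_lt_arg w
      have h4 := Complex.arg_le_pi w
      constructor <;> linarith
  refine ⟨h0, ?_⟩
  set r := w ^ (1 / 2 : ℂ) with hr
  have hn : ‖w‖ = r.re ^ 2 + r.im ^ 2 := by
    rw [← h2, norm_pow, Complex.sq_norm, Complex.normSq_apply]
    ring
  have hre : w.re = r.re ^ 2 - r.im ^ 2 := by
    rw [← h2, pow_two, Complex.mul_re]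
    ring
  rw [hn, hre]
  ring

theorem real_bound (c z u b v N E : ℝ) (hc : 0 < c) (hz : 0 < z) (hz2 : z ^ 2 = c ^ 2 + u ^ 2)
    (hu : 0 ≤ u) (hb : 0 ≤ b) (hN : 0 ≤ N) (hv : v ≤ u * b)
    (hkey : N ^ 2 = E + z ^ 2 * b ^ 2) (hE : 0 ≤ E) :
    c ^ 2 * b / (16 * z) ≤ N - v := by
  have huz : u ≤ z := by nlinarith
  have hcz : c ≤ z := by nlinarith
  have h3 : c ^ 2 / (16 * z) ≤ c / 16 := by
    rw [div_le_div_iff₀ (by positivity) (by norm_num)]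
    nlinarith
  have h4 : 0 ≤ c ^ 2 / (16 * z) := by positivity
  have h5 : u * (c ^ 2 / (16 * z)) ≤ c ^ 2 / 16 := by
    rw [mul_div_assoc', div_le_div_iff₀ (by positivity) (by norm_num)]
    nlinarith [mul_nonneg (sq_nonneg c) (sub_nonneg.mpr huz)]
  have h6 : (c ^ 2 / (16 * z)) ^ 2 ≤ (c / 16) ^ 2 := pow_le_pow_left₀ h4 h3 2
  have h7 : (u * b + c ^ 2 * b / (16 * z)) ^ 2 =
      b ^ 2 * (u ^ 2 + 2 * (u * (c ^ 2 / (16 * z))) + (c ^ 2 / (16 * z)) ^ 2) := by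
    ring
  have h8 : u ^ 2 + 2 * (u * (c ^ 2 / (16 * z))) + (c ^ 2 / (16 * z)) ^ 2 ≤ z ^ 2 := by
    nlinarith [sq_nonneg c]
  have h9 : (u * b + c ^ 2 * b / (16 * z)) ^ 2 ≤ N ^ 2 := by
    rw [h7, hkey]
    nlinarith [mul_le_mul_of_nonneg_left h8 (sq_nonneg b)]
  have h10 : u * b + c ^ 2 * b / (16 * z) ≤ N := le_of_sq_le_sq h9 hN
  linarith

theorem final_bound (c z b X R N v A : ℝ) (hc : 0 < c) (hz : 0 < z) (hb : 0 ≤ b)
    (hR : 0 ≤ R) (h1 : c ^ 2 * b / (16 * z) ≤ N - v)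
    (hA : A = c * (c + c * X ^ 2 / z ^ 2)) (h2 : 2 * R ^ 2 = N + (A - v)) :
    1 / 8 * (c * √(b / (2 * z)) + 2 * c * X / z) ≤ R := by
  have hA2 : c ^ 2 * X ^ 2 / z ^ 2 ≤ A := by
    have : A = c ^ 2 + c ^ 2 * X ^ 2 / z ^ 2 := by rw [hA]; ring
    rw [this]
    nlinarith [sq_nonneg c]
  have hA0 : 0 ≤ c ^ 2 * X ^ 2 / z ^ 2 := by positivity
  have hcb : 0 ≤ c ^ 2 * b / (16 * z) := by positivity
  have hi : c * √(b / (2 * z)) ≤ 4 * R := by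
    apply le_of_sq_le_sq _ (by linarith)
    rw [mul_pow, Real.sq_sqrt (by positivity)]
    have e2 : c ^ 2 * (b / (2 * z)) = 8 * (c ^ 2 * b / (16 * z)) := by
      field_simp
      ring
    rw [e2]
    nlinarith
  have hii : c * X / z ≤ 2 * R := by
    apply le_of_sq_le_sq _ (by linarith)
    have e3 : (c * X / z) ^ 2 = c ^ 2 * X ^ 2 / z ^ 2 := by
      rw [div_pow, mul_pow]
    rw [e3]
    nlinarith [sq_nonneg R]
  have e4 : 2 * c * X / z = 2 * (c * X / z) := by ring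
  rw [e4]
  linarith

theorem identities (c t x X z B : ℝ) (hzne : z ≠ 0) (hz2 : z ^ 2 = c ^ 2 + (t - x) ^ 2)
    (hB : B = (t + x) - (t - x) * X ^ 2 / z ^ 2) :
    (c ^ 2 - t ^ 2 + (x ^ 2 + X ^ 2)) ^ 2 + (2 * c * t) ^ 2 =
      z ^ 2 * (c + c * X ^ 2 / z ^ 2) ^ 2 + z ^ 2 * B ^ 2 ∧
    c ^ 2 - t ^ 2 + (x ^ 2 + X ^ 2) = c * (c + c * X ^ 2 / z ^ 2) - (t - x) * B := by
  constructor
  · have e1 : z ^ 2 * (c + c * X ^ 2 / z ^ 2) ^ 2 + z ^ 2 * B ^ 2 =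
        (c ^ 2 * (z ^ 2 + X ^ 2) ^ 2 + ((t + x) * z ^ 2 - (t - x) * X ^ 2) ^ 2) / z ^ 2 := by
      rw [hB]
      field_simp
    rw [e1, eq_div_iff (pow_ne_zero 2 hzne), hz2]
    ring
  · rw [hB]
    have e1 : c * (c + c * X ^ 2 / z ^ 2) - (t - x) * (t + x - (t - x) * X ^ 2 / z ^ 2) =
        c ^ 2 - (t - x) * (t + x) + (c ^ 2 + (t - x) ^ 2) * (X ^ 2 / z ^ 2) := by ring
    rw [e1, ← hz2, mul_div_cancel₀ _ (pow_ne_zero 2 hzne)]
    ring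

end SQ_

theorem p_SQ : T_SQ := by
  intro c t x X z B hc hX hz hB
  obtain ⟨h0, h2⟩ := SQ_.sqrt_facts (((c : ℂ) + Complex.I * t) ^ 2 + ((x ^ 2 + X ^ 2 : ℝ) : ℂ))
  have hwre : (((c : ℂ) + Complex.I * t) ^ 2 + ((x ^ 2 + X ^ 2 : ℝ) : ℂ)).re =
      c ^ 2 - t ^ 2 + (x ^ 2 + X ^ 2) := by
    rw [Complex.add_re, Complex.ofReal_re, pow_two, Complex.mul_re]
    simp
    ring
  have hwim : (((c : ℂ) + Complex.I * t) ^ 2 + ((x ^ 2 + X ^ 2 : ℝ) : ℂ)).im = 2 * c * t := by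
    rw [Complex.add_im, Complex.ofReal_im, pow_two, Complex.mul_im]
    simp
    ring
  have hN2 : ‖((c : ℂ) + Complex.I * t) ^ 2 + ((x ^ 2 + X ^ 2 : ℝ) : ℂ)‖ ^ 2 =
      (c ^ 2 - t ^ 2 + (x ^ 2 + X ^ 2)) ^ 2 + (2 * c * t) ^ 2 := by
    rw [Complex.sq_norm, Complex.normSq_apply, hwre, hwim]
    ring
  have hzpos : 0 < z := by
    rw [hz]
    exact Real.sqrt_pos.mpr (by positivity)
  have hz2 : z ^ 2 = c ^ 2 + (t - x) ^ 2 := by
    rw [hz, Real.sq_sqrt (by positivity)]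
  obtain ⟨i1, i2⟩ := SQ_.identities c t x X z B hzpos.ne' hz2 hB
  rw [i1, ← sq_abs B] at hN2
  rw [hwre, i2] at h2
  have huB : (t - x) * B ≤ |t - x| * |B| := by
    rw [← abs_mul]
    exact le_abs_self _
  have hb := SQ_.real_bound c z |t - x| |B| ((t - x) * B) _ _ hc hzpos
    (by rw [sq_abs]; exact hz2) (abs_nonneg _) (abs_nonneg _) (norm_nonneg _) huB hN2 (by positivity)
  exact SQ_.final_bound c z |B| X _ _ _ _ hc hzpos (abs_nonneg _) h0 hb rfl h2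

end Pool.Agent.SymM

end
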