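import Pool.Agent.ExpMax.Defs

set_option autoImplicit false

/-!
# Symmetry of maximizers and the finiteness theorem for hyperboloids: targets

Everything about the sections (`Pt`, `dot`, `planePt`, `planeMeasure`, `Q`, `conePt`,
`sectionMeasure`, `extension`, `quotient`, `bestConst`, `IsMaximizer`, `expTau`) is defined in
`Pool/Agent/ExpMax/Defs.lean`.  Proofs: `Blueprint.lean.txt`.
-/

noncomputable section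

open MeasureTheory Set Filter
open scoped ENNReal RealInnerProductSpace Topology ComplexConjugate

namespace Pool.Agent.SymM

open Pool.Agent.ExpMax

/-! ## Part A: symmetry of maximizers -/

/-- Twice the center of the section. -/
def cen2 (α β γ : ℝ) (d : ℕ) : Pt d :=
  (-(2 * (γ * α)) / (α ^ 2 - β ^ 2), 2 * (γ * β) / (α ^ 2 - β ^ 2), 0)

/-- The point reflection in the center of the section. -/
def refl (α β γ : ℝ) {d : ℕ} (ζ : Pt d) : Pt d := cen2 α β γ d - ζ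

/-- REFL: the measure of the section is invariant under the reflection. -/
def T_REFL : Prop := ∀ (d : ℕ) (α β γ : ℝ), 1 ≤ d → |α| ≠ |β| →
  MeasurePreserving (refl α β γ : Pt d → Pt d) (sectionMeasure α β γ d) (sectionMeasure α β γ d)

/-- The function `f*`. -/
def star (α β γ : ℝ) {d : ℕ} (f : Pt d → ℂ) (ζ : Pt d) : ℂ := conj (f (refl α β γ ζ))

/-- STAR (from REFL) -/
def T_STAR : Prop := ∀ (d : ℕ) (α β γ : ℝ), 1 ≤ d → |α| ≠ |β| → ∀ f : Pt d → ℂ,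
  (Integrable f (sectionMeasure α β γ d) → Integrable (star α β γ f) (sectionMeasure α β γ d)) ∧
  (MemLp f 2 (sectionMeasure α β γ d) → MemLp (star α β γ f) 2 (sectionMeasure α β γ d)) ∧
  (∫⁻ ζ, ‖star α β γ f ζ‖ₑ ^ (2 : ℝ) ∂(sectionMeasure α β γ d) =
    ∫⁻ ζ, ‖f ζ‖ₑ ^ (2 : ℝ) ∂(sectionMeasure α β γ d)) ∧
  ∀ y : Pt d, extension α β γ (star α β γ f) y =
    Complex.exp (-(Complex.I * ((dot (cen2 α β γ d) y : ℝ) : ℂ))) * conj (extension α β γ f y)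

/-- CONT: the extension of an integrable function is continuous. -/
def T_CONT : Prop := ∀ (d : ℕ) (α β γ : ℝ) (f : Pt d → ℂ),
  Integrable f (sectionMeasure α β γ d) → Continuous (extension α β γ f)

/-- POS (from CONT): the best constant is positive if the section carries a nonzero function. -/
def T_POS : Prop := ∀ (d : ℕ) (α β γ p : ℝ), (α, β) ≠ (0, 0) → 0 < p → ∀ f : Pt d → ℂ,
  MemLp f 2 (sectionMeasure α β γ d) → ¬ f =ᵐ[sectionMeasure α β γ d] 0 →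
  0 < bestConst α β γ d p

/-- EQ: the equality case. -/
def T_EQ : Prop := ∀ (Y : Type) [MeasurableSpace Y] (ν : Measure Y) (p a b : ℝ) (M : ℝ≥0∞)
  (U V : Y → ℝ), Measurable U → Measurable V → 2 < p → 0 < a → 0 < b → M < ∞ →
  ∫⁻ y, ‖U y‖ₑ ^ p ∂ν ≤ M * ENNReal.ofReal (a ^ (p / 2)) →
  ∫⁻ y, ‖V y‖ₑ ^ p ∂ν ≤ M * ENNReal.ofReal (b ^ (p / 2)) →
  ∫⁻ y, ‖U y + V y‖ₑ ^ p ∂ν ≤ M * ENNReal.ofReal ((a + b) ^ (p / 2)) →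
  ∫⁻ y, ‖U y - V y‖ₑ ^ p ∂ν ≤ M * ENNReal.ofReal ((a + b) ^ (p / 2)) →
  ∫⁻ y, ENNReal.ofReal ((U y ^ 2 + V y ^ 2) ^ (p / 2)) ∂ν =
    M * ENNReal.ofReal ((a + b) ^ (p / 2)) → M = 0

/-- SYM (from STAR, CONT, POS, EQ): every maximizer is symmetric. -/
def T_SYM : Prop := ∀ (d : ℕ) (α β γ p : ℝ), 1 ≤ d → |α| ≠ |β| → 2 < p → ∀ f : Pt d → ℂ,
  Integrable f (sectionMeasure α β γ d) → IsMaximizer α β γ p f →
  ∃ θ : ℂ, ‖θ‖ = 1 ∧ ∀ᵐ ζ ∂(sectionMeasure α β γ d), conj (f (refl α β γ ζ)) = θ * f ζ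

/-- LONE: the exponential functions are integrable. -/
def T_LONE : Prop := ∀ (d : ℕ) (α β γ κ : ℝ), 1 ≤ d → |α| ≠ |β| → γ ≠ 0 → 0 < κ →
  Integrable (fun ζ : Pt d => Real.exp (-(κ * |ζ.1|))) (sectionMeasure α β γ d)

/-- OBL (from SYM, LONE): no maximizer on the oblique sections. -/
def T_OBL : Prop := ∀ (d : ℕ) (α β γ p : ℝ), 1 ≤ d → α ≠ 0 → β ≠ 0 → γ ≠ 0 → |α| ≠ |β| →
  2 < p → ¬ IsMaximizer α β γ p (expTau : Pt d → ℂ)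

/-! ## Part B: the hyperboloids `α = 0` -/

/-- The points of the hyperboloid over `ξ`, `ε = 1` or `ε = -1`. -/
def hpt (β γ ε : ℝ) {d : ℕ} (ξ : Ed d) : Pt d := (ε * √((γ / β) ^ 2 + ‖ξ‖ ^ 2), -(γ / β), ξ)

/-- The invariant measure. -/
def hnu (β γ : ℝ) (d : ℕ) : Measure (Ed d) :=
  volume.withDensity fun ξ => ENNReal.ofReal (1 / (2 * |β| * √((γ / β) ^ 2 + ‖ξ‖ ^ 2)))

/-- HYP: the measure of the hyperboloid. -/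
def T_HYP : Prop := ∀ (d : ℕ) (β γ : ℝ), 1 ≤ d → β ≠ 0 → γ ≠ 0 →
  sectionMeasure 0 β γ d =
    Measure.map (hpt β γ 1) (hnu β γ d) + Measure.map (hpt β γ (-1)) (hnu β γ d)

/-- The real extension of a real even function. -/
def rx (β γ : ℝ) {d : ℕ} (g : Pt d → ℝ) (z : ℝ × Ed d) : ℝ :=
  ∫ ζ, g ζ * Real.cos (ζ.1 * z.1 + ⟪ζ.2.2, z.2⟫) ∂(sectionMeasure 0 β γ d)

/-- `g` is even: `g (-τ, ρ, -ξ) = g (τ, ρ, ξ)`. -/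
def Ev {d : ℕ} (g : Pt d → ℝ) : Prop := ∀ (τ ρ : ℝ) (ξ : Ed d), g (-τ, ρ, -ξ) = g (τ, ρ, ξ)

/-- NRM (from REFL): the norm of the extension of a real even function. -/
def T_NRM : Prop := ∀ (d : ℕ) (β γ p : ℝ) (g : Pt d → ℝ), 1 ≤ d → β ≠ 0 → γ ≠ 0 → 0 < p → Ev g →
  Integrable g (sectionMeasure 0 β γ d) →
  ∫⁻ y, ‖extension 0 β γ (fun ζ => ((g ζ : ℝ) : ℂ)) y‖ₑ ^ p ∂(planeMeasure 0 β γ d) =
    ENNReal.ofReal (1 / |β|) * ∫⁻ z : ℝ × Ed d, ‖rx β γ g z‖ₑ ^ p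

/-- `exp (-|τ|)` as a real function. -/
def ez {d : ℕ} (ζ : Pt d) : ℝ := Real.exp (-|ζ.1|)

/-- EL (from NRM, LONE): the Euler-Lagrange equation, tested with `g`. -/
def T_EL : Prop := ∀ (d : ℕ) (β γ p : ℝ) (g : Pt d → ℝ), 1 ≤ d → β ≠ 0 → γ ≠ 0 → 2 < p → Ev g →
  Integrable g (sectionMeasure 0 β γ d) → MemLp g 2 (sectionMeasure 0 β γ d) →
  ∫ ζ, ez ζ * g ζ ∂(sectionMeasure 0 β γ d) = 0 →
  IsMaximizer 0 β γ p (expTau : Pt d → ℂ) →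
  Integrable (fun z : ℝ × Ed d => |rx β γ ez z| ^ p) ∧
  Integrable (fun z : ℝ × Ed d => |rx β γ ez z| ^ (p - 1) * |rx β γ g z|) ∧
  ∫ z : ℝ × Ed d, |rx β γ ez z| ^ (p - 2) * rx β γ ez z * rx β γ g z = 0

/-- UPR (from LONE): properties of the extension of `exp (-|τ|)`. -/
def T_UPR : Prop := ∀ (d : ℕ) (β γ : ℝ), 1 ≤ d → β ≠ 0 → γ ≠ 0 →
  Continuous (rx β γ ez : ℝ × Ed d → ℝ) ∧ 0 < rx β γ ez (0 : ℝ × Ed d) ∧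
  (∀ z : ℝ × Ed d, z ≠ 0 → |rx β γ ez z| < rx β γ ez (0 : ℝ × Ed d)) ∧
  ∃ L : ℝ, ∀ z z' : ℝ × Ed d, |rx β γ ez z - rx β γ ez z'| ≤ L * ‖z - z'‖

/-- The test functions. -/
def gt (c : ℝ) {n : ℕ} (ζ : Pt (n + 1)) : ℝ :=
  (|ζ.1| + SignType.sign ζ.1 * ζ.2.2 0) ^ (-(((n : ℝ) + 1) / 2)) * Real.exp (-(c * |ζ.1|))

/-- `ξ` without its coordinate of index `0`. -/
def tl {n : ℕ} (ξ : Ed (n + 1)) : Ed n := WithLp.toLp 2 fun i => ξ i.succ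

/-- CV: light cone coordinates. -/
def T_CV : Prop := ∀ (n : ℕ) (m : ℝ), 0 < m →
  Measure.map (fun ξ : Ed (n + 1) => (√(m ^ 2 + ‖ξ‖ ^ 2) + ξ 0, tl ξ))
    (volume.withDensity fun ξ => ENNReal.ofReal (1 / √(m ^ 2 + ‖ξ‖ ^ 2))) =
  ((volume.restrict (Ioi (0 : ℝ))).withDensity fun a => ENNReal.ofReal (1 / a)).prod
    (volume : Measure (Ed n))

/-- ID: a Bessel type integral. -/
def T_ID : Prop := ∀ P R : ℂ, 0 < P.re → 0 < R.re →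
  ∫ a in Ioi (0 : ℝ), ((a ^ (-(3 / 2) : ℝ) : ℝ) : ℂ) * Complex.exp (-(P * a) - R / a) =
    ((√Real.pi : ℝ) : ℂ) / R ^ (1 / 2 : ℂ) *
      Complex.exp (-(2 * (P ^ (1 / 2 : ℂ) * R ^ (1 / 2 : ℂ))))

/-- IX (from CV, ID): the extension of the test functions. -/
def T_IX : Prop := ∀ (n : ℕ) (m c : ℝ), 0 < m → 0 < c → ∀ (t : ℝ) (x : Ed (n + 1)),
  Integrable (fun ξ : Ed (n + 1) => (√(m ^ 2 + ‖ξ‖ ^ 2) + ξ 0) ^ (-(((n : ℝ) + 1) / 2)) *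
    Real.exp (-(c * √(m ^ 2 + ‖ξ‖ ^ 2))) / √(m ^ 2 + ‖ξ‖ ^ 2)) ∧
  ∫ ξ : Ed (n + 1), (((√(m ^ 2 + ‖ξ‖ ^ 2) + ξ 0) ^ (-(((n : ℝ) + 1) / 2)) *
      Real.exp (-(c * √(m ^ 2 + ‖ξ‖ ^ 2))) / √(m ^ 2 + ‖ξ‖ ^ 2) : ℝ) : ℂ) *
      Complex.exp (-(Complex.I * ((√(m ^ 2 + ‖ξ‖ ^ 2) * t + ⟪ξ, x⟫ : ℝ) : ℂ))) =
    (1 / m : ℝ) * ((2 * Real.pi : ℝ) / ((c : ℂ) + Complex.I * ((t - x 0 : ℝ) : ℂ))) ^
      ((((n : ℝ) + 1) / 2 : ℝ) : ℂ) *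
      Complex.exp (-(m * (((c : ℂ) + Complex.I * t) ^ 2 + ((‖x‖ ^ 2 : ℝ) : ℂ)) ^ (1 / 2 : ℂ)))

/-- GT (from HYP, IX): the test functions on the hyperboloid. -/
def T_GT : Prop := ∀ (n : ℕ) (β γ : ℝ), β ≠ 0 → γ ≠ 0 → ∃ K : ℝ, 0 < K ∧ ∀ c : ℝ, 0 < c →
  Ev (gt c : Pt (n + 1) → ℝ) ∧ Integrable (gt c) (sectionMeasure 0 β γ (n + 1)) ∧
  MemLp (gt c) 2 (sectionMeasure 0 β γ (n + 1)) ∧
  (∫ ζ, gt c ζ ∂(sectionMeasure 0 β γ (n + 1)) =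
    K * (c ^ (-(((n : ℝ) + 1) / 2)) * Real.exp (-(c * |γ / β|)))) ∧
  ∀ (t : ℝ) (x : Ed (n + 1)), |rx β γ (gt c) (t, x)| ≤
    K * ((√(c ^ 2 + (t - x 0) ^ 2)) ^ (-(((n : ℝ) + 1) / 2)) *
      Real.exp (-(|γ / β| * ((((c : ℂ) + Complex.I * t) ^ 2 + ((‖x‖ ^ 2 : ℝ) : ℂ)) ^
        (1 / 2 : ℂ)).re)))

/-- SQ: lower bound for the real part of the root. -/
def T_SQ : Prop := ∀ c t x X z B : ℝ, 0 < c → 0 ≤ X → z = √(c ^ 2 + (t - x) ^ 2) →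
  B = (t + x) - (t - x) * X ^ 2 / z ^ 2 →
  1 / 8 * (c * √(|B| / (2 * z)) + 2 * c * X / z) ≤
    ((((c : ℂ) + Complex.I * t) ^ 2 + ((x ^ 2 + X ^ 2 : ℝ) : ℂ)) ^ (1 / 2 : ℂ)).re

/-- LRHO (from SQ): integrability of the bound. -/
def T_LRHO : Prop := ∀ (n : ℕ) (c m ρ : ℝ), 0 < c → 0 < m → 2 + 2 / ((n : ℝ) + 1) < ρ →
  Integrable fun z : ℝ × Ed (n + 1) =>
    ((√(c ^ 2 + (z.1 - z.2 0) ^ 2)) ^ (-(((n : ℝ) + 1) / 2)) *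
      Real.exp (-(m * ((((c : ℂ) + Complex.I * z.1) ^ 2 + ((‖z.2‖ ^ 2 : ℝ) : ℂ)) ^
        (1 / 2 : ℂ)).re))) ^ ρ

/-- MEL: zeros of a Mellin transform. -/
def T_MEL : Prop := ∀ (Y : Type) [MeasurableSpace Y] (ν : Measure Y) (u w : Y → ℝ) (A r : ℝ)
  (P : Set ℝ) (q : ℝ), Measurable u → Measurable w → (∀ y, |u y| ≤ A) → 1 < r →
  Integrable (fun y => |u y| ^ (r - 1) * |w y|) ν →
  (∀ p ∈ P, ∫ y, |u y| ^ (p - 2) * u y * w y ∂ν = 0) → r < q → AccPt q (𝓟 P) →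
  ∀ p, r < p → ∫ y, |u y| ^ (p - 2) * u y * w y ∂ν = 0

/-- LARGE: positivity for large exponents. -/
def T_LARGE : Prop := ∀ (d : ℕ) (u w : ℝ × Ed d → ℝ) (r q L : ℝ), Continuous u → Continuous w →
  0 < u 0 → (∀ z, z ≠ 0 → |u z| < u 0) → (∀ z z', |u z - u z'| ≤ L * ‖z - z'‖) → 1 ≤ q →
  Integrable (fun z => |u z| ^ q) → 0 < w 0 → 1 < r →
  Integrable (fun z => |u z| ^ (r - 1) * |w z|) →
  ∃ p₀ : ℝ, r < p₀ ∧ ∀ p, p₀ ≤ p → 0 < ∫ z, |u z| ^ (p - 2) * u z * w z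

/-- KNAPP (from HYP): the best constant is infinite for small exponents. -/
def T_KNAPP : Prop := ∀ (d : ℕ) (β γ p : ℝ), 1 ≤ d → β ≠ 0 → γ ≠ 0 → 0 < p → p < 2 + 4 / (d : ℝ) →
  bestConst 0 β γ d p = ∞

/-- FIN (from EL, UPR, GT, LRHO, MEL, LARGE, KNAPP) -/
def T_FIN : Prop := ∀ (d : ℕ) (β γ : ℝ), 1 ≤ d → β ≠ 0 → γ ≠ 0 →
  {p : ℝ | 0 < p ∧ IsMaximizer 0 β γ p (expTau : Pt d → ℂ)}.Finite

end Pool.Agent.SymM
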